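import Pool.Agent.K3h21.AV.Ext
import Pool.Agent.R498.MT.Asm

set_option autoImplicit false
set_option linter.unusedSectionVars false

/-! Assembly of the two sums, with additive errors. -/

namespace Pool.Agent.K3h21.AV

open Finset
open Pool.Agent.R498.MT

section asm
variable {S : Type} [Fintype S] [DecidableEq S]

theorem sz_lt {J : Type} [Fintype J] [DecidableEq J] (l : S → ℝ) (ε₁ : ℝ) (hl : ∀ t, ε₁ ≤ l t)
    (T : S → Option J) : ε₁ * sz T ≤ lt l T := by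
  unfold lt sz
  have h1 : ε₁ * ((univ.filter (fun t => T t ≠ none)).card : ℝ) = ∑ t, if T t = none then 0 else ε₁ := by
    have h0 : ∀ t, (if T t = none then (0 : ℝ) else ε₁) = if T t ≠ none then ε₁ else 0 := by
      intro t
      by_cases h : T t = none <;> simp [h]
    simp_rw [h0]
    rw [← sum_filter, sum_const, nsmul_eq_mul, mul_comm]
  rw [h1]
  refine sum_le_sum fun t _ => ?_
  split_ifs
  · exact le_rfl
  · exact hl t

theorem sz_mono {J : Type} [Fintype J] [DecidableEq J] (U V : S → Option J) (h : Pool.Agent.R498.MT.Sub U V) :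
    sz U ≤ sz V := by
  unfold sz
  apply card_le_card
  intro t ht
  rw [mem_filter] at ht ⊢
  refine ⟨ht.1, ?_⟩
  rcases h t with h1 | h1
  · exact absurd h1 ht.2
  · rw [← h1]
    exact ht.2

/-- the weight of the arguments with few prime factors -/
theorem Lam_fin' (k : ℕ) (R : ℝ) (hR : 0 < R) (ε₁ : ℝ) (hε : 0 < ε₁) (w : ℝ) (hεw : ε₁ ≤ w)
    (q μ l : S → ℝ) (ω : ℝ) (hd : Dat q μ l ε₁ R w ω) (i : Option (Fin (2 ^ k)))
    (x : S → Option (Fin (2 ^ k))) (c : ℕ) (hx : sz x ≤ c) :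
    Lam i q μ (yf l R k) x ^ 2 ≤ (Ab k ε₁ * 2 ^ c) ^ 2 := by
  have hl0 : ∀ t, 0 ≤ l t := fun t => hε.le.trans (hd.l1 t)
  have hmq : ∀ t, μ t * (q t - 1) ≤ 1 := by
    intro t
    rcases hd.mq t with h | h
    · rw [h]; norm_num
    · exact h.le
  have h1 := Lam_bd (J := Fin (2 ^ k)) i q μ hd.q2 hd.m0 hmq (yf l R k) (fun σ => by
      have := yf_facts l hl0 R hR k σ
      rw [abs_of_nonneg this.1]
      exact this.2.1) x
  have h2 : ∏ t, (1 + (Fintype.card (Fin (2 ^ k)) : ℝ) * μ t) ≤ Ab k ε₁ := by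
    refine le_trans ?_ (AA_Ab hd hε hεw k)
    unfold AA
    apply prod_le_prod
    · intro t _
      have := hd.m0 t
      positivity
    · intro t _
      have h3 := hd.m0 t
      have h4 : (1 : ℝ) ≤ (Fintype.card (Fin (2 ^ k)) : ℝ) := by
        rw [Fintype.card_fin]
        exact_mod_cast Nat.one_le_two_pow
      have h5 : (Fintype.card (Fin (2 ^ k)) : ℝ) * μ t ≤
          8 * (Fintype.card (Fin (2 ^ k)) : ℝ) ^ 2 * μ t := by
        apply mul_le_mul_of_nonneg_right _ h3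
        nlinarith
      linarith
  have h3 : (2 : ℝ) ^ (univ.filter (fun t => x t ≠ none)).card ≤ 2 ^ c :=
    pow_le_pow_right₀ (by norm_num) hx
  have h4 : |Lam i q μ (yf l R k) x| ≤ Ab k ε₁ * 2 ^ c := by
    refine h1.trans ?_
    have h5 : 0 ≤ ∏ t, (1 + (Fintype.card (Fin (2 ^ k)) : ℝ) * μ t) :=
      prod_nonneg fun t _ => by have := hd.m0 t; positivity
    exact mul_le_mul h2 h3 (by positivity) (h5.trans h2)
  rw [← sq_abs]
  exact pow_le_pow_left₀ (abs_nonneg _) h4 2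

theorem cL_bd {J : Type} [Fintype J] [DecidableEq J] (cL : Finset S → ℝ) (C₁ : ℝ) (hC : 0 ≤ C₁)
    (hcL : ∀ T, |cL T| ≤ C₁) (i : J) (x : S → Option J) (c : ℕ) (hx : sz x ≤ c) :
    |∑ T, cL T * (if ∀ t ∈ T, x t = some i then 1 else 0)| ≤ C₁ * 2 ^ c := by
  have h1 : |∑ T, cL T * (if ∀ t ∈ T, x t = some i then (1 : ℝ) else 0)| ≤
      ∑ T ∈ (univ.filter (fun t => x t ≠ none)).powerset, C₁ := by
    refine (abs_sum_le_sum_abs _ _).trans ?_
    rw [← sum_subset (subset_univ (univ.filter (fun t => x t ≠ none)).powerset)]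
    · refine sum_le_sum fun T _ => ?_
      rw [abs_mul]
      split_ifs
      · rw [abs_one, mul_one]
        exact hcL T
      · rw [abs_zero, mul_zero]
        exact hC
    · intro T _ hT
      rw [if_neg, mul_zero, abs_zero]
      intro h
      apply hT
      rw [mem_powerset]
      intro t ht
      rw [mem_filter]
      refine ⟨mem_univ _, ?_⟩
      rw [h t ht]
      simp
  refine h1.trans ?_
  rw [sum_const, card_powerset, nsmul_eq_mul, mul_comm]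
  apply mul_le_mul_of_nonneg_left _ hC
  push_cast
  exact pow_le_pow_right₀ (by norm_num) hx

open Classical in
/-- **The weighted count of the arguments with many good slots is large; additive errors.** -/
theorem asmA (k : ℕ) (C₁ R c₀ τ : ℝ) (hC : 0 ≤ C₁) (hR : 0 < R) (hc₀ : 0 < c₀) (m : ℕ)
    (hτ : τ ≤ 1)
    (hk : 3 * ((m : ℝ) + 1) * 1474560 ≤ c₀ * R * k) (ε₁ : ℝ) (hε : 0 < ε₁)
    (hε1 : ε₁ ≤ e0 k C₁ R) (w : ℝ) (q μ l : S → ℝ) (hd : Dat q μ l ε₁ R w (om k C₁ ε₁))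
    (cL : Finset S → ℝ) (hcL : ∀ T, |cL T| ≤ C₁) (hcT : ∀ T, cL T ≠ 0 → lz l T ≤ τ)
    {N : Finset ℕ} {ν : ℕ → ℝ} {ξ : ℕ → S → Option (Fin (2 ^ k))} {X V E : ℝ} (hX : 0 ≤ X)
    (hμV : V ≤ ∑ T, cL T * ∏ t ∈ T, 1 / q t) (hγμ : ∀ t, 1 / q t ≤ μ t) (hcV : c₀ * ε₁ ≤ V)
    (hE : 0 ≤ E) (hE1 : E ≤ ε₁ ^ (16 * (2 ^ k) ^ 2 + 1))
    (e : (S → Option (Fin (2 ^ k))) → ℝ) (he : ∀ T, 0 ≤ e T)
    (hC1 : ∀ T : S → Option (Fin (2 ^ k)), lt l T ≤ 2 * R + τ →
      |∑ n ∈ N, ν n * (if Pool.Agent.R498.MT.Sub T (ξ n) then 1 else 0) -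
        X * ∏ t, rr (fun _ => 1 / q t) (T t)| ≤ E * X * ∏ t, rr (fun _ => 1 / q t) (T t) + e T)
    (hτ0 : 0 ≤ τ) (c' : ℕ) (hc' : (2 * R + τ) / ε₁ ≤ c')
    (herr : (Ab k ε₁ * 2 ^ c') ^ 2 * ((1 + C₁ * 2 ^ c') * 2 ^ k * (m + 1)) *
      (∑ T : S → Option (Fin (2 ^ k)), if lt l T ≤ 2 * R + τ then 2 ^ sz T * e T else 0) ≤ X)
    (hν : ∀ n ∈ N, 0 ≤ ν n) (wb : ℕ → Fin (2 ^ k) → ℝ)
    (hwb : ∀ n ∈ N, ν n ≠ 0 → ∀ i, ∑ T, cL T * (if ∀ t ∈ T, ξ n t = some i then 1 else 0) ≤ wb n i)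
    (hw0 : ∀ n ∈ N, ν n ≠ 0 → ∀ i, wb n i ≠ 0 → ∀ t, ξ n t = some i → R < l t) :
    X ≤ ∑ n ∈ N, ν n * (Lam none q μ (yf l R k) (ξ n) ^ 2 * (∑ i, wb n i - m)) := by
  have hl0 : ∀ t, 0 ≤ l t := fun t => hε.le.trans (hd.l1 t)
  have hεw : ε₁ ≤ w := by
    have h1 := (e0_le k C₁ R).1
    have h2 := u0_le R hR k
    have h3 : (1 : ℝ) ≤ 2 ^ k := one_le_pow₀ (by norm_num)
    have h4 := hd.Rw
    have h5 := u0_pos R hR k
    nlinarith
  obtain ⟨N', ν', ξ', hcnt, hdiff⟩ := to_cnt (N := N) (ν := ν) (ξ := ξ)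
    (r := fun t _ => 1 / q t) (X := X) (E := E) hX hE (fun t j => by
      have := hd.q2 t
      positivity) (fun T => lt l T ≤ 2 * R + τ) e he hC1
  have hszc : ∀ V : S → Option (Fin (2 ^ k)), lt l V ≤ 2 * R + τ → ∀ U,
      Pool.Agent.R498.MT.Sub U V → sz U ≤ c' := by
    intro V hV U hU
    refine (sz_mono U V hU).trans ?_
    have h1 := sz_lt l ε₁ hd.l1 V
    have h2 : (sz V : ℝ) ≤ (2 * R + τ) / ε₁ := by
      rw [le_div_iff₀ hε]
      linarith
    exact_mod_cast h2.trans hc'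
  set err : ℝ := ∑ T : S → Option (Fin (2 ^ k)), if lt l T ≤ 2 * R + τ then 2 ^ sz T * e T else 0
    with herrd
  have herr0 : 0 ≤ err := by
    apply sum_nonneg
    intro T _
    split_ifs
    · have := he T
      positivity
    · exact le_rfl
  set B1 : ℝ := (Ab k ε₁ * 2 ^ c') ^ 2 with hB1
  have hB10 : 0 ≤ B1 := sq_nonneg _
  have hI1 : 1 ≤ If μ l R k := one_le_pow₀ (I2_one hd hε hR k)
  -- the first sum
  have h1 : ∑ n ∈ N, ν n * Lam none q μ (yf l R k) (ξ n) ^ 2 ≤ 2 * X * If μ l R k + B1 * err := by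
    have h2 := S1_fin k C₁ R hC hR ε₁ hε hε1 w q μ l hd hX hE hE1 (N := N') (ν := ν') (ξ := ξ')
      (fun T hT => hcnt T (by
        have h1 : lt l T ≤ 2 * R := hT
        show lt l T ≤ 2 * R + τ
        linarith))
    have h3 := hdiff (fun U => Lam none q μ (yf l R k) U ^ 2) B1 err hB10 (fun V hV U hU => by
      rw [abs_of_nonneg (sq_nonneg _)]
      exact Lam_fin' k R hR ε₁ hε w hεw q μ l _ hd none U c' (hszc V hV U hU)) (by
        rw [herrd])
    have h4 := (abs_le.1 h3).1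
    beta_reduce at h4
    linarith
  have h2 : ∀ i : Fin (2 ^ k), 2 * ((m : ℝ) + 1) / 2 ^ k * (X * If μ l R k) - B1 * (C₁ * 2 ^ c') * err ≤
      ∑ n ∈ N, ν n * (Lam none q μ (yf l R k) (ξ n) ^ 2 * wb n i) := by
    intro i
    have h3 := S2_fin k C₁ R c₀ τ hC hR hc₀ m hτ hk ε₁ hε hε1 w q μ l hd i (fun t => 1 / q t)
      (fun t => by have := hd.q2 t; positivity) hγμ cL hcL hcT (N := N') (ν := ν') (ξ := ξ') (X := X)
      (X₀ := X) (V := V) (E := E) hX le_rfl hμV (by nlinarith) hE hE1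
      (fun T hT => by
        have e : ∀ t, rr (rd (some i) (q t) (1 / q t)) (T t) =
            rr (fun _ : Fin (2 ^ k) => 1 / q t) (T t) := by
          intro t
          rcases T t with _ | j
          · rfl
          · simp [rr, rd]
        have := hcnt T hT
        simp_rw [e]
        exact this)
    have h4 := hdiff (fun U => Lam (some i) q μ (yf l R k) U ^ 2 *
        ∑ T, cL T * (if ∀ t ∈ T, U t = some i then 1 else 0)) (B1 * (C₁ * 2 ^ c')) err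
      (by positivity) (fun V hV U hU => by
      rw [abs_mul, abs_of_nonneg (sq_nonneg _)]
      exact mul_le_mul (Lam_fin' k R hR ε₁ hε w hεw q μ l _ hd (some i) U c' (hszc V hV U hU))
        (cL_bd cL C₁ hC hcL i U c' (hszc V hV U hU)) (abs_nonneg _) hB10) (by rw [herrd])
    have h5 := (abs_le.1 h4).2
    beta_reduce at h5
    have h6 : 2 * ((m : ℝ) + 1) / 2 ^ k * (X * If μ l R k) - B1 * (C₁ * 2 ^ c') * err ≤
        ∑ n ∈ N, ν n * (Lam (some i) q μ (yf l R k) (ξ n) ^ 2 *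
        ∑ T, cL T * (if ∀ t ∈ T, ξ n t = some i then 1 else 0)) := by linarith
    refine h6.trans (sum_le_sum fun n hn => ?_)
    by_cases hn0 : ν n = 0
    · rw [hn0]; simp
    apply mul_le_mul_of_nonneg_left _ (hν n hn)
    by_cases hw : wb n i = 0
    · rw [hw, mul_zero]
      have h4 := hwb n hn hn0 i
      rw [hw] at h4
      exact mul_nonpos_of_nonneg_of_nonpos (sq_nonneg _) h4
    · rw [Lam_slot q μ l R (yf l R k) (fun σ hσ => (yf_facts l hl0 R hR k σ).2.2 hσ) hl0 i (ξ n)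
        (hw0 n hn hn0 i hw)]
      exact mul_le_mul_of_nonneg_left (hwb n hn hn0 i) (sq_nonneg _)
  have h3 := sum_le_sum (s := (univ : Finset (Fin (2 ^ k)))) fun i _ => h2 i
  rw [sum_const, card_univ, Fintype.card_fin, nsmul_eq_mul] at h3
  have h4 : ∑ i : Fin (2 ^ k), ∑ n ∈ N, ν n * (Lam none q μ (yf l R k) (ξ n) ^ 2 * wb n i) =
      ∑ n ∈ N, ν n * (Lam none q μ (yf l R k) (ξ n) ^ 2 * ∑ i, wb n i) := by
    rw [sum_comm]
    refine sum_congr rfl fun n _ => ?_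
    rw [mul_sum, mul_sum]
  rw [h4] at h3
  have h5 : ((2 ^ k : ℕ) : ℝ) * (2 * ((m : ℝ) + 1) / 2 ^ k * (X * If μ l R k) - B1 * (C₁ * 2 ^ c') * err) =
      2 * ((m : ℝ) + 1) * (X * If μ l R k) - B1 * (C₁ * 2 ^ c' * 2 ^ k) * err := by
    push_cast
    have : (2 : ℝ) ^ k ≠ 0 := by positivity
    field_simp
  rw [h5] at h3
  have h6 : ∑ n ∈ N, ν n * (Lam none q μ (yf l R k) (ξ n) ^ 2 * (∑ i, wb n i - m)) =
      ∑ n ∈ N, ν n * (Lam none q μ (yf l R k) (ξ n) ^ 2 * ∑ i, wb n i) -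
        m * ∑ n ∈ N, ν n * Lam none q μ (yf l R k) (ξ n) ^ 2 := by
    rw [mul_sum, ← sum_sub_distrib]
    refine sum_congr rfl fun n _ => ?_
    ring
  rw [h6]
  have h7 := mul_le_mul_of_nonneg_left h1 (Nat.cast_nonneg (α := ℝ) m)
  have hm0 : (0 : ℝ) ≤ m := Nat.cast_nonneg m
  have hk1 : (1 : ℝ) ≤ 2 ^ k := one_le_pow₀ (by norm_num)
  have hCc : 0 ≤ C₁ * 2 ^ c' := by positivity
  have h8 : B1 * (C₁ * 2 ^ c' * 2 ^ k) * err + m * (B1 * err) ≤
      B1 * ((1 + C₁ * 2 ^ c') * 2 ^ k * (m + 1)) * err := by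
    have h9 : C₁ * 2 ^ c' * 2 ^ k + m ≤ (1 + C₁ * 2 ^ c') * 2 ^ k * (m + 1) := by
      have h10 : 0 ≤ C₁ * 2 ^ c' * 2 ^ k := by positivity
      have h11 : 0 ≤ C₁ * 2 ^ c' * 2 ^ k * m := by positivity
      nlinarith
    have h12 := mul_le_mul_of_nonneg_left h9 (mul_nonneg hB10 herr0)
    nlinarith
  have h9 : X ≤ X * If μ l R k := le_mul_of_one_le_right hX hI1
  nlinarith

end asm

end Pool.Agent.K3h21.AV
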