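import Pool.Agent.K3h21.AV.Sum

set_option autoImplicit false
set_option linter.unusedSectionVars false
set_option linter.unusedVariables false

/-! The sieve of Maynard and Tao with Richert's weights in the slots, for abstract families with a level of
distribution in the mean. -/

namespace Pool.Agent.K3h21.AV

open Finset Filter
open Pool.Agent.Y677.RSZ (rt Sys)
open Pool.Agent.TH423.SH (PS)
open Pool.Agent.W23.DC
open Pool.Agent.Y882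
open Pool.Agent.Y882.PX
open Pool.Agent.Y882.KW
open Pool.Agent.R498.MT

/-- `2 ^ J` is at most a constant times the logarithm -/
theorem J_log (Y J : ℕ) (ε₁ : ℝ) (hY : 3 ≤ Y) (hε11 : ε₁ ≤ 1)
    (hJ2 : (2 : ℝ) ^ 2 ^ J ≤ (Y : ℝ) ^ (2 * ε₁)) : (2 : ℝ) ^ J ≤ 3 * Real.log Y := by
  have hYr : (3 : ℝ) ≤ Y := by exact_mod_cast hY
  have hY0 : (0 : ℝ) < Y := by linarith
  have hlY : 0 < Real.log Y := Real.log_pos (by linarith)
  have h1 := Real.log_le_log (by positivity) hJ2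
  rw [Real.log_pow, Real.log_rpow hY0] at h1
  push_cast at h1
  have h2 : 0.69 < Real.log 2 := by linarith [Real.log_two_gt_d9]
  have h3 : (0 : ℝ) < 2 ^ J := by positivity
  have h4 : 2 * ε₁ * Real.log Y ≤ 2 * 1 * Real.log Y := by gcongr
  nlinarith

open Classical in
/-- the family with the small primes sifted out, for one pattern -/
theorem pre_T (C : ℕ) (hCpos : 1 ≤ C) (hfl : ∀ (κ b J z0 : ℕ) (P : Finset ℕ) (g : ℕ → ℝ),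
  C * (κ + 1) ≤ b → C * (κ + 1) ≤ z0 → (∀ p ∈ P, p.Prime ∧ z0 < p ∧ p ≤ 2 ^ 2 ^ J) →
  (∀ p ∈ P, 0 ≤ g p ∧ g p ≤ κ / ((p : ℝ) - 1)) →
  ∀ (Ω : Finset ℕ) (w : ℕ → ℝ) (hit : ℕ → ℕ → Prop) (A : ℝ) (err : Finset ℕ → ℝ),
    (∀ m ∈ Ω, 0 ≤ w m) → 0 ≤ A →
    (∀ T ⊆ P, ∏ p ∈ T, p ≤ (2 ^ 2 ^ J) ^ (C * b) →
      |∑ m ∈ Ω.filter (fun m => ∀ p ∈ T, hit p m), w m - A * ∏ p ∈ T, g p| ≤ err T) →
    |∑ m ∈ Ω.filter (fun m => ∀ p ∈ P, ¬ hit p m), w m - A * ∏ p ∈ P, (1 - g p)| ≤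
      (1 / 2 : ℝ) ^ b * (A * ∏ p ∈ P, (1 - g p)) +
        ((J : ℝ) + 2) *
          ∑ T ∈ P.powerset.filter (fun T : Finset ℕ => ∏ p ∈ T, p ≤ (2 ^ 2 ^ J) ^ (C * b)),
            err T)
    (G : ℤ → ℤ) (g : ℕ) (hG : ∀ p : ℕ, p.Prime → rt G p ≤ g)
    (Y : ℕ) (ε₁ υ : ℝ) (W z k b₀ J : ℕ) (hY : 2 ≤ Y) (N : Finset ℕ) (ω : ℕ → ℝ)
    (val : ℕ → Fin (2 ^ k) → ℕ) (X₀ θ B : ℝ) (e : ℕ → ℝ) (hω : ∀ K ∈ N, 0 ≤ ω K) (hX₀ : 0 ≤ X₀)
    (hz1 : (z : ℝ) < (Y : ℝ) ^ ε₁) (hευ : ε₁ ≤ υ) (hWz : W ≤ z) (hW : 0 < W)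
    (hb₀ : C * (g * 2 ^ k + 1) ≤ b₀) (hWp : ∀ p : ℕ, p.Prime → p ≤ C * (g * 2 ^ k + 1) → p ∣ W)
    (hzJ : z < 2 ^ 2 ^ J)
    (hBZ : (Y : ℝ) ^ B * ((2 : ℝ) ^ 2 ^ J) ^ (C * b₀) ≤ (Y : ℝ) ^ θ)
    (hH : ∀ S : Finset ℕ, (∀ p ∈ S, p.Prime ∧ ¬ p ∣ W ∧ (p : ℝ) < (Y : ℝ) ^ υ) →
      ((∏ p ∈ S, p : ℕ) : ℝ) ≤ (Y : ℝ) ^ θ → ∀ σ : ℕ → Fin (2 ^ k),
      |∑ K ∈ N, ω K * (if ∀ p ∈ S, p ∣ val K (σ p) then 1 else 0) -
        X₀ * ∏ p ∈ S, ((rt G p : ℝ) / p)| ≤ e (∏ p ∈ S, p))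
    (hU : ∀ K ∈ N, ∀ p : ℕ, p.Prime → ¬ p ∣ W → (p : ℝ) < (Y : ℝ) ^ υ → ∀ i j,
      p ∣ val K i → p ∣ val K j → i = j)
    (T : Pg G Y ε₁ υ → Option (Fin (2 ^ k))) (hT : lt (ls G Y ε₁ υ) T ≤ B) :
    |∑ K ∈ N, nuA ω (PS W z) val K * (if Pool.Agent.R498.MT.Sub T
        (xv (fun s : Pg G Y ε₁ υ => (s : ℕ)) (val K)) then 1 else 0) -
      (X₀ * ∏ p ∈ PS W z, (1 - (2 ^ k * rt G p : ℝ) / p)) *
        ∏ t, Pool.Agent.R498.MT.rr (fun _ : Fin (2 ^ k) => 1 / qs G Y ε₁ υ t) (T t)| ≤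
      (1 / 2 : ℝ) ^ b₀ * (X₀ * ∏ p ∈ PS W z, (1 - (2 ^ k * rt G p : ℝ) / p)) *
        ∏ t, Pool.Agent.R498.MT.rr (fun _ : Fin (2 ^ k) => 1 / qs G Y ε₁ υ t) (T t) +
      ((J : ℝ) + 2) * ∑ A ∈ (PS W z).powerset.filter
          (fun A : Finset ℕ => ((∏ p ∈ A, p : ℕ) : ℝ) ≤ ((2 : ℝ) ^ 2 ^ J) ^ (C * b₀)),
        (2 ^ k) ^ A.card * e ((∏ p ∈ A, p) * (∏ p ∈ sp G Y ε₁ υ T, p)) := by
  have hYr : (2 : ℝ) ≤ Y := by exact_mod_cast hY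
  have hY0 : (0 : ℝ) < Y := by linarith
  have hY1 : (1 : ℝ) ≤ Y := by linarith
  set Rr : ℝ := ∏ t, Pool.Agent.R498.MT.rr (fun _ : Fin (2 ^ k) => 1 / qs G Y ε₁ υ t) (T t) with hRr
  have hRr0 : 0 ≤ Rr := by
    apply prod_nonneg
    intro s _
    rcases T s with _ | j
    · simp [Pool.Agent.R498.MT.rr]
    · simp only [Pool.Agent.R498.MT.rr]
      unfold qs
      positivity
  have hspT : ((∏ p ∈ sp G Y ε₁ υ T, p : ℕ) : ℝ) ≤ (Y : ℝ) ^ B := by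
    rw [lt_sp G Y ε₁ υ hY T]
    exact Real.rpow_le_rpow_of_exponent_le hY1 hT
  have h1 := hfl (g * 2 ^ k) b₀ J (C * (g * 2 ^ k + 1)) (PS W z) (fun p => (2 ^ k * rt G p : ℝ) / p) hb₀ le_rfl
    (by
      intro p hp
      unfold PS at hp
      rw [mem_filter, mem_Icc] at hp
      refine ⟨hp.2.1, ?_, by omega⟩
      by_contra hcon
      exact hp.2.2 (hWp p hp.2.1 (not_lt.1 hcon)))
    (by
      intro p hp
      unfold PS at hp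
      rw [mem_filter, mem_Icc] at hp
      have h2 : (2 : ℝ) ≤ p := by exact_mod_cast hp.2.1.two_le
      refine ⟨by positivity, ?_⟩
      have h3 : (2 ^ k * rt G p : ℝ) ≤ ((g * 2 ^ k : ℕ) : ℝ) := by
        have h4 : ((rt G p : ℕ) : ℝ) ≤ g := by exact_mod_cast hG p hp.2.1
        push_cast
        nlinarith [show (0 : ℝ) < 2 ^ k by positivity]
      calc (2 ^ k * rt G p : ℝ) / p ≤ ((g * 2 ^ k : ℕ) : ℝ) / p := by gcongr
        _ ≤ ((g * 2 ^ k : ℕ) : ℝ) / ((p : ℝ) - 1) := by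
          apply div_le_div_of_nonneg_left (Nat.cast_nonneg _) (by linarith) (by linarith))
    (N.filter (fun K => Pool.Agent.R498.MT.Sub T (xv (fun s : Pg G Y ε₁ υ => (s : ℕ)) (val K)))) ω
    (fun p K => ∃ i, p ∣ val K i) (X₀ * Rr)
    (fun A => (2 ^ k) ^ A.card * e ((∏ p ∈ A, p) * (∏ p ∈ sp G Y ε₁ υ T, p)))
    (fun K hK => hω K (mem_filter.1 hK).1) (mul_nonneg hX₀ hRr0)
    (fun A hA hAZ => by
      have h0 := comb G Y ε₁ υ W z k hY N ω val X₀ θ e hz1 hευ hWz hW hH hU A hA T (by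
        push_cast
        refine le_trans ?_ hBZ
        rw [mul_comm]
        have h2 : ((∏ p ∈ A, p : ℕ) : ℝ) ≤ ((2 : ℝ) ^ 2 ^ J) ^ (C * b₀) := by exact_mod_cast hAZ
        push_cast at h2 hspT
        exact mul_le_mul hspT h2 (prod_nonneg fun _ _ => Nat.cast_nonneg _) (by positivity))
      rw [← hRr] at h0
      convert h0 using 4
      ext K
      simp only [mem_filter])
  have h2 : ∑ K ∈ N, nuA ω (PS W z) val K * (if Pool.Agent.R498.MT.Sub T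
        (xv (fun s : Pg G Y ε₁ υ => (s : ℕ)) (val K)) then 1 else 0) =
      ∑ m ∈ (N.filter (fun K => Pool.Agent.R498.MT.Sub T
        (xv (fun s : Pg G Y ε₁ υ => (s : ℕ)) (val K)))).filter
        (fun K => ∀ p ∈ PS W z, ¬ ∃ i, p ∣ val K i), ω m := by
    rw [filter_filter, sum_filter]
    refine sum_congr rfl fun K _ => ?_
    unfold nuA
    by_cases g1 : Pool.Agent.R498.MT.Sub T (xv (fun s : Pg G Y ε₁ υ => (s : ℕ)) (val K))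
    · by_cases g2 : ∀ p ∈ PS W z, ¬ ∃ i, p ∣ val K i
      · rw [if_pos g1, if_pos g2, if_pos ⟨g1, g2⟩, mul_one]
      · rw [if_pos g1, if_neg g2, if_neg (fun h => g2 h.2), zero_mul]
    · rw [if_neg g1, mul_zero]
      symm
      exact if_neg (fun h => g1 h.1)
  rw [h2]
  have h3 : (X₀ * ∏ p ∈ PS W z, (1 - (2 ^ k * rt G p : ℝ) / p)) * Rr =
      X₀ * Rr * ∏ p ∈ PS W z, (1 - (2 ^ k * rt G p : ℝ) / p) := by ring
  have h4 : (1 / 2 : ℝ) ^ b₀ * (X₀ * ∏ p ∈ PS W z, (1 - (2 ^ k * rt G p : ℝ) / p)) * Rr =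
      (1 / 2 : ℝ) ^ b₀ * (X₀ * Rr * ∏ p ∈ PS W z, (1 - (2 ^ k * rt G p : ℝ) / p)) := by ring
  rw [h3, h4]
  have h5 : (PS W z).powerset.filter
          (fun A : Finset ℕ => ((∏ p ∈ A, p : ℕ) : ℝ) ≤ ((2 : ℝ) ^ 2 ^ J) ^ (C * b₀)) =
      (PS W z).powerset.filter (fun A : Finset ℕ => ∏ p ∈ A, p ≤ (2 ^ 2 ^ J) ^ (C * b₀)) := by
    refine filter_congr fun A _ => ?_
    exact_mod_cast Iff.rfl
  rw [h5]
  convert h1 using 4
  ext K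
  simp only [mem_filter]

open Classical in
/-- **The core.** -/
theorem coreA (g D : ℕ) (m : ℕ) (τ ζ υ aw bw θ R : ℝ) (hζ : 0 < ζ) (h2 : 2 * ζ < τ) (h4 : τ ≤ 4 * ζ) (hτ : τ ≤ 1)
    (hζυ : ζ ≤ υ) (hυτ : υ < τ) (ha : 0 ≤ aw) (hb : 0 ≤ bw) (hab : bw * υ ≤ aw)
    (hJ0 : ∫ x in ζ..υ, (aw - bw * x) / (τ - x) / x < Real.log (τ / ζ - 1) / τ)
    (hR : 0 < R) (hRζ : R < ζ) (hRτ : 2 * R + τ < θ) :
    ∃ k A₁ : ℕ, g * 2 ^ k + 1 ≤ A₁ ∧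
      ∃ ε₁ c η : ℝ, 0 < ε₁ ∧ ε₁ ≤ ζ ∧ 0 < c ∧ 0 < η ∧ ∀ W : ℕ, 0 < W →
      (∀ p : ℕ, p.Prime → p ≤ A₁ → p ∣ W) → ∃ Y₀ : ℕ, ∀ Y : ℕ, Y₀ ≤ Y →
      ∀ G : ℤ → ℤ, (∀ p : ℕ, p.Prime → rt G p ≤ g) →
        Mer (pr Y ε₁ υ) (tt Y) (fun p => (rt G p : ℝ) / p) ε₁ υ η →
      ∀ (N : Finset ℕ) (ω : ℕ → ℝ) (val : ℕ → Fin (2 ^ k) → ℕ) (X₀ : ℝ) (e : ℕ → ℝ),
        (∀ K ∈ N, 0 ≤ ω K) → 0 ≤ X₀ → (∀ d, 0 ≤ e d) →
        (∀ K ∈ N, ∀ i, val K i ≠ 0 ∧ (val K i : ℝ) ≤ (Y : ℝ) ^ (2 * D : ℝ)) →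
        (∀ K ∈ N, ∀ p : ℕ, p.Prime → p ∣ W → ∀ i, ¬ p ∣ val K i) →
        (∀ K ∈ N, ∀ p : ℕ, p.Prime → ¬ p ∣ W → (p : ℝ) < (Y : ℝ) ^ υ → ∀ i j,
          p ∣ val K i → p ∣ val K j → i = j) →
        (∀ K ∈ N, ∀ p : ℕ, p.Prime → rt G p = 0 → ∀ i, ¬ p ∣ val K i) →
        (∀ S : Finset ℕ, (∀ p ∈ S, p.Prime ∧ ¬ p ∣ W ∧ (p : ℝ) < (Y : ℝ) ^ υ) →
          ((∏ p ∈ S, p : ℕ) : ℝ) ≤ (Y : ℝ) ^ θ → ∀ σ : ℕ → Fin (2 ^ k),
          |∑ K ∈ N, ω K * (if ∀ p ∈ S, p ∣ val K (σ p) then 1 else 0) -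
            X₀ * ∏ p ∈ S, ((rt G p : ℝ) / p)| ≤ e (∏ p ∈ S, p)) →
        ∑ d ∈ dd W Y θ, (2 ^ k) ^ d.primeFactors.card * e d ≤
          X₀ / Real.log Y ^ (2 * (g * 2 ^ k) + 2) →
        ∀ z : ℕ, (z : ℝ) < (Y : ℝ) ^ ε₁ → (Y : ℝ) ^ ε₁ ≤ z + 1 →
        c * (X₀ * ∏ p ∈ PS W z, (1 - (2 ^ k * rt G p : ℝ) / p)) ≤
          ∑ K ∈ gdA Y ε₁ ζ υ aw bw m N val, ω K ∧
        0 < ∏ p ∈ PS W z, (1 - (2 ^ k * rt G p : ℝ) / p) ∧
        1 ≤ Real.log Y ^ (2 * (g * 2 ^ k) + 1) * ∏ p ∈ PS W z, (1 - (2 ^ k * rt G p : ℝ) / p) := by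
  have hυ1 : υ ≤ 1 := by linarith
  obtain ⟨f0, F0, hf0, hF0, HL⟩ := lsw4 τ ζ υ aw bw hζ h2 h4 hτ hζυ hυτ ha hb hab hJ0
  obtain ⟨C, hC1, hfl⟩ := Pool.Agent.TH423.SH.fLemC
  -- the number of the slots
  obtain ⟨k, hk⟩ : ∃ k : ℕ, 3 * ((m : ℝ) + 1) * 1474560 ≤ f0 * R * k := by
    obtain ⟨k, hk⟩ := exists_nat_ge (3 * ((m : ℝ) + 1) * 1474560 / (f0 * R))
    refine ⟨k, ?_⟩
    rw [div_le_iff₀ (by positivity)] at hk
    linarith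
  -- the presieve
  obtain ⟨ε₁, b₀, hε, hε1, hεe, hb₀, hbE, hεb⟩ := par (1 + aw) R k C (C * (g * 2 ^ k + 1))
    (by linarith) hR (min ζ (τ - υ)) ((θ - (2 * R + τ)) / 2) (lt_min hζ (by linarith))
    (by linarith)
  have hεζ : ε₁ ≤ ζ := hε1.trans (min_le_left _ _)
  have hετ : ε₁ ≤ τ - υ := hε1.trans (min_le_right _ _)
  obtain ⟨η, hη, HL⟩ := HL ε₁ hε hεζ hετ
  obtain ⟨cV, hcV, hVlow⟩ := V_low (g * 2 ^ k)
  have hε11 : ε₁ ≤ 1 := hεe.trans (e0_le k (1 + aw) R).2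
  have hAb := Ab_one k ε₁ hε hε11
  have hom := om_bd k (1 + aw) ε₁ (by linarith) hε hε11
  obtain ⟨c', hc'⟩ : ∃ c' : ℕ, ((2 ^ k : ℕ) : ℝ) * (2 * D / ε₁) + (2 * R + τ) / ε₁ ≤ c' := exists_nat_ge _
  have hc1' : ((2 ^ k : ℕ) : ℝ) * (2 * D / ε₁) ≤ c' := by
    have : 0 ≤ (2 * R + τ) / ε₁ := div_nonneg (by linarith) hε.le
    linarith
  have hc2' : (2 * R + τ) / ε₁ ≤ c' := by
    have : 0 ≤ ((2 ^ k : ℕ) : ℝ) * (2 * D / ε₁) := by positivity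
    linarith
  set A0 : ℕ := 2 * (g * 2 ^ k) with hA0
  set CC : ℝ := (Ab k ε₁ * 2 ^ c') ^ 2 * ((1 + (1 + aw) * 2 ^ c') * 2 ^ k * (m + 1)) * 2 ^ c' with hCC
  have hCC0 : 0 ≤ CC := by
    have : 0 ≤ (1 + (1 + aw) * 2 ^ c') := by positivity
    positivity
  refine ⟨k, C * (g * 2 ^ k + 1) + (g * 2 ^ k + 1), by omega, ε₁,
    1 / (2 ^ k * (Ab k ε₁ * 2 ^ c') ^ 2), min η (1 / 40), hε, hεζ, by positivity,
    lt_min hη (by norm_num), ?_⟩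
  intro W hWpos hWp
  obtain ⟨Y2, hY2⟩ := Pool.Agent.K3h21.LN.dat_u g ε₁ υ R (om k (1 + aw) ε₁) hε (by linarith) hυ1 hom.1
  obtain ⟨Y3, hY3⟩ := exJ ε₁ hε
  have ev1 : ∀ᶠ Y : ℕ in atTop, (W + 2 : ℝ) ≤ (Y : ℝ) ^ ε₁ :=
    ((tendsto_rpow_atTop hε).comp tendsto_natCast_atTop_atTop).eventually_ge_atTop _
  have ev3 : ∀ᶠ Y : ℕ in atTop, 3 ^ A0 / cV + CC * 5 * 3 ^ A0 / cV + 1 ≤ Real.log (Y : ℝ) :=
    (Real.tendsto_log_atTop.comp tendsto_natCast_atTop_atTop).eventually_ge_atTop _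
  obtain ⟨Y4, hY4⟩ := eventually_atTop.1 (ev1.and (ev3.and (eventually_ge_atTop 3)))
  refine ⟨max Y2 (max Y3 Y4), ?_⟩
  intro Y hY G hG hMe N ω val X₀ e hω hX₀ he hval hvW hU hrt0 hH hsum z hz1 hz2
  have hM : Mer (pr Y ε₁ υ) (tt Y) (fun p => (rt G p : ℝ) / p) ε₁ υ η :=
    fun a b h1 h2 h3 => (hMe a b h1 h2 h3).trans (min_le_left _ _)
  have hd := hY2 Y ((le_max_left _ _).trans hY) G hG
    (fun a b h1 h2 h3 => (hMe a b h1 h2 h3).trans (min_le_right _ _))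
  obtain ⟨J, hJ1, hJ2⟩ := hY3 Y (((le_max_left _ _).trans (le_max_right _ _)).trans hY)
  obtain ⟨e1, e3, e4⟩ := hY4 Y (((le_max_right _ _).trans (le_max_right _ _)).trans hY)
  have hY3' : 3 ≤ Y := by omega
  have hY2' : 2 ≤ Y := by omega
  have hYr : (3 : ℝ) ≤ Y := by exact_mod_cast hY3'
  have hY0 : (0 : ℝ) < Y := by linarith
  have hY1 : (1 : ℝ) ≤ Y := by linarith
  have hcVp : 0 ≤ 3 ^ A0 / cV := by positivity
  have hCCp : 0 ≤ CC * 5 * 3 ^ A0 / cV := by positivity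
  have hlog1 : 1 ≤ Real.log Y := by linarith
  -- the sieving limit
  have hzJ : z < 2 ^ 2 ^ J := by
    have : (z : ℝ) < 2 ^ 2 ^ J := hz1.trans_le hJ1
    exact_mod_cast this
  have hWz : W ≤ z := by
    have h2 : (W : ℝ) ≤ z := by linarith
    exact_mod_cast h2
  have hευ : ε₁ ≤ υ := hεζ.trans hζυ
  set V : ℝ := ∏ p ∈ PS W z, (1 - (2 ^ k * rt G p : ℝ) / p) with hVd
  have hPS : ∀ p ∈ PS W z, p.Prime ∧ p ≤ z ∧ ¬ p ∣ W := by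
    intro p hp
    unfold PS at hp
    rw [mem_filter, mem_Icc] at hp
    exact ⟨hp.2.1, hp.1.2, hp.2.2⟩
  have hV : cV * (1 / 2 ^ J) ^ A0 ≤ V := by
    refine hVlow J (PS W z) (fun p => (2 ^ k * rt G p : ℝ)) ?_ ?_ ?_
    · intro p hp
      obtain ⟨h1, h2, h3⟩ := hPS p hp
      exact ⟨h1, by omega⟩
    · intro p hp
      obtain ⟨h1, h2, h3⟩ := hPS p hp
      have h4 : ((rt G p : ℕ) : ℝ) ≤ g := by exact_mod_cast hG p h1
      push_cast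
      nlinarith [show (0 : ℝ) < 2 ^ k by positivity]
    · intro p hp
      obtain ⟨h1, h2, h3⟩ := hPS p hp
      have h4 : ((rt G p : ℕ) : ℝ) ≤ g := by exact_mod_cast hG p h1
      have h5 : g * 2 ^ k + 1 < p := by
        by_contra hcon
        exact h3 (hWp p h1 (by omega))
      have h6 : (g : ℝ) * 2 ^ k + 1 ≤ p := by exact_mod_cast h5.le
      have h7 : (2 ^ k : ℝ) * (rt G p : ℝ) ≤ 2 ^ k * g := by gcongr
      linarith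
  have hV0 : 0 < V := lt_of_lt_of_le (by positivity) hV
  obtain ⟨hV2, hV3⟩ := num1 Y J A0 ε₁ cV V hY3' hε11 hcV hJ2 hV (by linarith)
  have hJlog := J_log Y J ε₁ hY3' hε11 hJ2
  have hJJ : (J : ℝ) + 2 ≤ 5 * Real.log Y := by
    have h1 : (J : ℝ) ≤ 2 ^ J := by exact_mod_cast (Nat.lt_two_pow_self (n := J)).le
    linarith
  -- the level
  have hBZ : (Y : ℝ) ^ (2 * R + τ) * ((2 : ℝ) ^ 2 ^ J) ^ (C * b₀) ≤ (Y : ℝ) ^ θ := by
    have h1 : ((2 : ℝ) ^ 2 ^ J) ^ (C * b₀) ≤ (Y : ℝ) ^ ((θ - (2 * R + τ)) / 2) := by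
      calc ((2 : ℝ) ^ 2 ^ J) ^ (C * b₀) ≤ ((Y : ℝ) ^ (2 * ε₁)) ^ (C * b₀) :=
            pow_le_pow_left₀ (by positivity) hJ2 _
        _ = (Y : ℝ) ^ (2 * ε₁ * (C * b₀)) := by
            rw [← Real.rpow_natCast, ← Real.rpow_mul hY0.le]
            push_cast
            ring_nf
        _ ≤ _ := Real.rpow_le_rpow_of_exponent_le hY1 hεb
    calc (Y : ℝ) ^ (2 * R + τ) * ((2 : ℝ) ^ 2 ^ J) ^ (C * b₀) ≤
        (Y : ℝ) ^ (2 * R + τ) * (Y : ℝ) ^ ((θ - (2 * R + τ)) / 2) := by gcongr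
      _ = (Y : ℝ) ^ (2 * R + τ + (θ - (2 * R + τ)) / 2) := (Real.rpow_add hY0 _ _).symm
      _ ≤ _ := Real.rpow_le_rpow_of_exponent_le hY1 (by linarith)
  have hξ : ∀ K ∈ N, ∀ (s : Pg G Y ε₁ υ) j,
      xv (fun s : Pg G Y ε₁ υ => (s : ℕ)) (val K) s = some j ↔ (s : ℕ) ∣ val K j := by
    intro K hK s j
    obtain ⟨a1, a2, a3, a4, -⟩ := Pg_mem G Y ε₁ υ hY2' s
    refine xv_iff _ _ _ (hU K hK s a1 ?_ ((tt_lt Y s υ hY2' a1.pos).1 a4)) j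
    intro h
    have h1 : z < (s : ℕ) := by exact_mod_cast hz1.trans_le a2
    have := Nat.le_of_dvd hWpos h
    omega
  have hX : 0 ≤ X₀ * V := by positivity
  obtain ⟨cU, cL0, hc1, hc2, hc3, hc4⟩ := HL Y hY2'
  obtain ⟨hc4, -⟩ := hc4 (fun p => (rt G p : ℝ) / p) (fun p _ => by positivity) hM
  set ee : (Pg G Y ε₁ υ → Option (Fin (2 ^ k))) → ℝ := fun T =>
    ((J : ℝ) + 2) * ∑ A ∈ (PS W z).powerset.filter
        (fun A : Finset ℕ => ((∏ p ∈ A, p : ℕ) : ℝ) ≤ ((2 : ℝ) ^ 2 ^ J) ^ (C * b₀)),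
      (2 ^ k) ^ A.card * e ((∏ p ∈ A, p) * (∏ p ∈ sp G Y ε₁ υ T, p)) with hee
  have hee0 : ∀ T, 0 ≤ ee T := by
    intro T
    rw [hee]
    exact mul_nonneg (by positivity) (sum_nonneg fun A _ => mul_nonneg (by positivity) (he _))
  have hasm := asmA k (1 + aw) R f0 τ (by linarith) hR hf0 m hτ hk ε₁ hε hεe υ
    (qs G Y ε₁ υ) (mus G Y ε₁ υ) (ls G Y ε₁ υ) hd
    (fun T => cL0 (T.map (Function.Embedding.subtype _))) (fun T => (hc1 _).2)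
    (fun T hT => lz_le G Y ε₁ υ hY2' T τ (hc2 _ (by
      intro p hp
      rw [Finset.mem_map] at hp
      obtain ⟨s, _, rfl⟩ := hp
      exact (mem_filter.1 s.2).1) (Or.inr hT)))
    (N := N) (ν := nuA ω (PS W z) val)
    (ξ := fun K => xv (fun s : Pg G Y ε₁ υ => (s : ℕ)) (val K)) (X := X₀ * V) (V := ε₁ * f0)
    (E := (1 / 2 : ℝ) ^ b₀) hX
    (by
      refine hc4.trans (le_of_eq ?_)
      rw [VV_restrict (pr Y ε₁ υ) (Pg G Y ε₁ υ) (filter_subset _ _) cL0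
        (fun p => (rt G p : ℝ) / p) (fun p hp hp' => by
          have h0 : rt G p = 0 := by
            by_contra h1
            exact hp' (mem_filter.2 ⟨hp, h1⟩)
          rw [h0]
          simp)]
      refine sum_congr rfl fun T _ => ?_
      congr 1
      refine prod_congr rfl fun s _ => ?_
      unfold qs
      rw [one_div, inv_div])
    (fun s => by
      have h1 := hd.q2 s
      unfold mus
      apply one_div_le_one_div_of_le (by linarith)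
      linarith)
    (by rw [mul_comm]) (by positivity)
    (by
      have : 0 ≤ (1 / 2 : ℝ) ^ b₀ := by positivity
      linarith) ee hee0
    (fun T hT => by
      have h1 := pre_T C hC1 hfl G g hG Y ε₁ υ W z k b₀ J hY2' N ω val X₀ θ (2 * R + τ) e hω hX₀ hz1
        hευ hWz hWpos hb₀ (fun p hp hpk => hWp p hp (by omega)) hzJ hBZ hH hU T hT
      convert h1 using 2)
    (by linarith) c' hc2'
    (by
      have h1 := sumTA G Y ε₁ υ W z k hY2' e he (2 * R + τ) (((2 : ℝ) ^ 2 ^ J) ^ (C * b₀)) θ hz1 hWz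
        hWpos hBZ
      have h2 : ∑ T : Pg G Y ε₁ υ → Option (Fin (2 ^ k)), (if lt (ls G Y ε₁ υ) T ≤ 2 * R + τ then
          2 ^ sz T * ee T else 0) ≤ 2 ^ c' * ((J : ℝ) + 2) *
            ∑ T : Pg G Y ε₁ υ → Option (Fin (2 ^ k)), (if lt (ls G Y ε₁ υ) T ≤ 2 * R + τ then
            ∑ A ∈ (PS W z).powerset.filter
              (fun A : Finset ℕ => ((∏ p ∈ A, p : ℕ) : ℝ) ≤ ((2 : ℝ) ^ 2 ^ J) ^ (C * b₀)),
              (2 ^ k) ^ A.card * e ((∏ p ∈ A, p) * (∏ p ∈ sp G Y ε₁ υ T, p)) else 0) := by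
        rw [mul_sum]
        refine sum_le_sum fun T _ => ?_
        split_ifs with hT
        · have h3 := sz_lt (ls G Y ε₁ υ) ε₁ hd.l1 T
          have h4 : (sz T : ℝ) ≤ c' := by
            refine le_trans ?_ hc2'
            rw [le_div_iff₀ hε]
            linarith
          have h5 : sz T ≤ c' := by exact_mod_cast h4
          have h6 : (2 : ℝ) ^ sz T ≤ 2 ^ c' := pow_le_pow_right₀ (by norm_num) h5
          rw [hee, mul_assoc]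
          exact mul_le_mul_of_nonneg_right h6 (hee0 T)
        · rw [mul_zero]
      have h3 := h1.trans hsum
      have hlp : 0 < Real.log Y ^ (A0 + 2) := by positivity
      have hJ0' : (0 : ℝ) ≤ (J : ℝ) + 2 := by positivity
      calc (Ab k ε₁ * 2 ^ c') ^ 2 * ((1 + (1 + aw) * 2 ^ c') * 2 ^ k * (m + 1)) *
          (∑ T : Pg G Y ε₁ υ → Option (Fin (2 ^ k)), if lt (ls G Y ε₁ υ) T ≤ 2 * R + τ then
            2 ^ sz T * ee T else 0) ≤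
          (Ab k ε₁ * 2 ^ c') ^ 2 * ((1 + (1 + aw) * 2 ^ c') * 2 ^ k * (m + 1)) *
            (2 ^ c' * ((J : ℝ) + 2) * (X₀ / Real.log Y ^ (A0 + 2))) := by
            apply mul_le_mul_of_nonneg_left _ (by positivity)
            refine h2.trans ?_
            exact mul_le_mul_of_nonneg_left h3 (by positivity)
        _ = CC * (((J : ℝ) + 2) * (X₀ / Real.log Y ^ (A0 + 2))) := by rw [hCC]; ring
        _ ≤ CC * ((5 * Real.log Y) * (X₀ / Real.log Y ^ (A0 + 2))) := by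
            apply mul_le_mul_of_nonneg_left _ hCC0
            exact mul_le_mul_of_nonneg_right hJJ (by positivity)
        _ = X₀ * (CC * 5 / Real.log Y ^ (A0 + 1)) := by
            rw [pow_succ _ (A0 + 1)]
            field_simp
        _ ≤ X₀ * V := by
            apply mul_le_mul_of_nonneg_left _ hX₀
            refine le_trans ?_ hV2
            have h7 : CC * 5 * 3 ^ A0 / cV ≤ Real.log Y := by linarith
            rw [div_le_div_iff₀ (by positivity) (by positivity), mul_pow, pow_succ]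
            rw [div_le_iff₀ hcV] at h7
            have h8 : 0 ≤ Real.log Y ^ A0 := by positivity
            have h9 := mul_le_mul_of_nonneg_right h7 h8
            nlinarith)
    (fun K hK => by
      unfold nuA
      split_ifs
      · exact hω K hK
      · exact le_rfl)
    (fun K i => WB Y ε₁ ζ υ aw bw (val K i))
    (fun K hK _ i => by
      have h1 := slot_v G Y ε₁ υ hY2' cL0 (val K i) (fun p hp h0 =>
        hrt0 K hK p (pr_mem Y p ε₁ υ hY2' hp).1 h0 i) i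
        (xv (fun s : Pg G Y ε₁ υ => (s : ℕ)) (val K)) (fun s => hξ K hK s i)
      have h2 := (hc3 (val K i)).1
      refine le_trans (le_of_eq ?_) h2
      refine Eq.trans ?_ h1
      refine sum_congr rfl fun T _ => ?_
      congr)
    (fun K hK _ i hw s hs => by
      have h1 := (hξ K hK s i).1 hs
      have h2 := WB_ne Y ε₁ ζ υ aw bw _ hw (s : ℕ) ((mem_filter.1 s.2).1) h1
      show R < tt Y (s : ℕ)
      linarith)
  have hB0 : 0 < (Ab k ε₁ * 2 ^ c') ^ 2 := by positivity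
  have hup := sum_le_sum (s := N) fun K hK =>
    pt_A Y ε₁ ζ υ aw bw ((Ab k ε₁ * 2 ^ c') ^ 2)
      (Lam none (qs G Y ε₁ υ) (mus G Y ε₁ υ) (yf (ls G Y ε₁ υ) R k)
        (xv (fun s : Pg G Y ε₁ υ => (s : ℕ)) (val K)) ^ 2) W z k m hY2' hb hab N ω val hz2 K hK
      (hω K hK) (hvW K hK) (sq_nonneg _)
      (Lam_fin' k R hR ε₁ hε υ hευ (qs G Y ε₁ υ) (mus G Y ε₁ υ)
        (ls G Y ε₁ υ) _ hd none _ c' (few_v G D k c' Y ε₁ υ hε hY2' (val K) (hval K hK) hc1' _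
          (fun s j => hξ K hK s j)))
  have hsum' : ∑ K ∈ N, (if K ∈ gdA Y ε₁ ζ υ aw bw m N val then
      ω K * ((Ab k ε₁ * 2 ^ c') ^ 2 * 2 ^ k) else 0) =
      (∑ K ∈ gdA Y ε₁ ζ υ aw bw m N val, ω K) * ((Ab k ε₁ * 2 ^ c') ^ 2 * 2 ^ k) := by
    rw [← sum_filter, ← sum_mul]
    congr 1
    apply sum_congr _ fun _ _ => rfl
    ext K
    rw [mem_filter]
    constructor
    · exact fun h => h.2
    · intro h
      refine ⟨?_, h⟩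
      unfold gdA at h
      exact (mem_filter.1 h).1
  rw [hsum'] at hup
  have h1 := hasm.trans hup
  refine ⟨?_, hV0, hV3⟩
  rw [div_mul_eq_mul_div, div_le_iff₀ (by positivity), one_mul]
  calc X₀ * V ≤ (∑ K ∈ gdA Y ε₁ ζ υ aw bw m N val, ω K) *
        ((Ab k ε₁ * 2 ^ c') ^ 2 * 2 ^ k) := h1
    _ = _ := by ring

end Pool.Agent.K3h21.AV
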