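import Pool.Agent.R498.MT.Slot

set_option autoImplicit false
set_option linter.unusedSectionVars false

/-! Correcting the counts of the patterns by a small signed measure. -/

namespace Pool.Agent.K3h21.AV

open Finset
open Pool.Agent.R498.MT

section base
variable {S J : Type} [Fintype S] [DecidableEq S] [Fintype J] [DecidableEq J]

/-- the number of the coloured elements -/
def sz (T : S → Option J) : ℕ := (univ.filter (fun t => T t ≠ none)).card

/-- the local Möbius function -/
def sg : Option J → Option J → ℝ
  | none, some _ => -1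
  | _, _ => 1

omit [Fintype J] in
theorem sg_abs (a b : Option J) : |sg a b| = 1 := by
  rcases a with _ | a <;> rcases b with _ | b <;> simp [sg]

/-- the Möbius inverse -/
noncomputable def rho (Good : (S → Option J) → Prop) [DecidablePred Good] (e : (S → Option J) → ℝ)
    (U : S → Option J) : ℝ :=
  ∑ V, if Good V ∧ Sub U V then (∏ t, sg (U t) (V t)) * e V else 0

theorem local_inv (a c : Option J) :
    ∑ v : Option J, (if a = none ∨ a = v then (1 : ℝ) else 0) * (if v = none ∨ v = c then 1 else 0) *
      sg v c = if a = c then 1 else 0 := by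
  rw [Fintype.sum_option]
  rcases c with _ | c
  · rcases a with _ | a
    · simp [sg]
    · simp
  · rcases a with _ | a
    · simp only [true_or, if_true, one_mul, reduceCtorEq, if_false, false_or, Option.some.injEq, sg]
      rw [sum_eq_single c]
      · simp
      · intro b _ hb
        rw [if_neg hb, zero_mul]
      · intro h
        exact absurd (mem_univ c) h
    · simp only [reduceCtorEq, false_or, if_false, zero_mul, true_or, if_true, Option.some.injEq, zero_add,
        sg, mul_one]
      by_cases hac : a = c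
      · subst hac
        rw [if_pos rfl, sum_eq_single a]
        · simp
        · intro b _ hb
          rw [if_neg (fun h => hb h.symm), zero_mul]
        · intro h
          exact absurd (mem_univ a) h
      · rw [if_neg hac]
        apply sum_eq_zero
        intro b _
        by_cases h1 : a = b
        · subst h1
          rw [if_neg hac, mul_zero]
        · rw [if_neg h1, zero_mul]

theorem sub_prod (T U : S → Option J) :
    (if Sub T U then (1 : ℝ) else 0) = ∏ t, (if T t = none ∨ T t = U t then (1 : ℝ) else 0) := by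
  rw [Finset.prod_ite_zero]
  simp [Pool.Agent.R498.MT.Sub]

/-- Möbius inversion -/
theorem rho_inv (Good : (S → Option J) → Prop) [DecidablePred Good] (e : (S → Option J) → ℝ)
    (T : S → Option J) (hT : Good T) :
    ∑ U, rho Good e U * (if Sub T U then 1 else 0) = e T := by
  have h1 : ∑ U, rho Good e U * (if Sub T U then 1 else 0) =
      ∑ V : S → Option J, if Good V then e V * ∑ U : S → Option J,
        (∏ t, ((if T t = none ∨ T t = U t then (1 : ℝ) else 0) *
        (if U t = none ∨ U t = V t then 1 else 0) * sg (U t) (V t))) else 0 := by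
    unfold rho
    simp_rw [sum_mul]
    rw [sum_comm]
    refine sum_congr rfl fun V _ => ?_
    by_cases hV : Good V
    · rw [if_pos hV, mul_sum]
      refine sum_congr rfl fun U _ => ?_
      rw [prod_mul_distrib, prod_mul_distrib, ← sub_prod, ← sub_prod]
      by_cases hU : Sub U V
      · rw [if_pos ⟨hV, hU⟩, if_pos hU]
        ring
      · rw [if_neg (fun h => hU h.2), if_neg hU]
        ring
    · rw [if_neg hV]
      apply sum_eq_zero
      intro U _
      rw [if_neg (fun h => hV h.1), zero_mul]
  rw [h1]
  have h2 : ∀ V : S → Option J, ∑ U : S → Option J, (∏ t, ((if T t = none ∨ T t = U t then (1 : ℝ) else 0) *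
        (if U t = none ∨ U t = V t then 1 else 0) * sg (U t) (V t))) = if T = V then 1 else 0 := by
    intro V
    rw [sum_prod (fun t v => (if T t = none ∨ T t = v then (1 : ℝ) else 0) *
        (if v = none ∨ v = V t then 1 else 0) * sg v (V t))]
    simp_rw [local_inv]
    rw [Finset.prod_ite_zero]
    simp [funext_iff]
  simp_rw [h2]
  rw [sum_eq_single T]
  · rw [if_pos hT, if_pos rfl, mul_one]
  · intro V _ hV
    have h3 : ¬ T = V := fun h => hV h.symm
    simp [h3]
  · intro h
    exact absurd (mem_univ T) h

theorem sub_count (V : S → Option J) : ∑ U, (if Sub U V then (1 : ℝ) else 0) = 2 ^ sz V := by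
  simp_rw [sub_prod]
  rw [sum_prod (fun t v => if v = none ∨ v = V t then (1 : ℝ) else 0)]
  have h1 : (2 : ℝ) ^ sz V = ∏ t, (if V t ≠ none then (2 : ℝ) else 1) := by
    unfold sz
    rw [prod_ite]
    simp
  rw [h1]
  refine prod_congr rfl fun t _ => ?_
  rw [Fintype.sum_option]
  rcases V t with _ | j
  · simp
  · simp only [true_or, if_true, reduceCtorEq, false_or, Option.some.injEq, ne_eq, not_false_eq_true]
    rw [sum_ite_eq' univ j]
    simp
    norm_num

/-- the total mass of the correction -/
theorem rho_bd (Good : (S → Option J) → Prop) [DecidablePred Good] (e : (S → Option J) → ℝ)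
    (g : (S → Option J) → ℝ) (B : ℝ)
    (hg : ∀ V, Good V → ∀ U, Sub U V → |g U| ≤ B) :
    |∑ U, rho Good e U * g U| ≤ B * ∑ V, if Good V then 2 ^ sz V * |e V| else 0 := by
  have h1 : |∑ U, rho Good e U * g U| ≤ ∑ U, ∑ V, if Good V then (if Sub U V then (1 : ℝ) else 0) * (B * |e V|) else 0 := by
    refine (abs_sum_le_sum_abs _ _).trans (sum_le_sum fun U _ => ?_)
    rw [abs_mul]
    unfold rho
    refine (mul_le_mul_of_nonneg_right (abs_sum_le_sum_abs _ _) (abs_nonneg _)).trans ?_
    rw [sum_mul]
    refine sum_le_sum fun V _ => ?_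
    by_cases hV : Good V
    · rw [if_pos hV]
      by_cases hU : Sub U V
      · rw [if_pos ⟨hV, hU⟩, if_pos hU, abs_mul, abs_prod, one_mul]
        rw [prod_congr rfl (fun t _ => sg_abs (U t) (V t)), prod_const_one, one_mul, mul_comm]
        exact mul_le_mul_of_nonneg_right (hg V hV U hU) (abs_nonneg _)
      · rw [if_neg (fun h => hU h.2), if_neg hU, abs_zero, zero_mul, zero_mul]
    · rw [if_neg hV, if_neg (fun h => hV h.1), abs_zero, zero_mul]
  refine h1.trans (le_of_eq ?_)
  rw [sum_comm, mul_sum]
  refine sum_congr rfl fun V _ => ?_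
  by_cases hV : Good V
  · simp only [if_pos hV]
    rw [← sum_mul, sub_count]
    ring
  · simp only [if_neg hV, sum_const_zero, mul_zero]

/-- adding a signed measure on the patterns to a weighted family -/
theorem ext_fam (N : Finset ℕ) (ν : ℕ → ℝ) (ξ : ℕ → S → Option J) (r : (S → Option J) → ℝ) :
    ∃ (N' : Finset ℕ) (ν' : ℕ → ℝ) (ξ' : ℕ → S → Option J), ∀ f : (S → Option J) → ℝ,
      ∑ n ∈ N', ν' n * f (ξ' n) = ∑ n ∈ N, ν n * f (ξ n) + ∑ U, r U * f U := by
  classical
  obtain ⟨M, hM⟩ : ∃ M : ℕ, ∀ n ∈ N, n < M := ⟨N.sup id + 1, fun n hn => by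
    have := Finset.le_sup (f := id) hn
    simp only [id] at this
    omega⟩
  set E := Fintype.equivFin (S → Option J) with hE
  refine ⟨N ∪ univ.image (fun U => M + (E U : ℕ)), fun n => if n < M then ν n else
    if h : n - M < Fintype.card (S → Option J) then r (E.symm ⟨n - M, h⟩) else 0,
    fun n => if n < M then ξ n else if h : n - M < Fintype.card (S → Option J) then
      E.symm ⟨n - M, h⟩ else fun _ => none, fun f => ?_⟩
  rw [sum_union]
  · congr 1
    · refine sum_congr rfl fun n hn => ?_
      simp only [if_pos (hM n hn)]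
    · rw [sum_image]
      · refine sum_congr rfl fun U _ => ?_
        have h1 : ¬ M + (E U : ℕ) < M := by omega
        have h2 : M + (E U : ℕ) - M < Fintype.card (S → Option J) := by
          have := (E U).2
          omega
        simp only [if_neg h1, dif_pos h2]
        have h3 : (⟨M + (E U : ℕ) - M, h2⟩ : Fin (Fintype.card (S → Option J))) = E U := by
          apply Fin.ext
          simp
        rw [h3, Equiv.symm_apply_apply]
      · intro U _ V _ h
        have h1 : (E U : ℕ) = E V := by simpa using h
        exact E.injective (Fin.ext h1)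
  · rw [disjoint_left]
    intro n hn hn'
    rw [mem_image] at hn'
    obtain ⟨U, _, rfl⟩ := hn'
    have := hM _ hn
    omega

/-- clipping -/
theorem clip (δ a e : ℝ) (ha : 0 ≤ a) (he : 0 ≤ e) (h : |δ| ≤ a + e) :
    ∃ c : ℝ, |c| ≤ e ∧ |δ - c| ≤ a := by
  rw [abs_le] at h
  rcases le_or_gt δ (-a) with h1 | h1
  · refine ⟨δ + a, ?_, ?_⟩
    · rw [abs_le]; constructor <;> linarith
    · rw [abs_le]; constructor <;> linarith
  · rcases le_or_gt a δ with h2 | h2
    · refine ⟨δ - a, ?_, ?_⟩
      · rw [abs_le]; constructor <;> linarith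
      · rw [abs_le]; constructor <;> linarith
    · refine ⟨0, ?_, ?_⟩
      · rw [abs_zero]; exact he
      · rw [abs_le]; constructor <;> linarith

/-- **A family with the counts up to additive errors becomes, after adding a small signed measure, a family with
the counts up to relative errors.** -/
theorem to_cnt {N : Finset ℕ} {ν : ℕ → ℝ} {ξ : ℕ → S → Option J} {r : S → J → ℝ} {X E : ℝ}
    (hX : 0 ≤ X) (hE : 0 ≤ E) (hr : ∀ t j, 0 ≤ r t j)
    (Good : (S → Option J) → Prop) (e : (S → Option J) → ℝ) (he : ∀ T, 0 ≤ e T)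
    (h : ∀ T, Good T → |∑ n ∈ N, ν n * (if Sub T (ξ n) then 1 else 0) - X * ∏ t, rr (r t) (T t)| ≤
      E * X * ∏ t, rr (r t) (T t) + e T) :
    ∃ (N' : Finset ℕ) (ν' : ℕ → ℝ) (ξ' : ℕ → S → Option J), Cnt N' ν' ξ' r X E Good ∧
      ∀ (f : (S → Option J) → ℝ) (B err : ℝ), 0 ≤ B → (∀ V, Good V → ∀ U, Sub U V → |f U| ≤ B) →
        (∑ V, (open Classical in if Good V then 2 ^ sz V * e V else 0)) ≤ err →
        |∑ n ∈ N', ν' n * f (ξ' n) - ∑ n ∈ N, ν n * f (ξ n)| ≤ B * err := by
  classical
  have hrr : ∀ T : S → Option J, 0 ≤ ∏ t, rr (r t) (T t) := fun T => prod_nonneg fun t _ => by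
    rcases T t with _ | j
    · simp [rr]
    · simp only [rr]; exact hr t j
  have h1 : ∀ T, Good T → ∃ c : ℝ, |c| ≤ e T ∧
      |(∑ n ∈ N, ν n * (if Sub T (ξ n) then 1 else 0) - X * ∏ t, rr (r t) (T t)) - c| ≤
        E * X * ∏ t, rr (r t) (T t) := fun T hT =>
    clip _ _ _ (mul_nonneg (mul_nonneg hE hX) (hrr T)) (he T) (h T hT)
  choose! c hc1 hc2 using h1
  obtain ⟨N', ν', ξ', hext⟩ := ext_fam N ν ξ (fun U => - rho Good c U)
  refine ⟨N', ν', ξ', ?_, ?_⟩
  · intro T hT
    have h3 := hext (fun U => if Sub T U then 1 else 0)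
    beta_reduce at h3
    have h4 := rho_inv Good c T hT
    have h5 : ∑ U, -rho Good c U * (if Sub T U then (1 : ℝ) else 0) = - c T := by
      rw [← h4, ← sum_neg_distrib]
      refine sum_congr rfl fun U _ => ?_
      ring
    rw [h5] at h3
    rw [h3]
    have h6 := hc2 T hT
    refine le_trans (le_of_eq ?_) h6
    congr 1
    ring
  · intro f B err hB hf herr
    rw [hext f, add_sub_cancel_left]
    have h3 := rho_bd Good c f B hf
    have h4 : ∑ U, -rho Good c U * f U = - ∑ U, rho Good c U * f U := by
      rw [← sum_neg_distrib]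
      refine sum_congr rfl fun U _ => ?_
      ring
    rw [h4, abs_neg]
    refine h3.trans (mul_le_mul_of_nonneg_left (le_trans (sum_le_sum fun V _ => ?_) herr) hB)
    by_cases hV : Good V
    · rw [if_pos hV, if_pos hV]
      exact mul_le_mul_of_nonneg_left (hc1 V hV) (by positivity)
    · rw [if_neg hV, if_neg hV]

end base

end Pool.Agent.K3h21.AV
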