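import Pool.Agent.K3h21.AV.CoreA


set_option autoImplicit false
set_option linter.unusedSectionVars false
set_option linter.unusedVariables false

/-! Clusters of almost primes in abstract families with a level of distribution in the mean, densities of polynomials. -/

namespace Pool.Agent.K3h21.AV

open Finset Filter
open Pool.Agent.Y677.RSZ (rt Sys)
open Pool.Agent.TH423.SH (PS)
open Pool.Agent.W23.DC
open Pool.Agent.Y882
open Pool.Agent.Y882.PX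
open Pool.Agent.Y882.KW
open Pool.Agent.R498.MT

/-- at most `r` prime factors, all at least `w` -/
def AP (r : ℕ) (w : ℝ) (n : ℕ) : Prop :=
  n.primeFactorsList.length ≤ r ∧ ∀ p : ℕ, p.Prime → p ∣ n → w ≤ p

open Classical in
/-- the members with a value divisible by the square of a medium prime -/
noncomputable def sqb (w w' : ℝ) {n : ℕ} (N : Finset ℕ) (val : ℕ → Fin n → ℕ) : Finset ℕ :=
  N.filter (fun K => ∃ i, ∃ q : ℕ, q.Prime ∧ w ≤ q ∧ (q : ℝ) < w' ∧ q ^ 2 ∣ val K i)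

open Classical in
/-- the members with at least `m` almost primes -/
noncomputable def gda (r m : ℕ) (w w' : ℝ) {n : ℕ} (N : Finset ℕ) (val : ℕ → Fin n → ℕ) : Finset ℕ :=
  N.filter (fun K => (∃ H : Finset (Fin n), H.card = m ∧ ∀ i ∈ H, AP r w (val K i)) ∧
    ∀ i, ∀ p : ℕ, p.Prime → p ∣ val K i → w' ≤ p)

open Classical in
/-- **Clusters of almost primes in the mean.** -/
theorem finG (g D r : ℕ) (τ θ B : ℝ) (hτ0 : 0 < τ) (hτθ : τ < θ) (hτ1 : τ ≤ 1) (hBD : B ≤ 2 * D)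
    (hr : 9 / 8 + B / (24 / 25 * τ) ≤ r + 1) (m : ℕ) :
    ∃ (k A₁ A : ℕ) (δ : ℝ), g * 2 ^ k + 1 ≤ A₁ ∧ 0 < δ ∧ ∀ W : ℕ, 0 < W →
      (∀ p : ℕ, p.Prime → p ≤ A₁ → p ∣ W) → ∃ η : ℝ, 0 < η ∧ ∃ Y₀ : ℕ, ∀ Y : ℕ, Y₀ ≤ Y →
      ∀ G : ℤ → ℤ, (∀ p : ℕ, p.Prime → rt G p ≤ g) →
        Mer (pr Y δ (24 / 25 * τ)) (tt Y) (fun p => (rt G p : ℝ) / p) δ (24 / 25 * τ) η →
      ∀ (N : Finset ℕ) (ω : ℕ → ℝ) (val : ℕ → Fin (2 ^ k) → ℕ) (X₀ : ℝ) (e : ℕ → ℝ),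
        (∀ K ∈ N, 0 ≤ ω K) → 0 ≤ X₀ → (∀ d, 0 ≤ e d) →
        (∀ K ∈ N, ∀ i, val K i ≠ 0 ∧ (val K i : ℝ) ≤ (Y : ℝ) ^ B) →
        (∀ K ∈ N, ∀ p : ℕ, p.Prime → p ∣ W → ∀ i, ¬ p ∣ val K i) →
        (∀ K ∈ N, ∀ p : ℕ, p.Prime → ¬ p ∣ W → (p : ℝ) < (Y : ℝ) ^ τ → ∀ i j,
          p ∣ val K i → p ∣ val K j → i = j) →
        (∀ K ∈ N, ∀ p : ℕ, p.Prime → rt G p = 0 → ∀ i, ¬ p ∣ val K i) →
        (∀ d : ℕ, d ∈ dd W Y θ → ∀ σ : ℕ → Fin (2 ^ k),
          |∑ K ∈ N, ω K * (if ∀ p ∈ d.primeFactors, p ∣ val K (σ p) then 1 else 0) -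
            X₀ * ∏ p ∈ d.primeFactors, ((rt G p : ℝ) / p)| ≤ e d) →
        ∑ d ∈ dd W Y θ, (2 ^ k) ^ d.primeFactors.card * e d ≤ X₀ / Real.log Y ^ A →
        ∑ K ∈ sqb ((Y : ℝ) ^ (τ / 4)) ((Y : ℝ) ^ τ) N val, ω K ≤ X₀ / Real.log Y ^ A →
        X₀ / Real.log Y ^ A ≤ ∑ K ∈ gda r m ((Y : ℝ) ^ (τ / 4)) ((Y : ℝ) ^ δ) N val, ω K := by
  set υ : ℝ := 24 / 25 * τ with hυ
  have hυ0 : 0 < υ := by rw [hυ]; positivity
  have hcond : ∫ x in (τ / 4)..υ, ((8 / 9 : ℝ) - (8 / 9) / υ * x) / (τ - x) / x <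
      Real.log (τ / (τ / 4) - 1) / τ := cond_A τ (8 / 9) hτ0 (by norm_num) (by norm_num)
  obtain ⟨R, hR0, hR1, hR2⟩ : ∃ R : ℝ, 0 < R ∧ R < τ / 4 ∧ 2 * R + τ < θ := by
    refine ⟨min (τ / 8) ((θ - τ) / 8), lt_min (by linarith) (by linarith), ?_, ?_⟩
    · exact (min_le_left _ _).trans_lt (by linarith)
    · have := min_le_right (τ / 8) ((θ - τ) / 8)
      linarith
  obtain ⟨k, A₁, hA₁, ε₁, c, η, hε, hεζ, hc, hη, hcore⟩ :=
    coreA g D m τ (τ / 4) υ (8 / 9)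
      ((8 / 9) / υ) θ R (by linarith) (by linarith) (by linarith) (by linarith) (by rw [hυ]; linarith)
      (by rw [hυ]; linarith) (by norm_num) (by positivity)
      (by rw [div_mul_cancel₀ _ hυ0.ne']) hcond hR0 hR1 hR2
  refine ⟨k, A₁, 2 * (g * 2 ^ k) + 2, ε₁, hA₁, hε, fun W hW hWp => ⟨η, hη, ?_⟩⟩
  obtain ⟨Y₀, hcore⟩ := hcore W hW hWp
  have ev1 : ∀ᶠ Y : ℕ in atTop, 2 / c + 1 ≤ Real.log (Y : ℝ) :=
    (Real.tendsto_log_atTop.comp tendsto_natCast_atTop_atTop).eventually_ge_atTop _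
  obtain ⟨Y₂, hY₂⟩ := eventually_atTop.1 (ev1.and (eventually_ge_atTop 3))
  refine ⟨max Y₀ Y₂, ?_⟩
  intro Y hY G hG hMe N ω val X₀ e hω hX₀ he hval hvW hU hrt0 hH hsum hsq
  obtain ⟨e1, e2⟩ := hY₂ Y ((le_max_right _ _).trans hY)
  have hYr : (3 : ℝ) ≤ Y := by exact_mod_cast e2
  have hY0 : (0 : ℝ) < Y := by linarith
  have hY1 : (1 : ℝ) ≤ Y := by linarith
  have hlog : 0 < Real.log Y := Real.log_pos (by linarith)
  obtain ⟨z, hz⟩ : ∃ z : ℕ, z + 1 = ⌈(Y : ℝ) ^ ε₁⌉₊ := by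
    have : 1 ≤ ⌈(Y : ℝ) ^ ε₁⌉₊ := Nat.ceil_pos.2 (by positivity)
    exact ⟨⌈(Y : ℝ) ^ ε₁⌉₊ - 1, by omega⟩
  have hz1 : (z : ℝ) < (Y : ℝ) ^ ε₁ := by
    have h1 := Nat.ceil_lt_add_one (show 0 ≤ (Y : ℝ) ^ ε₁ by positivity)
    rw [← hz] at h1
    push_cast at h1
    linarith
  have hz2 : (Y : ℝ) ^ ε₁ ≤ z + 1 := by
    have h1 := Nat.le_ceil ((Y : ℝ) ^ ε₁)
    rw [← hz] at h1
    push_cast at h1
    exact h1
  have hυτ : (Y : ℝ) ^ υ ≤ (Y : ℝ) ^ τ :=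
    Real.rpow_le_rpow_of_exponent_le hY1 (by rw [hυ]; linarith)
  obtain ⟨h1, h2, h3⟩ := hcore Y ((le_max_left _ _).trans hY) G hG hMe N ω val X₀ e hω hX₀ he
    (fun K hK i => by
      obtain ⟨a1, a2⟩ := hval K hK i
      exact ⟨a1, a2.trans (Real.rpow_le_rpow_of_exponent_le hY1 hBD)⟩)
    hvW (fun K hK p hp hpW hpY => hU K hK p hp hpW (hpY.trans_le hυτ))
    hrt0
    (fun S hS hSY σ => by
      have hSp : ∀ p ∈ S, p.Prime := fun p hp => (hS p hp).1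
      have hpf : (∏ p ∈ S, p).primeFactors = S := Nat.primeFactors_prod hSp
      have hmem : (∏ p ∈ S, p) ∈ dd W Y θ := by
        unfold dd
        rw [mem_filter, mem_Icc]
        refine ⟨⟨prod_pos fun p hp => (hSp p hp).pos, Nat.le_floor hSY⟩, ?_, ?_⟩
        · apply Finset.squarefree_prod_of_pairwise_isCoprime
          · intro a ha b hb hab
            exact Nat.coprime_iff_isRelPrime.1 ((Nat.coprime_primes (hSp a ha) (hSp b hb)).2 hab)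
          · intro p hp
            exact (hSp p hp).prime.squarefree
        · apply Nat.Coprime.prod_left
          intro p hp
          exact ((hSp p hp).coprime_iff_not_dvd).2 (hS p hp).2.1
      have h4 := hH _ hmem σ
      rw [hpf] at h4
      convert h4 using 6)
    hsum z hz1 hz2
  -- the squares
  have hgd : ∑ K ∈ gdA Y ε₁ (τ / 4) υ (8 / 9) ((8 / 9) / υ) m N val, ω K ≤
      ∑ K ∈ sqb ((Y : ℝ) ^ (τ / 4)) ((Y : ℝ) ^ τ) N val, ω K +
        ∑ K ∈ gda r m ((Y : ℝ) ^ (τ / 4)) ((Y : ℝ) ^ ε₁) N val, ω K := by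
    have hsub : gdA Y ε₁ (τ / 4) υ (8 / 9) ((8 / 9) / υ) m N val ⊆
        sqb ((Y : ℝ) ^ (τ / 4)) ((Y : ℝ) ^ τ) N val ∪ gda r m ((Y : ℝ) ^ (τ / 4)) ((Y : ℝ) ^ ε₁) N val := by
      intro K hK
      unfold gdA at hK
      rw [mem_filter] at hK
      obtain ⟨hKN, hsm, hcard⟩ := hK
      rw [mem_union]
      by_cases hs : ∃ i, ∃ q : ℕ, q.Prime ∧ (Y : ℝ) ^ (τ / 4) ≤ q ∧ (q : ℝ) < (Y : ℝ) ^ τ ∧ q ^ 2 ∣ val K i
      · left
        unfold sqb
        exact mem_filter.2 ⟨hKN, hs⟩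
      · right
        unfold gda
        refine mem_filter.2 ⟨hKN, ?_, fun i p hp hpd => ?_⟩
        · obtain ⟨H, hH1, hH2⟩ := exists_subset_card_eq hcard.le
          refine ⟨H, hH2, fun i hi => ?_⟩
          have hw := (mem_filter.1 (hH1 hi)).2
          obtain ⟨a1, a2⟩ := hval K hKN i
          exact almost Y (by omega) (τ / 4) υ (8 / 9) B r (by rw [hυ]; linarith)
            hυ0 (by rw [hυ]; linarith) (by norm_num)
            (by
              have h2 : (1 : ℝ) / (8 / 9) = 9 / 8 := by norm_num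
              rw [h2]
              exact hr) (val K i) a1 a2 hw (fun q hq hqd => by
                obtain ⟨b1, b2, b3⟩ := pr_mem Y q (τ / 4) υ (by omega) hq
                exact hs ⟨i, q, b1, b2, b3.trans_le hυτ, hqd⟩)
        · by_contra hcon
          push Not at hcon
          exact hsm p hp hcon i hpd
    calc ∑ K ∈ gdA Y ε₁ (τ / 4) υ (8 / 9) ((8 / 9) / υ) m N val, ω K ≤
        ∑ K ∈ sqb ((Y : ℝ) ^ (τ / 4)) ((Y : ℝ) ^ τ) N val ∪
          gda r m ((Y : ℝ) ^ (τ / 4)) ((Y : ℝ) ^ ε₁) N val, ω K := by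
          apply sum_le_sum_of_subset_of_nonneg hsub
          intro K hK _
          rw [mem_union] at hK
          rcases hK with h | h
          · exact hω K (mem_filter.1 h).1
          · exact hω K (mem_filter.1 h).1
      _ ≤ _ := by
          rw [← sum_union_inter]
          have : 0 ≤ ∑ K ∈ sqb ((Y : ℝ) ^ (τ / 4)) ((Y : ℝ) ^ τ) N val ∩
              gda r m ((Y : ℝ) ^ (τ / 4)) ((Y : ℝ) ^ ε₁) N val, ω K := by
            apply sum_nonneg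
            intro K hK
            exact hω K (mem_filter.1 (mem_inter.1 hK).1).1
          linarith
  set V : ℝ := ∏ p ∈ PS W z, (1 - (2 ^ k * rt G p : ℝ) / p) with hV
  have h4 : 2 * (X₀ / Real.log Y ^ (2 * (g * 2 ^ k) + 2)) ≤ c * (X₀ * V) := by
    have h5 : 1 / Real.log Y ^ (2 * (g * 2 ^ k) + 1) ≤ V := by
      rw [div_le_iff₀ (by positivity), mul_comm]
      exact h3
    have h6 : 2 / c ≤ Real.log Y := by linarith
    rw [div_le_iff₀ hc] at h6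
    calc 2 * (X₀ / Real.log Y ^ (2 * (g * 2 ^ k) + 2)) =
        (2 / Real.log Y) * (X₀ * (1 / Real.log Y ^ (2 * (g * 2 ^ k) + 1))) := by
          rw [pow_succ _ (2 * (g * 2 ^ k) + 1)]
          field_simp
      _ ≤ c * (X₀ * V) := by
          apply mul_le_mul _ _ (by positivity) hc.le
          · rw [div_le_iff₀ hlog]
            linarith
          · exact mul_le_mul_of_nonneg_left h5 hX₀
  linarith

end Pool.Agent.K3h21.AV
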