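import Pool.Agent.K3h21.AV.AsmA
import Pool.Agent.K3h21.LN.CoreU
import Pool.Agent.TH423.SH.FLLP

set_option autoImplicit false
set_option linter.unusedSectionVars false
set_option linter.unusedVariables false

/-! Abstract data: colours, values, the presieve with remainders on average. -/

namespace Pool.Agent.K3h21.AV

open Finset Filter
open Pool.Agent.Y677.RSZ (rt Sys)
open Pool.Agent.TH423.SH (PS)
open Pool.Agent.W23.DC
open Pool.Agent.Y882
open Pool.Agent.Y882.PX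
open Pool.Agent.Y882.KW
open Pool.Agent.R498.MT

open Classical in
/-- the colour of a sieving prime -/
noncomputable def xv {S : Type} (pp : S → ℕ) {m : ℕ} (v : Fin m → ℕ) (s : S) : Option (Fin m) :=
  if h : ∃ j, pp s ∣ v j then some h.choose else none

theorem xv_iff {S : Type} (pp : S → ℕ) {m : ℕ} (v : Fin m → ℕ) (s : S)
    (hU : ∀ i j, pp s ∣ v i → pp s ∣ v j → i = j) (j : Fin m) :
    xv pp v s = some j ↔ pp s ∣ v j := by
  unfold xv
  split_ifs with h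
  · rw [Option.some.injEq]
    constructor
    · rintro rfl
      exact h.choose_spec
    · intro h1
      exact hU _ _ h.choose_spec h1
  · simp only [reduceCtorEq, false_iff]
    intro h1
    exact h ⟨j, h1⟩

open Classical in
/-- the weights of one slot -/
theorem slot_v (G : ℤ → ℤ) (Y : ℕ) (ε₁ υ : ℝ) (hY : 2 ≤ Y) (cL0 : Finset ℕ → ℝ) (v : ℕ)
    (hv : ∀ p ∈ pr Y ε₁ υ, rt G p = 0 → ¬ p ∣ v) {m : ℕ} (i : Fin m)
    (ξ : Pg G Y ε₁ υ → Option (Fin m)) (hξ : ∀ s, ξ s = some i ↔ (s : ℕ) ∣ v) :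
    ∑ T : Finset (Pg G Y ε₁ υ), cL0 (T.map (Function.Embedding.subtype _)) *
      (if ∀ t ∈ T, ξ t = some i then 1 else 0) =
    VV (pr Y ε₁ υ) cL0 (fun p => if p ∣ v then 1 else 0) := by
  have hPP : Pg G Y ε₁ υ ⊆ pr Y ε₁ υ := filter_subset _ _
  rw [VV_restrict (pr Y ε₁ υ) (Pg G Y ε₁ υ) hPP cL0
    (fun p => if p ∣ v then 1 else 0) (fun p hp hp' => by
      rw [if_neg]
      intro h
      have h0 : rt G p = 0 := by
        by_contra h1
        exact hp' (mem_filter.2 ⟨hp, h1⟩)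
      exact hv p hp h0 h)]
  refine sum_congr rfl fun T _ => ?_
  congr 1
  rw [Finset.prod_ite_zero]
  simp only [prod_const_one]
  apply if_congr _ rfl rfl
  refine forall₂_congr fun s _ => ?_
  rw [hξ s]

open Classical in
/-- the number of the coloured primes -/
theorem few_v (G : ℤ → ℤ) (D : ℕ) (k c' Y : ℕ) (ε₁ υ : ℝ) (hε : 0 < ε₁) (hY2' : 2 ≤ Y)
    (v : Fin (2 ^ k) → ℕ) (hv : ∀ i, v i ≠ 0 ∧ (v i : ℝ) ≤ (Y : ℝ) ^ (2 * D : ℝ))
    (hc' : ((2 ^ k : ℕ) : ℝ) * (2 * D / ε₁) ≤ c')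
    (ξ : Pg G Y ε₁ υ → Option (Fin (2 ^ k))) (hξ : ∀ s j, ξ s = some j ↔ (s : ℕ) ∣ v j) :
    sz ξ ≤ c' := by
  have h3 : univ.filter (fun s => ξ s ≠ none) ⊆ univ.biUnion (fun i : Fin (2 ^ k) =>
      univ.filter (fun s : Pg G Y ε₁ υ => ((s : ℕ) : ℤ) ∣ (v i : ℤ))) := by
    intro s hs
    rw [mem_filter] at hs
    rw [mem_biUnion]
    rcases h4 : ξ s with _ | i
    · exact absurd h4 hs.2
    · exact ⟨i, mem_univ i, mem_filter.2 ⟨mem_univ s, by exact_mod_cast (hξ s i).1 h4⟩⟩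
  have h4 := (card_le_card h3).trans card_biUnion_le
  have h5 : ∀ i : Fin (2 ^ k), ((univ.filter (fun s : Pg G Y ε₁ υ =>
      ((s : ℕ) : ℤ) ∣ (v i : ℤ))).card : ℝ) ≤ 2 * D / ε₁ := by
    intro i
    exact few_t G Y ε₁ υ hY2' hε _ (by exact_mod_cast (hv i).1) _ (by
      rw [Int.natAbs_natCast]
      exact (hv i).2)
  have h6 : (((univ.filter (fun s => ξ s ≠ none)).card : ℕ) : ℝ) ≤ c' := by
    refine le_trans ?_ hc'
    calc (((univ.filter (fun s => ξ s ≠ none)).card : ℕ) : ℝ) ≤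
        ∑ i : Fin (2 ^ k), ((univ.filter (fun s : Pg G Y ε₁ υ =>
          ((s : ℕ) : ℤ) ∣ (v i : ℤ))).card : ℝ) := by exact_mod_cast h4
      _ ≤ ∑ _i : Fin (2 ^ k), 2 * D / ε₁ := sum_le_sum fun i _ => h5 i
      _ = _ := by rw [sum_const, card_univ, Fintype.card_fin, nsmul_eq_mul]
  unfold sz
  exact_mod_cast h6

open Classical in
/-- the members of the family without small prime factors and with more than `m` good slots -/
noncomputable def gdA (Y : ℕ) (ε₁ ζ υ aw bw : ℝ) {n : ℕ} (m : ℕ) (N : Finset ℕ)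
    (val : ℕ → Fin n → ℕ) : Finset ℕ :=
  N.filter (fun K => (∀ p : ℕ, p.Prime → (p : ℝ) < (Y : ℝ) ^ ε₁ → ∀ i, ¬ p ∣ val K i) ∧
    m < (univ.filter (fun i => 0 < WW Y ζ υ aw bw (val K i))).card)

open Classical in
/-- the presieved weights -/
noncomputable def nuA (ω : ℕ → ℝ) (P : Finset ℕ) {n : ℕ} (val : ℕ → Fin n → ℕ) (K : ℕ) : ℝ :=
  if ∀ p ∈ P, ¬ ∃ i, p ∣ val K i then ω K else 0

open Classical in
/-- the contribution of one argument -/
theorem pt_A (Y : ℕ) (ε₁ ζ υ aw bw B Λ : ℝ) (W z k m : ℕ) (hY : 2 ≤ Y)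
    (hb : 0 ≤ bw) (hab : bw * υ ≤ aw) (N : Finset ℕ) (ω : ℕ → ℝ) (val : ℕ → Fin (2 ^ k) → ℕ)
    (hz2 : (Y : ℝ) ^ ε₁ ≤ z + 1) (K : ℕ) (hK : K ∈ N) (hω : 0 ≤ ω K)
    (hbW : ∀ p : ℕ, p.Prime → p ∣ W → ∀ i, ¬ p ∣ val K i) (hΛ0 : 0 ≤ Λ) (hΛ : Λ ≤ B) :
    nuA ω (PS W z) val K * (Λ * (∑ i, WB Y ε₁ ζ υ aw bw (val K i) - m)) ≤
      if K ∈ gdA Y ε₁ ζ υ aw bw m N val then ω K * (B * 2 ^ k) else 0 := by
  have hB0 : 0 ≤ B := hΛ0.trans hΛ
  have hB2 : 0 ≤ ω K * (B * 2 ^ k) := by positivity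
  by_cases hν : ∀ p ∈ PS W z, ¬ ∃ i, p ∣ val K i
  swap
  · have : nuA ω (PS W z) val K = 0 := by unfold nuA; rw [if_neg hν]
    rw [this, zero_mul]
    split_ifs
    · exact hB2
    · exact le_rfl
  have hν1 : nuA ω (PS W z) val K = ω K := by unfold nuA; rw [if_pos hν]
  rw [hν1]
  have hw1 : ∀ i : Fin (2 ^ k), WB Y ε₁ ζ υ aw bw (val K i) ≤ 1 :=
    fun i => WB_le_one Y ε₁ ζ υ aw bw hb hab _
  by_cases hs : ∑ i : Fin (2 ^ k), WB Y ε₁ ζ υ aw bw (val K i) - m ≤ 0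
  · have h2 := mul_nonpos_of_nonneg_of_nonpos hω (mul_nonpos_of_nonneg_of_nonpos hΛ0 hs)
    refine h2.trans ?_
    split_ifs
    · exact hB2
    · exact le_rfl
  push Not at hs
  have hsmall : ∀ p : ℕ, p.Prime → (p : ℝ) < (Y : ℝ) ^ ε₁ → ∀ i, ¬ p ∣ val K i := by
    intro p hp hpY i hdvd
    by_cases hpW : p ∣ W
    · exact hbW p hp hpW i hdvd
    · have hpz : p ≤ z := by
        have : (p : ℝ) < z + 1 := hpY.trans_le hz2
        have : p < z + 1 := by exact_mod_cast this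
        omega
      refine hν p ?_ ⟨i, hdvd⟩
      unfold PS
      rw [mem_filter, mem_Icc]
      exact ⟨⟨hp.one_lt.le, hpz⟩, hp, hpW⟩
  have hmem : K ∈ gdA Y ε₁ ζ υ aw bw m N val := by
    unfold gdA
    rw [mem_filter]
    refine ⟨hK, hsmall, ?_⟩
    have h3 : ∑ i : Fin (2 ^ k), WB Y ε₁ ζ υ aw bw (val K i) ≤ ((univ.filter (fun i =>
        0 < WW Y ζ υ aw bw (val K i))).card : ℝ) := by
      have h4 : (((univ.filter (fun i =>
        0 < WW Y ζ υ aw bw (val K i))).card : ℕ) : ℝ) =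
          ∑ i, if 0 < WW Y ζ υ aw bw (val K i) then (1 : ℝ) else 0 := by
        rw [← sum_filter]
        simp
      rw [h4]
      apply sum_le_sum
      intro i _
      split_ifs with h5
      · exact hw1 i
      · by_contra h6
        push Not at h6
        exact h5 (WB_pos Y ε₁ ζ υ aw bw _ hY (fun p hp hpY hpd => hsmall p hp hpY i hpd) h6)
    have h5 : (m : ℝ) < ((univ.filter (fun i => 0 < WW Y ζ υ aw bw (val K i))).card : ℝ) := by
      linarith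
    exact_mod_cast h5
  rw [if_pos hmem]
  have hs2 : ∑ i : Fin (2 ^ k), WB Y ε₁ ζ υ aw bw (val K i) - m ≤ 2 ^ k := by
    have h3 := sum_le_sum (s := (univ : Finset (Fin (2 ^ k)))) fun i _ => hw1 i
    rw [sum_const, card_univ, Fintype.card_fin, nsmul_eq_mul, mul_one] at h3
    push_cast at h3
    have : (0 : ℝ) ≤ m := Nat.cast_nonneg m
    push_cast
    linarith
  exact mul_le_mul_of_nonneg_left (mul_le_mul hΛ hs2 hs.le hB0) hω

end Pool.Agent.K3h21.AV
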