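import Pool.Agent.K3h21.AV.Pre

set_option autoImplicit false
set_option linter.unusedSectionVars false
set_option linter.unusedVariables false

/-! The presieve with remainders on average: from products of distinct primes to colour patterns. -/

namespace Pool.Agent.K3h21.AV

open Finset Filter
open Pool.Agent.Y677.RSZ (rt Sys)
open Pool.Agent.TH423.SH (PS)
open Pool.Agent.W23.DC
open Pool.Agent.Y882
open Pool.Agent.Y882.PX
open Pool.Agent.Y882.KW
open Pool.Agent.R498.MT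

theorem prod01 {ι : Type} [Fintype ι] (Q : ι → Prop) [DecidablePred Q] [Decidable (∀ i, Q i)] :
    ∏ i, (if Q i then (1 : ℝ) else 0) = if ∀ i, Q i then 1 else 0 := by
  split_ifs with h
  · exact prod_eq_one fun i _ => by rw [if_pos (h i)]
  · push Not at h
    obtain ⟨i, hi⟩ := h
    exact prod_eq_zero (mem_univ i) (by rw [if_neg hi])

section
variable (G : ℤ → ℤ) (Y : ℕ) (ε₁ υ : ℝ)

open Classical in
/-- the coloured primes of a pattern -/
noncomputable def sp {n : ℕ} (T : Pg G Y ε₁ υ → Option (Fin n)) : Finset ℕ :=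
  (univ.filter (fun s => T s ≠ none)).map (Function.Embedding.subtype _)

open Classical in
/-- the colours of all primes of a pattern and of a set of small primes -/
noncomputable def col {n : ℕ} (A : Finset ℕ) (σ : A → Fin n) (T : Pg G Y ε₁ υ → Option (Fin n))
    (i0 : Fin n) (p : ℕ) : Fin n :=
  if h : p ∈ A then σ ⟨p, h⟩ else if h : p ∈ Pg G Y ε₁ υ then (T ⟨p, h⟩).getD i0 else i0

theorem sp_mem {n : ℕ} (T : Pg G Y ε₁ υ → Option (Fin n)) (p : ℕ) :
    p ∈ sp G Y ε₁ υ T ↔ ∃ h : p ∈ Pg G Y ε₁ υ, T ⟨p, h⟩ ≠ none := by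
  unfold sp
  rw [Finset.mem_map]
  constructor
  · rintro ⟨s, hs, rfl⟩
    exact ⟨s.2, (mem_filter.1 hs).2⟩
  · rintro ⟨h, h1⟩
    exact ⟨⟨p, h⟩, mem_filter.2 ⟨mem_univ _, h1⟩, rfl⟩

theorem sp_prod {n : ℕ} {M : Type} [CommMonoid M] (T : Pg G Y ε₁ υ → Option (Fin n)) (f : ℕ → M) :
    ∏ p ∈ sp G Y ε₁ υ T, f p = ∏ s : Pg G Y ε₁ υ, if T s = none then 1 else f (s : ℕ) := by
  classical
  unfold sp
  rw [prod_map, prod_filter]
  refine prod_congr rfl fun s _ => ?_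
  by_cases h : T s = none
  · simp [h]
  · simp [h]

theorem sp_card {n : ℕ} (T : Pg G Y ε₁ υ → Option (Fin n)) : (sp G Y ε₁ υ T).card = sz T := by
  classical
  unfold sp sz
  rw [card_map]

open Classical in
/-- the weighted count with given prime divisors of given colours -/
theorem comb (W z k : ℕ) (hY : 2 ≤ Y) (N : Finset ℕ) (ω : ℕ → ℝ)
    (val : ℕ → Fin (2 ^ k) → ℕ) (X₀ θ : ℝ) (e : ℕ → ℝ)
    (hz1 : (z : ℝ) < (Y : ℝ) ^ ε₁) (hευ : ε₁ ≤ υ) (hWz : W ≤ z) (hW : 0 < W)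
    (hH : ∀ S : Finset ℕ, (∀ p ∈ S, p.Prime ∧ ¬ p ∣ W ∧ (p : ℝ) < (Y : ℝ) ^ υ) →
      ((∏ p ∈ S, p : ℕ) : ℝ) ≤ (Y : ℝ) ^ θ → ∀ σ : ℕ → Fin (2 ^ k),
      |∑ K ∈ N, ω K * (if ∀ p ∈ S, p ∣ val K (σ p) then 1 else 0) -
        X₀ * ∏ p ∈ S, ((rt G p : ℝ) / p)| ≤ e (∏ p ∈ S, p))
    (hU : ∀ K ∈ N, ∀ p : ℕ, p.Prime → ¬ p ∣ W → (p : ℝ) < (Y : ℝ) ^ υ → ∀ i j,
      p ∣ val K i → p ∣ val K j → i = j)
    (A : Finset ℕ) (hA : A ⊆ PS W z) (T : Pg G Y ε₁ υ → Option (Fin (2 ^ k)))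
    (hAT : (((∏ p ∈ A, p) * (∏ p ∈ sp G Y ε₁ υ T, p) : ℕ) : ℝ) ≤ (Y : ℝ) ^ θ) :
    |∑ K ∈ (N.filter (fun K => Pool.Agent.R498.MT.Sub T
        (xv (fun s : Pg G Y ε₁ υ => (s : ℕ)) (val K)))).filter
        (fun K => ∀ p ∈ A, ∃ i, p ∣ val K i), ω K -
      X₀ * (∏ t, Pool.Agent.R498.MT.rr (fun _ : Fin (2 ^ k) => 1 / qs G Y ε₁ υ t) (T t)) *
        ∏ p ∈ A, ((2 ^ k * rt G p : ℝ) / p)| ≤
      (2 ^ k) ^ A.card * e ((∏ p ∈ A, p) * (∏ p ∈ sp G Y ε₁ υ T, p)) := by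
  have hYr : (2 : ℝ) ≤ Y := by exact_mod_cast hY
  have hY0 : (0 : ℝ) < Y := by linarith
  have hY1 : (1 : ℝ) ≤ Y := by linarith
  have hAp : ∀ p ∈ A, p.Prime ∧ ¬ p ∣ W ∧ (p : ℝ) < (Y : ℝ) ^ υ ∧ p ≤ z := by
    intro p hp
    have h1 := hA hp
    unfold PS at h1
    rw [mem_filter, mem_Icc] at h1
    refine ⟨h1.2.1, h1.2.2, ?_, h1.1.2⟩
    have h2 : (p : ℝ) ≤ z := by exact_mod_cast h1.1.2
    exact (h2.trans_lt hz1).trans_le (Real.rpow_le_rpow_of_exponent_le hY1 hευ)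
  have hPp : ∀ p ∈ Pg G Y ε₁ υ, p.Prime ∧ ¬ p ∣ W ∧ (p : ℝ) < (Y : ℝ) ^ υ ∧ z < p := by
    intro p hp
    obtain ⟨a1, a2, a3, a4, -⟩ := Pg_mem G Y ε₁ υ hY ⟨p, hp⟩
    have h1 : z < p := by exact_mod_cast hz1.trans_le a2
    refine ⟨a1, fun h => ?_, (tt_lt Y p υ hY a1.pos).1 a4, h1⟩
    have := Nat.le_of_dvd hW h
    omega
  have hdisj : Disjoint A (sp G Y ε₁ υ T) := by
    rw [disjoint_left]
    intro p hp hp'
    obtain ⟨h, -⟩ := (sp_mem G Y ε₁ υ T p).1 hp'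
    have h1 := (hAp p hp).2.2.2
    have h2 := (hPp p h).2.2.2
    omega
  have i0 : Fin (2 ^ k) := ⟨0, by positivity⟩
  set ξ := fun K => xv (fun s : Pg G Y ε₁ υ => (s : ℕ)) (val K) with hξd
  have hξ : ∀ K ∈ N, ∀ (s : Pg G Y ε₁ υ) j, ξ K s = some j ↔ (s : ℕ) ∣ val K j := by
    intro K hK s j
    obtain ⟨b1, b2, b3, -⟩ := hPp s s.2
    exact xv_iff _ _ _ (hU K hK s b1 b2 b3) j
  -- expansion
  have h1 : ∑ K ∈ (N.filter (fun K => Pool.Agent.R498.MT.Sub T (ξ K))).filter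
      (fun K => ∀ p ∈ A, ∃ i, p ∣ val K i), ω K =
      ∑ σ : A → Fin (2 ^ k), ∑ K ∈ N, ω K *
        (if ∀ p ∈ A ∪ sp G Y ε₁ υ T, p ∣ val K (col G Y ε₁ υ A σ T i0 p) then 1 else 0) := by
    rw [sum_comm, filter_filter, sum_filter]
    refine sum_congr rfl fun K hK => ?_
    rw [← mul_sum]
    have h2 : ∀ σ : A → Fin (2 ^ k),
        (if ∀ p ∈ A ∪ sp G Y ε₁ υ T, p ∣ val K (col G Y ε₁ υ A σ T i0 p) then (1 : ℝ) else 0) =
        (if Pool.Agent.R498.MT.Sub T (ξ K) then 1 else 0) *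
          ∏ p : A, (if (p : ℕ) ∣ val K (σ p) then (1 : ℝ) else 0) := by
      intro σ
      rw [prod01, ite_mul, zero_mul, one_mul]
      have e0 : (if Pool.Agent.R498.MT.Sub T (ξ K) then
          (if ∀ p : A, (p : ℕ) ∣ val K (σ p) then (1 : ℝ) else 0) else 0) =
          if (Pool.Agent.R498.MT.Sub T (ξ K) ∧ ∀ p : A, (p : ℕ) ∣ val K (σ p)) then 1 else 0 := by
        by_cases g1 : Pool.Agent.R498.MT.Sub T (ξ K)
        · by_cases g2 : ∀ p : A, (p : ℕ) ∣ val K (σ p)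
          · rw [if_pos g1, if_pos g2, if_pos ⟨g1, g2⟩]
          · rw [if_pos g1, if_neg g2, if_neg (fun h => g2 h.2)]
        · rw [if_neg g1, if_neg (fun h => g1 h.1)]
      rw [e0]
      apply if_congr _ rfl rfl
      constructor
      · intro h
        refine ⟨?_, ?_⟩
        · intro s
          by_cases hs : T s = none
          · exact Or.inl hs
          · right
            obtain ⟨j, hj⟩ := Option.ne_none_iff_exists'.1 hs
            have h3 := h s (mem_union_right _ ((sp_mem G Y ε₁ υ T s).2 ⟨s.2, hs⟩))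
            have h4 : (s : ℕ) ∉ A := fun h5 => by
              have h6 := (hAp s h5).2.2.2
              have h7 := (hPp s s.2).2.2.2
              omega
            unfold col at h3
            rw [dif_neg h4, dif_pos s.2] at h3
            have h5 : T ⟨(s : ℕ), s.2⟩ = some j := hj
            rw [h5, Option.getD_some] at h3
            rw [hj]
            exact ((hξ K hK s j).2 h3).symm
        · intro p
          have h3 := h p (mem_union_left _ p.2)
          unfold col at h3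
          rw [dif_pos p.2] at h3
          exact h3
      · rintro ⟨h3, h4⟩ p hp
        rw [mem_union] at hp
        unfold col
        by_cases hpA : p ∈ A
        · rw [dif_pos hpA]
          exact h4 ⟨p, hpA⟩
        · rw [dif_neg hpA]
          obtain ⟨hpP, hpT⟩ := (sp_mem G Y ε₁ υ T p).1 (hp.resolve_left hpA)
          rw [dif_pos hpP]
          obtain ⟨j, hj⟩ := Option.ne_none_iff_exists'.1 hpT
          rw [hj, Option.getD_some]
          have h5 := (h3 ⟨p, hpP⟩).resolve_left hpT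
          rw [hj] at h5
          exact (hξ K hK ⟨p, hpP⟩ j).1 h5.symm
    simp_rw [h2]
    rw [← mul_sum]
    have h3 : ∑ σ : A → Fin (2 ^ k), ∏ p : A, (if (p : ℕ) ∣ val K (σ p) then (1 : ℝ) else 0) =
        if ∀ p ∈ A, ∃ i, p ∣ val K i then 1 else 0 := by
      have h4 : ∏ p : A, ∑ i : Fin (2 ^ k), (if (p : ℕ) ∣ val K i then (1 : ℝ) else 0) =
          ∑ σ : A → Fin (2 ^ k), ∏ p : A, (if (p : ℕ) ∣ val K (σ p) then (1 : ℝ) else 0) := by
        rw [Finset.prod_univ_sum, Fintype.piFinset_univ]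
      rw [← h4]
      have h5 : ∀ p : A, ∑ i : Fin (2 ^ k), (if (p : ℕ) ∣ val K i then (1 : ℝ) else 0) =
          if ∃ i, (p : ℕ) ∣ val K i then 1 else 0 := by
        intro p
        obtain ⟨c1, c2, c3, -⟩ := hAp p p.2
        split_ifs with h6
        · obtain ⟨i, hi⟩ := h6
          rw [sum_eq_single i]
          · rw [if_pos hi]
          · intro j _ hj
            rw [if_neg]
            intro h7
            exact hj (hU K hK p c1 c2 c3 j i h7 hi)
          · intro h7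
            exact absurd (mem_univ i) h7
        · apply sum_eq_zero
          intro i _
          rw [if_neg]
          intro h7
          exact h6 ⟨i, h7⟩
      simp_rw [h5]
      rw [prod01]
      apply if_congr _ rfl rfl
      constructor
      · intro h6 p hp
        exact h6 ⟨p, hp⟩
      · intro h6 p
        exact h6 p p.2
    rw [h3]
    by_cases h4 : Pool.Agent.R498.MT.Sub T (ξ K)
    · by_cases h5 : ∀ p ∈ A, ∃ i, p ∣ val K i
      · rw [if_pos ⟨h4, h5⟩, if_pos h4, if_pos h5, one_mul, mul_one]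
      · rw [if_neg (fun h => h5 h.2), if_neg h5, mul_zero, mul_zero]
    · rw [if_neg (fun h => h4 h.1), if_neg h4, zero_mul, mul_zero]
  have h2 : X₀ * (∏ t, Pool.Agent.R498.MT.rr (fun _ : Fin (2 ^ k) => 1 / qs G Y ε₁ υ t) (T t)) *
        ∏ p ∈ A, ((2 ^ k * rt G p : ℝ) / p) =
      ∑ σ : A → Fin (2 ^ k), X₀ * ∏ p ∈ A ∪ sp G Y ε₁ υ T, ((rt G p : ℝ) / p) := by
    rw [sum_const, card_univ, Fintype.card_fun, Fintype.card_fin, Fintype.card_coe, nsmul_eq_mul,
      prod_union hdisj, sp_prod]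
    have h3 : ∀ t : Pg G Y ε₁ υ, Pool.Agent.R498.MT.rr (fun _ : Fin (2 ^ k) => 1 / qs G Y ε₁ υ t) (T t) =
        if T t = none then 1 else ((rt G (t : ℕ) : ℝ) / (t : ℕ)) := by
      intro t
      rcases h : T t with _ | j
      · simp [Pool.Agent.R498.MT.rr]
      · simp only [Pool.Agent.R498.MT.rr, reduceCtorEq, if_false]
        unfold qs
        rw [one_div, inv_div]
    simp_rw [h3]
    have h4 : ∏ p ∈ A, ((2 ^ k * rt G p : ℝ) / p) = (2 ^ k) ^ A.card * ∏ p ∈ A, ((rt G p : ℝ) / p) := by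
      rw [← prod_const, ← prod_mul_distrib]
      refine prod_congr rfl fun p _ => ?_
      ring
    rw [h4]
    push_cast
    ring
  rw [h1, h2, ← sum_sub_distrib]
  refine (abs_sum_le_sum_abs _ _).trans ?_
  have h3 : ∀ σ : A → Fin (2 ^ k), |∑ K ∈ N, ω K *
        (if ∀ p ∈ A ∪ sp G Y ε₁ υ T, p ∣ val K (col G Y ε₁ υ A σ T i0 p) then 1 else 0) -
        X₀ * ∏ p ∈ A ∪ sp G Y ε₁ υ T, ((rt G p : ℝ) / p)| ≤
      e ((∏ p ∈ A, p) * (∏ p ∈ sp G Y ε₁ υ T, p)) := by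
    intro σ
    have h4 := hH (A ∪ sp G Y ε₁ υ T) (by
      intro p hp
      rw [mem_union] at hp
      rcases hp with hp | hp
      · obtain ⟨c1, c2, c3, -⟩ := hAp p hp
        exact ⟨c1, c2, c3⟩
      · obtain ⟨h, -⟩ := (sp_mem G Y ε₁ υ T p).1 hp
        obtain ⟨c1, c2, c3, -⟩ := hPp p h
        exact ⟨c1, c2, c3⟩) (by rw [prod_union hdisj]; exact hAT) (col G Y ε₁ υ A σ T i0)
    rw [prod_union hdisj] at h4
    rw [prod_union hdisj]
    rw [prod_union hdisj] at h4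
    exact h4
  refine (sum_le_sum fun σ _ => h3 σ).trans (le_of_eq ?_)
  rw [sum_const, card_univ, Fintype.card_fun, Fintype.card_fin, Fintype.card_coe, nsmul_eq_mul]
  push_cast
  ring

end

end Pool.Agent.K3h21.AV
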