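import Pool.Agent.K3h21.AV.Sie

set_option autoImplicit false
set_option linter.unusedSectionVars false
set_option linter.unusedVariables false

/-! The sum of the remainders over all colour patterns. -/

namespace Pool.Agent.K3h21.AV

open Finset Filter
open Pool.Agent.Y677.RSZ (rt Sys)
open Pool.Agent.TH423.SH (PS)
open Pool.Agent.W23.DC
open Pool.Agent.Y882
open Pool.Agent.Y882.PX
open Pool.Agent.Y882.KW
open Pool.Agent.R498.MT

section
variable (G : ℤ → ℤ) (Y : ℕ) (ε₁ υ : ℝ)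

open Classical in
theorem sp_fiber {n : ℕ} (hn : 0 < n) (S : Finset ℕ) (hS : S ⊆ Pg G Y ε₁ υ) :
    (univ.filter (fun T : Pg G Y ε₁ υ → Option (Fin n) => sp G Y ε₁ υ T = S)).card ≤ n ^ S.card := by
  have i0 : Fin n := ⟨0, hn⟩
  have h1 : (univ.filter (fun T : Pg G Y ε₁ υ → Option (Fin n) => sp G Y ε₁ υ T = S)).card ≤
      (univ : Finset (S → Fin n)).card := by
    refine card_le_card_of_injOn (fun T => fun s : S => (T ⟨s, hS s.2⟩).getD i0)
      (fun T _ => by simp) ?_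
    intro T hT T' hT' h
    rw [mem_coe, mem_filter] at hT hT'
    funext s
    by_cases hs : (s : ℕ) ∈ S
    · have h2 : (T s).getD i0 = (T' s).getD i0 := congrFun h ⟨s, hs⟩
      have h3 : T s ≠ none := by
        have h4 : (s : ℕ) ∈ sp G Y ε₁ υ T := by rw [hT.2]; exact hs
        obtain ⟨_, h5⟩ := (sp_mem G Y ε₁ υ T s).1 h4
        exact h5
      have h3' : T' s ≠ none := by
        have h4 : (s : ℕ) ∈ sp G Y ε₁ υ T' := by rw [hT'.2]; exact hs
        obtain ⟨_, h5⟩ := (sp_mem G Y ε₁ υ T' s).1 h4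
        exact h5
      obtain ⟨j, hj⟩ := Option.ne_none_iff_exists'.1 h3
      obtain ⟨j', hj'⟩ := Option.ne_none_iff_exists'.1 h3'
      rw [hj, hj', Option.getD_some, Option.getD_some] at h2
      rw [hj, hj', h2]
    · have h3 : T s = none := by
        by_contra h4
        apply hs
        rw [← hT.2]
        exact (sp_mem G Y ε₁ υ T s).2 ⟨s.2, h4⟩
      have h3' : T' s = none := by
        by_contra h4
        apply hs
        rw [← hT'.2]
        exact (sp_mem G Y ε₁ υ T' s).2 ⟨s.2, h4⟩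
      rw [h3, h3']
  refine h1.trans ?_
  rw [card_univ, Fintype.card_fun, Fintype.card_fin, Fintype.card_coe]

open Classical in
theorem sp_sum {n : ℕ} (hn : 0 < n) (F : Finset ℕ → ℝ) (hF : ∀ S, 0 ≤ F S) :
    ∑ T : Pg G Y ε₁ υ → Option (Fin n), F (sp G Y ε₁ υ T) ≤
      ∑ S ∈ (Pg G Y ε₁ υ).powerset, (n : ℝ) ^ S.card * F S := by
  rw [← sum_fiberwise_of_maps_to (s := univ) (t := (Pg G Y ε₁ υ).powerset)
    (g := fun T => sp G Y ε₁ υ T) (fun T _ => by
      rw [mem_powerset]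
      intro p hp
      exact ((sp_mem G Y ε₁ υ T p).1 hp).1)]
  refine sum_le_sum fun S hS => ?_
  have h1 : ∑ T ∈ univ.filter (fun T : Pg G Y ε₁ υ → Option (Fin n) => sp G Y ε₁ υ T = S),
      F (sp G Y ε₁ υ T) = ∑ T ∈ univ.filter (fun T : Pg G Y ε₁ υ → Option (Fin n) =>
        sp G Y ε₁ υ T = S), F S := by
    refine sum_congr rfl fun T hT => ?_
    rw [(mem_filter.1 hT).2]
  rw [h1, sum_const, nsmul_eq_mul]
  apply mul_le_mul_of_nonneg_right _ (hF S)
  exact_mod_cast sp_fiber G Y ε₁ υ hn S (mem_powerset.1 hS)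

theorem lt_sp {n : ℕ} (hY : 2 ≤ Y) (T : Pg G Y ε₁ υ → Option (Fin n)) :
    ((∏ p ∈ sp G Y ε₁ υ T, p : ℕ) : ℝ) = (Y : ℝ) ^ lt (ls G Y ε₁ υ) T := by
  rw [← DT_rpow G Y ε₁ υ hY T, sp_prod]
  rfl

open Classical in
/-- the moduli -/
noncomputable def dd (W Y : ℕ) (θ : ℝ) : Finset ℕ :=
  (Icc 1 ⌊(Y : ℝ) ^ θ⌋₊).filter (fun d => Squarefree d ∧ d.Coprime W)

open Classical in
/-- the sum of the remainders -/
theorem sumTA (W z k : ℕ) (hY : 2 ≤ Y) (e : ℕ → ℝ) (he : ∀ d, 0 ≤ e d) (B Z θ : ℝ)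
    (hz1 : (z : ℝ) < (Y : ℝ) ^ ε₁) (hWz : W ≤ z) (hW : 0 < W)
    (hBZ : (Y : ℝ) ^ B * Z ≤ (Y : ℝ) ^ θ) :
    ∑ T : Pg G Y ε₁ υ → Option (Fin (2 ^ k)), (if lt (ls G Y ε₁ υ) T ≤ B then
      ∑ A ∈ (PS W z).powerset.filter (fun A : Finset ℕ => ((∏ p ∈ A, p : ℕ) : ℝ) ≤ Z),
        (2 ^ k) ^ A.card * e ((∏ p ∈ A, p) * (∏ p ∈ sp G Y ε₁ υ T, p)) else 0) ≤
    ∑ d ∈ dd W Y θ, (2 ^ k) ^ d.primeFactors.card * e d := by
  have hYr : (2 : ℝ) ≤ Y := by exact_mod_cast hY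
  have hY0 : (0 : ℝ) < Y := by linarith
  have hY1 : (1 : ℝ) < Y := by linarith
  have hAp : ∀ p ∈ PS W z, p.Prime ∧ ¬ p ∣ W ∧ p ≤ z := by
    intro p h1
    unfold PS at h1
    rw [mem_filter, mem_Icc] at h1
    exact ⟨h1.2.1, h1.2.2, h1.1.2⟩
  have hPp : ∀ p ∈ Pg G Y ε₁ υ, p.Prime ∧ ¬ p ∣ W ∧ z < p := by
    intro p hp
    obtain ⟨a1, a2, -, -, -⟩ := Pg_mem G Y ε₁ υ hY ⟨p, hp⟩
    have h1 : z < p := by exact_mod_cast hz1.trans_le a2
    refine ⟨a1, fun h => ?_, h1⟩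
    have := Nat.le_of_dvd hW h
    omega
  set F : Finset ℕ → ℝ := fun S => if ((∏ p ∈ S, p : ℕ) : ℝ) ≤ (Y : ℝ) ^ B then
      ∑ A ∈ (PS W z).powerset.filter (fun A : Finset ℕ => ((∏ p ∈ A, p : ℕ) : ℝ) ≤ Z),
        (2 ^ k) ^ A.card * e ((∏ p ∈ A, p) * (∏ p ∈ S, p)) else 0 with hF
  have hF0 : ∀ S, 0 ≤ F S := by
    intro S
    rw [hF]
    dsimp only
    split_ifs
    · exact sum_nonneg fun A _ => mul_nonneg (by positivity) (he _)
    · exact le_rfl
  have h1 : ∑ T : Pg G Y ε₁ υ → Option (Fin (2 ^ k)), (if lt (ls G Y ε₁ υ) T ≤ B then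
      ∑ A ∈ (PS W z).powerset.filter (fun A : Finset ℕ => ((∏ p ∈ A, p : ℕ) : ℝ) ≤ Z),
        (2 ^ k) ^ A.card * e ((∏ p ∈ A, p) * (∏ p ∈ sp G Y ε₁ υ T, p)) else 0) =
      ∑ T : Pg G Y ε₁ υ → Option (Fin (2 ^ k)), F (sp G Y ε₁ υ T) := by
    refine sum_congr rfl fun T _ => ?_
    rw [hF]
    dsimp only
    apply if_congr _ rfl rfl
    rw [lt_sp G Y ε₁ υ hY T, Real.rpow_le_rpow_left_iff hY1]
  rw [h1]
  refine (sp_sum G Y ε₁ υ (by positivity) F hF0).trans ?_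
  -- pairs
  set QQ : Finset (Finset ℕ × Finset ℕ) :=
    (((PS W z).powerset.filter (fun A : Finset ℕ => ((∏ p ∈ A, p : ℕ) : ℝ) ≤ Z)) ×ˢ
      ((Pg G Y ε₁ υ).powerset.filter (fun S : Finset ℕ => ((∏ p ∈ S, p : ℕ) : ℝ) ≤ (Y : ℝ) ^ B)))
    with hQQ
  have h2 : ∑ S ∈ (Pg G Y ε₁ υ).powerset, ((2 ^ k : ℕ) : ℝ) ^ S.card * F S =
      ∑ x ∈ QQ, (2 ^ k) ^ (x.1.card + x.2.card) * e ((∏ p ∈ x.1, p) * (∏ p ∈ x.2, p)) := by
    rw [hQQ, sum_product, sum_comm, sum_filter]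
    refine sum_congr rfl fun S _ => ?_
    rw [hF]
    dsimp only
    split_ifs
    · rw [mul_sum]
      refine sum_congr rfl fun A _ => ?_
      push_cast
      ring
    · rw [mul_zero]
  rw [h2]
  have hQ : ∀ x ∈ QQ, (∀ p ∈ x.1, p.Prime ∧ ¬ p ∣ W ∧ p ≤ z) ∧ (∀ p ∈ x.2, p.Prime ∧ ¬ p ∣ W ∧ z < p) ∧
      ((∏ p ∈ x.1, p : ℕ) : ℝ) ≤ Z ∧ ((∏ p ∈ x.2, p : ℕ) : ℝ) ≤ (Y : ℝ) ^ B := by
    intro x hx
    rw [hQQ, mem_product, mem_filter, mem_filter, mem_powerset, mem_powerset] at hx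
    exact ⟨fun p hp => hAp p (hx.1.1 hp), fun p hp => hPp p (hx.2.1 hp), hx.1.2, hx.2.2⟩
  have hdj : ∀ x ∈ QQ, Disjoint x.1 x.2 := by
    intro x hx
    obtain ⟨a1, a2, -, -⟩ := hQ x hx
    rw [disjoint_left]
    intro p hp hp'
    have := (a1 p hp).2.2
    have := (a2 p hp').2.2
    omega
  have hun : ∀ x ∈ QQ, (∏ p ∈ x.1, p) * (∏ p ∈ x.2, p) = ∏ p ∈ x.1 ∪ x.2, p := fun x hx =>
    (prod_union (hdj x hx)).symm
  have hpf : ∀ x ∈ QQ, ((∏ p ∈ x.1, p) * (∏ p ∈ x.2, p)).primeFactors = x.1 ∪ x.2 := by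
    intro x hx
    obtain ⟨a1, a2, -, -⟩ := hQ x hx
    rw [hun x hx]
    apply Nat.primeFactors_prod
    intro p hp
    rcases mem_union.1 hp with h | h
    · exact (a1 p h).1
    · exact (a2 p h).1
  have h3 : ∀ x ∈ QQ, (2 ^ k) ^ (x.1.card + x.2.card) * e ((∏ p ∈ x.1, p) * (∏ p ∈ x.2, p)) =
      (fun d => (2 ^ k) ^ d.primeFactors.card * e d) ((∏ p ∈ x.1, p) * (∏ p ∈ x.2, p)) := by
    intro x hx
    show _ = (2 ^ k) ^ ((∏ p ∈ x.1, p) * (∏ p ∈ x.2, p)).primeFactors.card * _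
    rw [hpf x hx, card_union_of_disjoint (hdj x hx)]
  rw [sum_congr rfl h3]
  have hinj : Set.InjOn (fun x : Finset ℕ × Finset ℕ => (∏ p ∈ x.1, p) * (∏ p ∈ x.2, p)) QQ := by
    intro x hx y hy hxy
    have hx' := mem_coe.1 hx
    have hy' := mem_coe.1 hy
    have h4 : x.1 ∪ x.2 = y.1 ∪ y.2 := by
      rw [← hpf x hx', ← hpf y hy']
      exact congrArg Nat.primeFactors hxy
    obtain ⟨a1, a2, -, -⟩ := hQ x hx'
    obtain ⟨b1, b2, -, -⟩ := hQ y hy'
    apply Prod.ext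
    · ext p
      constructor
      · intro hp
        rcases mem_union.1 (h4 ▸ mem_union_left _ hp) with h | h
        · exact h
        · have := (a1 p hp).2.2
          have := (b2 p h).2.2
          omega
      · intro hp
        rcases mem_union.1 (h4.symm ▸ mem_union_left _ hp) with h | h
        · exact h
        · have := (b1 p hp).2.2
          have := (a2 p h).2.2
          omega
    · ext p
      constructor
      · intro hp
        rcases mem_union.1 (h4 ▸ mem_union_right _ hp) with h | h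
        · have := (b1 p h).2.2
          have := (a2 p hp).2.2
          omega
        · exact h
      · intro hp
        rcases mem_union.1 (h4.symm ▸ mem_union_right _ hp) with h | h
        · have := (a1 p h).2.2
          have := (b2 p hp).2.2
          omega
        · exact h
  rw [← sum_image (f := fun d => ((2 : ℝ) ^ k) ^ d.primeFactors.card * e d) hinj]
  apply sum_le_sum_of_subset_of_nonneg
  · intro d hd
    rw [mem_image] at hd
    obtain ⟨x, hx, rfl⟩ := hd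
    obtain ⟨a1, a2, a3, a4⟩ := hQ x hx
    have hpos : 0 < (∏ p ∈ x.1, p) * (∏ p ∈ x.2, p) :=
      Nat.mul_pos (prod_pos fun p hp => (a1 p hp).1.pos) (prod_pos fun p hp => (a2 p hp).1.pos)
    unfold dd
    rw [mem_filter, mem_Icc]
    refine ⟨⟨hpos, Nat.le_floor ?_⟩, ?_, ?_⟩
    · push_cast at a3 a4 ⊢
      refine le_trans ?_ hBZ
      rw [mul_comm]
      exact mul_le_mul a4 a3 (prod_nonneg fun _ _ => Nat.cast_nonneg _) (by positivity)
    · rw [hun x hx]
      apply Finset.squarefree_prod_of_pairwise_isCoprime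
      · intro a ha b hb hab
        rw [mem_coe, mem_union] at ha hb
        have ha' : a.Prime := by
          rcases ha with h | h
          · exact (a1 a h).1
          · exact (a2 a h).1
        have hb' : b.Prime := by
          rcases hb with h | h
          · exact (a1 b h).1
          · exact (a2 b h).1
        exact Nat.coprime_iff_isRelPrime.1 ((Nat.coprime_primes ha' hb').2 hab)
      · intro p hp
        rw [mem_union] at hp
        rcases hp with h | h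
        · exact (a1 p h).1.prime.squarefree
        · exact (a2 p h).1.prime.squarefree
    · rw [hun x hx]
      apply Nat.Coprime.prod_left
      intro p hp
      rw [mem_union] at hp
      rcases hp with h | h
      · exact ((a1 p h).1.coprime_iff_not_dvd).2 (a1 p h).2.1
      · exact ((a2 p h).1.coprime_iff_not_dvd).2 (a2 p h).2.1
  · intro d _ _
    exact mul_nonneg (by positivity) (he d)

end

end Pool.Agent.K3h21.AV
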