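import Mathlib
import Pool.Agent.H316R2.LS

set_option autoImplicit false
set_option linter.unusedSectionVars false
set_option linter.unusedVariables false

/-! The variance of the numbers of the members of residue classes in short intervals. -/

namespace Pool.Agent.K3h21.AV

open Finset

theorem cnt1 (Z q c : ℕ) (hq : 0 < q) :
    |(((range Z).filter (fun y => y ≡ c [MOD q])).card : ℝ) - Z / q| ≤ 1 := by
  have h1 : ((range Z).filter (fun y => y ≡ c [MOD q])).card = Z / q + if c % q < Z % q then 1 else 0 := by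
    rw [← Nat.count_eq_card_filter_range, Nat.count_modEq_card Z hq]
  rw [h1]
  have hq0 : (0 : ℝ) < q := by exact_mod_cast hq
  have h2 : (Z : ℝ) = q * (Z / q : ℕ) + (Z % q : ℕ) := by exact_mod_cast (Nat.div_add_mod Z q).symm
  have h3 : (Z : ℝ) / q = (Z / q : ℕ) + ((Z % q : ℕ) : ℝ) / q := by
    rw [h2]
    have h5 : ((q * (Z / q : ℕ) + (Z % q : ℕ) : ℝ)) / q = (Z / q : ℕ) + ((Z % q : ℕ) : ℝ) / q := by
      field_simp
    rw [← h2]
    rw [← h5, ← h2]
  have h4 : 0 ≤ ((Z % q : ℕ) : ℝ) / q := by positivity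
  have h5 : ((Z % q : ℕ) : ℝ) / q ≤ 1 := by
    rw [div_le_one hq0]
    exact_mod_cast (Nat.mod_lt Z hq).le
  rw [h3, abs_le]
  push_cast
  split_ifs <;> constructor <;> push_cast <;> linarith

theorem modEq_lcm (y k d d' : ℕ) : y ≡ k [MOD Nat.lcm d d'] ↔ y ≡ k [MOD d] ∧ y ≡ k [MOD d'] := by
  rw [Nat.modEq_iff_dvd, Nat.modEq_iff_dvd, Nat.modEq_iff_dvd, Int.natCast_dvd, Int.natCast_dvd,
    Int.natCast_dvd, Nat.lcm_dvd_iff]

open Classical in
theorem cnt2 (Z d d' c c' : ℕ) (hd : 0 < d) (hd' : 0 < d') :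
    |(((range Z).filter (fun y => y ≡ c [MOD d] ∧ y ≡ c' [MOD d'])).card : ℝ) -
      if c ≡ c' [MOD Nat.gcd d d'] then (Z : ℝ) / (Nat.lcm d d' : ℕ) else 0| ≤ 1 := by
  split_ifs with h
  · obtain ⟨k, hk1, hk2⟩ := Nat.chineseRemainder' h
    have h1 : (range Z).filter (fun y => y ≡ c [MOD d] ∧ y ≡ c' [MOD d']) =
        (range Z).filter (fun y => y ≡ k [MOD Nat.lcm d d']) := by
      refine filter_congr fun y _ => ?_
      rw [modEq_lcm]
      constructor
      · rintro ⟨h1, h2⟩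
        exact ⟨h1.trans hk1.symm, h2.trans hk2.symm⟩
      · rintro ⟨h1, h2⟩
        exact ⟨h1.trans hk1, h2.trans hk2⟩
    rw [h1]
    exact cnt1 Z _ k (Nat.lcm_pos hd hd')
  · have h1 : (range Z).filter (fun y => y ≡ c [MOD d] ∧ y ≡ c' [MOD d']) = ∅ := by
      rw [filter_eq_empty_iff]
      rintro y _ ⟨h1, h2⟩
      apply h
      exact ((h1.of_dvd (Nat.gcd_dvd_left d d')).symm).trans (h2.of_dvd (Nat.gcd_dvd_right d d'))
    rw [h1, card_empty]
    norm_num

/-- the number of the members of a class in a short interval, minus its mean value -/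
noncomputable def dl (H y d a : ℕ) : ℝ :=
  ∑ κ ∈ range H, ((if y + κ ≡ a [MOD d] then (1 : ℝ) else 0) - 1 / d)

theorem dl_eq (H y d a : ℕ) :
    dl H y d a = (((range H).filter (fun κ => y + κ ≡ a [MOD d])).card : ℝ) - H / d := by
  unfold dl
  rw [sum_sub_distrib, sum_boole, sum_const, card_range, nsmul_eq_mul, mul_one_div]

theorem shiftc (y κ a d : ℕ) (hd : 0 < d) : y + κ ≡ a [MOD d] ↔ y ≡ a + (d - 1) * κ [MOD d] := by
  obtain ⟨e, rfl⟩ : ∃ e, d = e + 1 := ⟨d - 1, by omega⟩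
  have h2 : e + 1 - 1 = e := by omega
  rw [h2]
  have h1 : a + e * κ + κ ≡ a [MOD (e + 1)] := by
    have h3 : a + e * κ + κ = a + (e + 1) * κ := by ring
    rw [h3]
    have h4 : (e + 1) * κ ≡ 0 [MOD (e + 1)] := (Nat.modEq_zero_iff_dvd).2 (dvd_mul_right _ _)
    simpa using (Nat.ModEq.refl a).add h4
  constructor
  · intro h
    have h3 : y + κ ≡ a + e * κ + κ [MOD (e + 1)] := h.trans h1.symm
    exact Nat.ModEq.add_right_cancel' κ h3
  · intro h
    exact (h.add_right κ).trans h1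

open Classical in
/-- the correlation of two classes -/
theorem pair (Z H d d' a a' : ℕ) (hd : 0 < d) (hd' : 0 < d') :
    |∑ y ∈ range Z, dl H y d a * dl H y d' a'| ≤
      Z * H * (Nat.gcd d d' : ℕ) / (d * d') + 3 * (H : ℝ) ^ 2 := by
  have hdr : (0 : ℝ) < d := by exact_mod_cast hd
  have hdr' : (0 : ℝ) < d' := by exact_mod_cast hd'
  have hd1 : (1 : ℝ) ≤ d := by exact_mod_cast hd
  have hd1' : (1 : ℝ) ≤ d' := by exact_mod_cast hd'
  set g : ℕ := Nat.gcd d d' with hg
  set L : ℕ := Nat.lcm d d' with hL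
  have hg0 : 0 < g := Nat.gcd_pos_of_pos_left _ hd
  have hL0 : 0 < L := Nat.lcm_pos hd hd'
  have hgr : (0 : ℝ) < g := by exact_mod_cast hg0
  have hLr : (0 : ℝ) < L := by exact_mod_cast hL0
  have hgL : (g : ℝ) * L = d * d' := by exact_mod_cast Nat.gcd_mul_lcm d d'
  set c : ℕ → ℕ := fun κ => a + (d - 1) * κ with hc
  set c' : ℕ → ℕ := fun κ => a' + (d' - 1) * κ with hc'
  -- expansion
  have h1 : ∑ y ∈ range Z, dl H y d a * dl H y d' a' =
      ∑ κ ∈ range H, ∑ κ' ∈ range H,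
        ((((range Z).filter (fun y => y ≡ c κ [MOD d] ∧ y ≡ c' κ' [MOD d'])).card : ℝ) -
          (((range Z).filter (fun y => y ≡ c κ [MOD d])).card : ℝ) / d' -
          (((range Z).filter (fun y => y ≡ c' κ' [MOD d'])).card : ℝ) / d + Z / (d * d')) := by
    unfold dl
    simp_rw [sum_mul_sum]
    rw [sum_comm]
    refine sum_congr rfl fun κ _ => ?_
    rw [sum_comm]
    refine sum_congr rfl fun κ' _ => ?_
    have e1 : ∀ y, y + κ ≡ a [MOD d] ↔ y ≡ c κ [MOD d] := fun y => shiftc y κ a d hd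
    have e2 : ∀ y, y + κ' ≡ a' [MOD d'] ↔ y ≡ c' κ' [MOD d'] := fun y => shiftc y κ' a' d' hd'
    have e3 : ∀ y, ((if y + κ ≡ a [MOD d] then (1 : ℝ) else 0) - 1 / d) *
        ((if y + κ' ≡ a' [MOD d'] then (1 : ℝ) else 0) - 1 / d') =
        (if (y ≡ c κ [MOD d] ∧ y ≡ c' κ' [MOD d']) then (1 : ℝ) else 0) -
          (if y ≡ c κ [MOD d] then (1 : ℝ) else 0) / d' -
          (if y ≡ c' κ' [MOD d'] then (1 : ℝ) else 0) / d + 1 / (d * d') := by
      intro y
      rw [if_congr (e1 y) rfl rfl, if_congr (e2 y) rfl rfl]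
      by_cases g1 : y ≡ c κ [MOD d]
      · by_cases g2 : y ≡ c' κ' [MOD d']
        · rw [if_pos g1, if_pos g2, if_pos ⟨g1, g2⟩]
          field_simp
          ring
        · rw [if_pos g1, if_neg g2, if_neg (fun h => g2 h.2)]
          field_simp
          ring
      · by_cases g2 : y ≡ c' κ' [MOD d']
        · rw [if_neg g1, if_pos g2, if_neg (fun h => g1 h.1)]
          field_simp
          ring
        · rw [if_neg g1, if_neg g2, if_neg (fun h => g1 h.1)]
          field_simp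
          ring
    simp_rw [e3]
    rw [sum_add_distrib, sum_sub_distrib, sum_sub_distrib, ← sum_div, ← sum_div, sum_boole, sum_boole,
      sum_boole, sum_const, card_range, nsmul_eq_mul, mul_one_div]
  -- the terms
  have h2 : ∀ κ κ', |((((range Z).filter (fun y => y ≡ c κ [MOD d] ∧ y ≡ c' κ' [MOD d'])).card : ℝ) -
          (((range Z).filter (fun y => y ≡ c κ [MOD d])).card : ℝ) / d' -
          (((range Z).filter (fun y => y ≡ c' κ' [MOD d'])).card : ℝ) / d + Z / (d * d')) -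
      (Z : ℝ) / L * ((if c κ ≡ c' κ' [MOD g] then 1 else 0) - 1 / g)| ≤ 3 := by
    intro κ κ'
    have a1 := cnt2 Z d d' (c κ) (c' κ') hd hd'
    have a2 := cnt1 Z d (c κ) hd
    have a3 := cnt1 Z d' (c' κ') hd'
    rw [← hg, ← hL] at a1
    set N12 : ℝ := (((range Z).filter (fun y => y ≡ c κ [MOD d] ∧ y ≡ c' κ' [MOD d'])).card : ℝ)
    set N1 : ℝ := (((range Z).filter (fun y => y ≡ c κ [MOD d])).card : ℝ)
    set N2 : ℝ := (((range Z).filter (fun y => y ≡ c' κ' [MOD d'])).card : ℝ)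
    have e1 : (Z : ℝ) / L * ((if c κ ≡ c' κ' [MOD g] then 1 else 0) - 1 / g) =
        (if c κ ≡ c' κ' [MOD g] then (Z : ℝ) / L else 0) - Z / (d * d') := by
      rw [← hgL]
      split_ifs
      · field_simp
      · field_simp
        ring
    have e2 : N12 - N1 / d' - N2 / d + Z / (d * d') -
        ((if c κ ≡ c' κ' [MOD g] then (Z : ℝ) / L else 0) - Z / (d * d')) =
        (N12 - if c κ ≡ c' κ' [MOD g] then (Z : ℝ) / L else 0) - (N1 - Z / d) / d' - (N2 - Z / d') / d := by
      field_simp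
      ring
    rw [e1, e2]
    have b2 : |(N1 - Z / d) / d'| ≤ 1 := by
      rw [abs_div, abs_of_pos hdr', div_le_one hdr']
      exact a2.trans hd1'
    have b3 : |(N2 - Z / d') / d| ≤ 1 := by
      rw [abs_div, abs_of_pos hdr, div_le_one hdr]
      exact a3.trans hd1
    rw [abs_le] at a1 b2 b3 ⊢
    constructor <;> linarith [a1.1, a1.2, b2.1, b2.2, b3.1, b3.2]
  -- the compatible pairs
  have h3 : ∀ κ, |∑ κ' ∈ range H, ((if c κ ≡ c' κ' [MOD g] then (1 : ℝ) else 0) - 1 / g)| ≤ 1 := by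
    intro κ
    rw [sum_sub_distrib, sum_boole, sum_const, card_range, nsmul_eq_mul, mul_one_div]
    have e1 : (range H).filter (fun κ' => c κ ≡ c' κ' [MOD g]) =
        (range H).filter (fun κ' => κ' ≡ a' + (g - 1) * c κ [MOD g]) := by
      refine filter_congr fun κ' _ => ?_
      rw [← shiftc κ' (c κ) a' g hg0]
      have e2 : c' κ' + κ' ≡ a' [MOD g] := by
        have e3 := (shiftc (c' κ') κ' a' d' hd').2 (Nat.ModEq.refl _)
        exact e3.of_dvd (Nat.gcd_dvd_right d d')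
      constructor
      · intro h
        rw [add_comm]
        exact (h.add_right κ').trans e2
      · intro h
        have e4 : c κ + κ' ≡ c' κ' + κ' [MOD g] := by
          rw [add_comm (c κ)]
          exact h.trans e2.symm
        exact Nat.ModEq.add_right_cancel' κ' e4
    rw [e1]
    exact cnt1 H g _ hg0
  rw [h1]
  have h4 : ∀ κ, |∑ κ' ∈ range H,
        ((((range Z).filter (fun y => y ≡ c κ [MOD d] ∧ y ≡ c' κ' [MOD d'])).card : ℝ) -
          (((range Z).filter (fun y => y ≡ c κ [MOD d])).card : ℝ) / d' -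
          (((range Z).filter (fun y => y ≡ c' κ' [MOD d'])).card : ℝ) / d + Z / (d * d'))| ≤
      Z / L + 3 * H := by
    intro κ
    have b1 : |∑ κ' ∈ range H,
        (((((range Z).filter (fun y => y ≡ c κ [MOD d] ∧ y ≡ c' κ' [MOD d'])).card : ℝ) -
          (((range Z).filter (fun y => y ≡ c κ [MOD d])).card : ℝ) / d' -
          (((range Z).filter (fun y => y ≡ c' κ' [MOD d'])).card : ℝ) / d + Z / (d * d')) -
      (Z : ℝ) / L * ((if c κ ≡ c' κ' [MOD g] then 1 else 0) - 1 / g))| ≤ 3 * H := by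
      refine (abs_sum_le_sum_abs _ _).trans ?_
      refine (sum_le_sum fun κ' _ => h2 κ κ').trans (le_of_eq ?_)
      rw [sum_const, card_range, nsmul_eq_mul]
      ring
    rw [sum_sub_distrib, ← mul_sum] at b1
    have b2 : |(Z : ℝ) / L * ∑ κ' ∈ range H, ((if c κ ≡ c' κ' [MOD g] then (1 : ℝ) else 0) - 1 / g)| ≤
        Z / L := by
      rw [abs_mul, abs_of_nonneg (show (0 : ℝ) ≤ Z / L by positivity)]
      exact mul_le_of_le_one_right (by positivity) (h3 κ)
    rw [abs_le] at b1 b2 ⊢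
    constructor <;> linarith [b1.1, b1.2, b2.1, b2.2]
  refine (abs_sum_le_sum_abs _ _).trans ((sum_le_sum fun κ _ => h4 κ).trans (le_of_eq ?_))
  rw [sum_const, card_range, nsmul_eq_mul, ← hgL]
  field_simp

end Pool.Agent.K3h21.AV
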