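import Pool.Agent.K3h21.AV.Var

set_option autoImplicit false
set_option linter.unusedSectionVars false
set_option linter.unusedVariables false

/-! The variance, summed over the moduli. -/

namespace Pool.Agent.K3h21.AV

open Finset
open Pool.Agent.H316R2 (tau_mul_le harm_sum_le hyperC)

/-- the number of divisors -/
noncomputable def ta (n : ℕ) : ℝ := (n.divisors.card : ℝ)

theorem ta_nonneg (n : ℕ) : 0 ≤ ta n := Nat.cast_nonneg _

theorem ta_mul (a b : ℕ) : ta (a * b) ≤ ta a * ta b := by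
  unfold ta
  exact_mod_cast tau_mul_le a b

theorem log1 (N : ℕ) : 1 ≤ 1 + Real.log (N : ℝ) := by
  have := Real.log_natCast_nonneg N
  linarith

/-- moments of the number of divisors -/
theorem tauP (j N : ℕ) : ∑ n ∈ Icc 1 N, ta n ^ j / n ≤ (1 + Real.log N) ^ 2 ^ j := by
  induction j with
  | zero =>
    simp only [pow_zero, pow_one]
    exact harm_sum_le N
  | succ j ih =>
    have h1 : ∑ n ∈ Icc 1 N, ta n ^ (j + 1) / n =
        ∑ n ∈ Icc 1 N, ∑ i ∈ n.divisorsAntidiagonal, ta (i.1 * i.2) ^ j / (i.1 * i.2) := by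
      apply sum_congr rfl
      intro n hn
      have h2 : ∀ i ∈ n.divisorsAntidiagonal, ta (i.1 * i.2) ^ j / (i.1 * i.2) = ta n ^ j / n := by
        intro i hi
        rw [Nat.mem_divisorsAntidiagonal] at hi
        rw [← hi.1]
        push_cast
        rfl
      rw [sum_congr rfl h2, sum_const, nsmul_eq_mul]
      have : (n.divisorsAntidiagonal.card : ℝ) = ta n := by
        unfold ta
        rw [← Nat.map_div_right_divisors, card_map]
      rw [this]
      ring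
    rw [h1, hyperC N (fun b c => ta (b * c) ^ j / (b * c))]
    have hS0 : 0 ≤ ∑ c ∈ Icc 1 N, ta c ^ j / c := sum_nonneg fun c _ => by
      have := ta_nonneg c
      positivity
    calc _ ≤ ∑ c ∈ Icc 1 N, ∑ b ∈ Icc 1 N, (ta b ^ j / b) * (ta c ^ j / c) := by
          apply sum_le_sum
          intro c hc
          refine le_trans (sum_le_sum_of_subset_of_nonneg (t := Icc 1 N)
            (Icc_subset_Icc_right (Nat.div_le_self _ _)) (fun b _ _ => by
              have := ta_nonneg (b * c)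
              positivity)) ?_
          apply sum_le_sum
          intro b _
          rw [div_mul_div_comm, ← mul_pow]
          have h3 := ta_nonneg (b * c)
          have h4 := ta_mul b c
          gcongr
      _ = (∑ c ∈ Icc 1 N, ta c ^ j / c) ^ 2 := by
          rw [sq, sum_mul_sum]
          rw [sum_comm]
      _ ≤ ((1 + Real.log N) ^ 2 ^ j) ^ 2 := pow_le_pow_left₀ hS0 ih 2
      _ = _ := by rw [← pow_mul, pow_succ]

theorem tauS (j D : ℕ) : ∑ d ∈ Icc 1 D, ta d ^ j ≤ D * (1 + Real.log D) ^ 2 ^ j := by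
  refine le_trans ?_ (mul_le_mul_of_nonneg_left (tauP j D) (Nat.cast_nonneg D))
  rw [mul_sum]
  refine sum_le_sum fun d hd => ?_
  rw [mem_Icc] at hd
  have hd0 : (0 : ℝ) < d := by exact_mod_cast hd.1
  have hdD : (d : ℝ) ≤ D := by exact_mod_cast hd.2
  have h1 : 0 ≤ ta d ^ j := pow_nonneg (ta_nonneg d) j
  rw [mul_div_assoc', le_div_iff₀ hd0]
  nlinarith

open Classical in
theorem tauE (j D e : ℕ) (he : 0 < e) : ∑ d ∈ (Icc 1 D).filter (fun d => e ∣ d), ta d ^ j / d ≤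
    ta e ^ j / e * (1 + Real.log D) ^ 2 ^ j := by
  have h1 : ∑ d ∈ (Icc 1 D).filter (fun d => e ∣ d), ta d ^ j / d ≤
      ∑ f ∈ Icc 1 D, ta (e * f) ^ j / ((e * f : ℕ) : ℝ) := by
    have hsub : (Icc 1 D).filter (fun d => e ∣ d) ⊆ (Icc 1 D).image (fun f => e * f) := by
      intro d hd
      rw [mem_filter, mem_Icc] at hd
      obtain ⟨⟨h1, h2⟩, f, rfl⟩ := hd
      rw [mem_image]
      refine ⟨f, mem_Icc.2 ⟨?_, ?_⟩, rfl⟩
      · rcases Nat.eq_zero_or_pos f with h | h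
        · subst h; omega
        · exact h
      · exact le_trans (Nat.le_mul_of_pos_left f he) h2
    refine (sum_le_sum_of_subset_of_nonneg hsub fun d _ _ => by
      have := ta_nonneg d
      positivity).trans (le_of_eq ?_)
    rw [sum_image]
    intro x _ y _ h
    exact Nat.eq_of_mul_eq_mul_left he h
  refine h1.trans ?_
  have h2 : ta e ^ j / e * ∑ f ∈ Icc 1 D, ta f ^ j / f ≤ ta e ^ j / e * (1 + Real.log D) ^ 2 ^ j := by
    apply mul_le_mul_of_nonneg_left (tauP j D)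
    have := ta_nonneg e
    positivity
  refine le_trans ?_ h2
  rw [mul_sum]
  refine sum_le_sum fun f hf => ?_
  rw [mem_Icc] at hf
  have hf0 : (0 : ℝ) < f := by exact_mod_cast hf.1
  have he0 : (0 : ℝ) < e := by exact_mod_cast he
  rw [div_mul_div_comm, ← mul_pow]
  push_cast
  have h3 := ta_nonneg (e * f)
  have h4 := ta_mul e f
  gcongr

/-- the sum with the greatest common divisors -/
theorem gcdS (j D : ℕ) : ∑ d ∈ Icc 1 D, ∑ d' ∈ Icc 1 D,
    ta d ^ j * ta d' ^ j * ((Nat.gcd d d' : ℕ) / (d * d')) ≤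
    (1 + Real.log D) ^ (2 * 2 ^ j + 2 ^ (2 * j)) := by
  classical
  have h1 : ∀ d ∈ Icc 1 D, ∀ d' ∈ Icc 1 D,
      ta d ^ j * ta d' ^ j * (((Nat.gcd d d' : ℕ) : ℝ) / (d * d')) ≤
      ∑ e ∈ Icc 1 D, e * ((if e ∣ d then ta d ^ j / d else 0) * (if e ∣ d' then ta d' ^ j / d' else 0)) := by
    intro d hd d' hd'
    rw [mem_Icc] at hd hd'
    have hg0 : 0 < Nat.gcd d d' := Nat.gcd_pos_of_pos_left _ (by omega)
    have hg : Nat.gcd d d' ∈ Icc 1 D := mem_Icc.2 ⟨hg0, (Nat.gcd_le_left _ (by omega)).trans hd.2⟩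
    have h2 := single_le_sum (s := Icc 1 D) (f := fun e : ℕ => (e : ℝ) *
      ((if e ∣ d then ta d ^ j / d else 0) * (if e ∣ d' then ta d' ^ j / d' else 0))) (fun e _ => by
        have g1 := ta_nonneg d
        have g2 := ta_nonneg d'
        split_ifs <;> positivity) hg
    refine le_trans (le_of_eq ?_) h2
    rw [if_pos (Nat.gcd_dvd_left _ _), if_pos (Nat.gcd_dvd_right _ _)]
    have g1 : (d : ℝ) ≠ 0 := by
      have : 0 < d := by omega
      exact_mod_cast this.ne'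
    have g2 : (d' : ℝ) ≠ 0 := by
      have : 0 < d' := by omega
      exact_mod_cast this.ne'
    field_simp
  have h2 : ∑ d ∈ Icc 1 D, ∑ d' ∈ Icc 1 D,
      ta d ^ j * ta d' ^ j * (((Nat.gcd d d' : ℕ) : ℝ) / (d * d')) ≤
      ∑ e ∈ Icc 1 D, e * (∑ d ∈ (Icc 1 D).filter (fun d => e ∣ d), ta d ^ j / d) ^ 2 := by
    refine (sum_le_sum fun d hd => sum_le_sum fun d' hd' => h1 d hd d' hd').trans (le_of_eq ?_)
    have e1 : ∀ d, ∑ d' ∈ Icc 1 D, ∑ e ∈ Icc 1 D, (e : ℝ) *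
        ((if e ∣ d then ta d ^ j / d else 0) * (if e ∣ d' then ta d' ^ j / d' else 0)) =
        ∑ e ∈ Icc 1 D, (e : ℝ) * ((if e ∣ d then ta d ^ j / d else 0) *
          ∑ d' ∈ (Icc 1 D).filter (fun d => e ∣ d), ta d' ^ j / d') := by
      intro d
      rw [sum_comm]
      refine sum_congr rfl fun e _ => ?_
      rw [← mul_sum, ← mul_sum, sum_filter]
    simp_rw [e1]
    rw [sum_comm]
    refine sum_congr rfl fun e _ => ?_
    rw [← mul_sum, ← sum_mul, sum_filter, sq]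
  refine h2.trans ?_
  have hl : 0 ≤ 1 + Real.log (D : ℝ) := zero_le_one.trans (log1 D)
  calc ∑ e ∈ Icc 1 D, (e : ℝ) * (∑ d ∈ (Icc 1 D).filter (fun d => e ∣ d), ta d ^ j / d) ^ 2 ≤
      ∑ e ∈ Icc 1 D, (e : ℝ) * (ta e ^ j / e * (1 + Real.log D) ^ 2 ^ j) ^ 2 := by
        refine sum_le_sum fun e he => ?_
        rw [mem_Icc] at he
        apply mul_le_mul_of_nonneg_left _ (Nat.cast_nonneg e)
        apply pow_le_pow_left₀ (sum_nonneg fun d _ => by
          have := ta_nonneg d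
          positivity)
        exact tauE j D e (by omega)
    _ = (1 + Real.log D) ^ (2 * 2 ^ j) * ∑ e ∈ Icc 1 D, ta e ^ (2 * j) / e := by
        rw [mul_sum]
        refine sum_congr rfl fun e he => ?_
        rw [mem_Icc] at he
        have he0 : (e : ℝ) ≠ 0 := by
          have : 0 < e := by omega
          exact_mod_cast this.ne'
        rw [mul_pow, div_pow, ← pow_mul, ← pow_mul, mul_comm j 2, mul_comm (2 ^ j) 2]
        field_simp
    _ ≤ (1 + Real.log D) ^ (2 * 2 ^ j) * (1 + Real.log D) ^ 2 ^ (2 * j) := by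
        apply mul_le_mul_of_nonneg_left (tauP (2 * j) D) (by positivity)
    _ = _ := by rw [← pow_add]

open Classical in
/-- **The bad set.** -/
theorem badS (Z H D j : ℕ) (BB : Finset ℕ) (hB : BB ⊆ range Z) (a : ℕ → ℕ) :
    (∑ d ∈ Icc 1 D, ta d ^ j * |∑ y ∈ BB, dl H y d (a d)|) ^ 2 ≤
      BB.card * (Z * H * (1 + Real.log D) ^ (2 * 2 ^ j + 2 ^ (2 * j)) +
        3 * (H : ℝ) ^ 2 * (D * (1 + Real.log D) ^ 2 ^ j) ^ 2) := by
  set c : ℕ → ℝ := fun d => if 0 ≤ ∑ y ∈ BB, dl H y d (a d) then ta d ^ j else - ta d ^ j with hc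
  have hc1 : ∀ d, |c d| = ta d ^ j := by
    intro d
    have h0 : 0 ≤ ta d ^ j := pow_nonneg (ta_nonneg d) j
    rw [hc]
    dsimp only
    split_ifs
    · exact abs_of_nonneg h0
    · rw [abs_neg, abs_of_nonneg h0]
  have h1 : ∑ d ∈ Icc 1 D, ta d ^ j * |∑ y ∈ BB, dl H y d (a d)| =
      ∑ y ∈ BB, ∑ d ∈ Icc 1 D, c d * dl H y d (a d) := by
    rw [sum_comm]
    refine sum_congr rfl fun d _ => ?_
    rw [← mul_sum, hc]
    dsimp only
    split_ifs with h
    · rw [abs_of_nonneg h]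
    · rw [abs_of_neg (not_le.1 h)]
      ring
  rw [h1]
  refine (sq_sum_le_card_mul_sum_sq).trans ?_
  apply mul_le_mul_of_nonneg_left _ (Nat.cast_nonneg _)
  refine (sum_le_sum_of_subset_of_nonneg hB fun y _ _ => sq_nonneg _).trans ?_
  have h2 : ∑ y ∈ range Z, (∑ d ∈ Icc 1 D, c d * dl H y d (a d)) ^ 2 =
      ∑ d ∈ Icc 1 D, ∑ d' ∈ Icc 1 D, c d * c d' * ∑ y ∈ range Z, dl H y d (a d) * dl H y d' (a d') := by
    simp_rw [sq, sum_mul_sum]
    rw [sum_comm]
    refine sum_congr rfl fun d _ => ?_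
    rw [sum_comm]
    refine sum_congr rfl fun d' _ => ?_
    rw [mul_sum]
    refine sum_congr rfl fun y _ => ?_
    ring
  rw [h2]
  have h3 : ∀ d ∈ Icc 1 D, ∀ d' ∈ Icc 1 D,
      c d * c d' * ∑ y ∈ range Z, dl H y d (a d) * dl H y d' (a d') ≤
      ta d ^ j * ta d' ^ j * (Z * H * (Nat.gcd d d' : ℕ) / (d * d') + 3 * (H : ℝ) ^ 2) := by
    intro d hd d' hd'
    rw [mem_Icc] at hd hd'
    refine (le_abs_self _).trans ?_
    rw [abs_mul, abs_mul, hc1, hc1]
    apply mul_le_mul_of_nonneg_left (pair Z H d d' (a d) (a d') (by omega) (by omega))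
    exact mul_nonneg (pow_nonneg (ta_nonneg _) _) (pow_nonneg (ta_nonneg _) _)
  refine (sum_le_sum fun d hd => sum_le_sum fun d' hd' => h3 d hd d' hd').trans ?_
  have h4 : ∑ d ∈ Icc 1 D, ∑ d' ∈ Icc 1 D,
      ta d ^ j * ta d' ^ j * (Z * H * (Nat.gcd d d' : ℕ) / (d * d') + 3 * (H : ℝ) ^ 2) =
      Z * H * (∑ d ∈ Icc 1 D, ∑ d' ∈ Icc 1 D,
        ta d ^ j * ta d' ^ j * ((Nat.gcd d d' : ℕ) / (d * d'))) +
      3 * (H : ℝ) ^ 2 * (∑ d ∈ Icc 1 D, ta d ^ j) ^ 2 := by
    rw [sq (∑ d ∈ Icc 1 D, ta d ^ j), sum_mul_sum, mul_sum, mul_sum, ← sum_add_distrib]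
    refine sum_congr rfl fun d _ => ?_
    rw [mul_sum, mul_sum, ← sum_add_distrib]
    refine sum_congr rfl fun d' _ => ?_
    ring
  rw [h4]
  have h5 := gcdS j D
  have h6 := tauS j D
  have h7 : 0 ≤ ∑ d ∈ Icc 1 D, ta d ^ j := sum_nonneg fun d _ => pow_nonneg (ta_nonneg d) j
  have h8 := pow_le_pow_left₀ h7 h6 2
  have h9 : (0 : ℝ) ≤ Z * H := by positivity
  have h10 : (0 : ℝ) ≤ 3 * (H : ℝ) ^ 2 := by positivity
  exact add_le_add (mul_le_mul_of_nonneg_left h5 h9) (mul_le_mul_of_nonneg_left h8 h10)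

end Pool.Agent.K3h21.AV
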