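import Pool.Agent.K3h21.AV.FinA
import Pool.Agent.K3h21.AV.Var2

set_option autoImplicit false
set_option linter.unusedSectionVars false
set_option linter.unusedVariables false

/-! Short windows: the members of the family are the pairs (window, element). -/

namespace Pool.Agent.K3h21.AV

open Finset Filter
open Pool.Agent.Y677.RSZ (rt Sys per_mod)
open Pool.Agent.R498.MT (exW shifts)

open Classical in
/-- the number of the pairs with given divisors -/
theorem key_count (G : ℤ → ℤ) (hper : ∀ p : ℕ, p.Prime → ∀ n : ℤ, (p : ℤ) ∣ G (n + p) - G n)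
    (W b : ℕ) {n : ℕ} (h : Fin n → ℕ) (BB : Finset ℕ) (H g : ℕ) (hg : ∀ p : ℕ, p.Prime → rt G p ≤ g)
    (d : ℕ) (hd : Squarefree d) (hdW : d.Coprime W) (σ : ℕ → Fin n) (M : ℝ)
    (hM : ∀ a < d, |∑ y ∈ BB, dl H y d a| ≤ M) :
    |∑ y ∈ BB, ∑ κ ∈ range H, (if ∀ p ∈ d.primeFactors,
        (p : ℤ) ∣ G ((W * (y + κ) + (b + h (σ p)) : ℕ) : ℤ) then (1 : ℝ) else 0) -
      BB.card * H * ∏ p ∈ d.primeFactors, ((rt G p : ℝ) / p)| ≤ (g : ℝ) ^ d.primeFactors.card * M := by
  have hd0 : 0 < d := Nat.pos_of_ne_zero hd.ne_zero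
  have hdr : (0 : ℝ) < d := by exact_mod_cast hd0
  set Q : ℕ → ℕ → Prop := fun p r => (p : ℤ) ∣ G ((W * r + (b + h (σ p)) : ℕ) : ℤ) with hQ
  have hpp : ∀ p ∈ d.primeFactors, p.Prime := fun p hp => Nat.prime_of_mem_primeFactors hp
  have hQm : ∀ p ∈ d.primeFactors, ∀ r s : ℕ, r ≡ s [MOD p] → (Q p r ↔ Q p s) := by
    intro p hp r s hrs
    rw [hQ]
    dsimp only
    apply per_mod hper (hpp p hp)
    exact (hrs.mul_left W).add_right _
  set RR := (range d).filter (fun a => ∀ p ∈ d.primeFactors, Q p a) with hRR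
  have hcard : RR.card = ∏ p ∈ d.primeFactors, rt G p := by
    have h1 := Pool.Agent.Y833.RSZ.card_prod d.primeFactors hpp Q (fun p hp r =>
      hQm p hp r (r % p) (Nat.mod_modEq r p).symm)
    rw [Nat.prod_primeFactors_of_squarefree hd] at h1
    refine Eq.trans ?_ (h1.trans ?_)
    · rw [hRR]
      apply congrArg Finset.card
      ext r
      simp only [mem_filter]
    apply prod_congr rfl
    intro p hp
    have hpW : ¬ p ∣ W := by
      intro hpW
      have h2 := Nat.dvd_gcd (Nat.dvd_of_mem_primeFactors hp) hpW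
      rw [hdW] at h2
      exact (hpp p hp).one_lt.ne' (Nat.dvd_one.1 h2)
    have h3 := Pool.Agent.Y833.RSZ.card_shift (hpp p hp) (hper p (hpp p hp)) W (b + h (σ p)) 0 hpW
    refine Eq.trans ?_ h3
    apply congrArg Finset.card
    ext r
    simp only [mem_filter, add_zero]
    rfl
  have hind : ∀ x : ℕ, (if ∀ p ∈ d.primeFactors, (p : ℤ) ∣ G ((W * x + (b + h (σ p)) : ℕ) : ℤ)
      then (1 : ℝ) else 0) = ∑ a ∈ RR, if x ≡ a [MOD d] then 1 else 0 := by
    intro x
    have hx : x % d < d := Nat.mod_lt x hd0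
    by_cases h1 : ∀ p ∈ d.primeFactors, Q p x
    · have h2 : x % d ∈ RR := by
        rw [hRR, mem_filter, mem_range]
        refine ⟨hx, fun p hp => ?_⟩
        refine (hQm p hp x (x % d) ?_).1 (h1 p hp)
        exact ((Nat.mod_modEq x d).of_dvd (Nat.dvd_of_mem_primeFactors hp)).symm
      rw [if_pos h1, sum_eq_single (x % d)]
      · rw [if_pos (Nat.mod_modEq x d).symm]
      · intro a ha hax
        rw [if_neg]
        intro h3
        rw [hRR, mem_filter, mem_range] at ha
        apply hax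
        unfold Nat.ModEq at h3
        rw [h3, Nat.mod_eq_of_lt ha.1]
      · intro h3
        exact absurd h2 h3
    · rw [if_neg h1]
      symm
      apply sum_eq_zero
      intro a ha
      rw [if_neg]
      intro h3
      rw [hRR, mem_filter] at ha
      apply h1
      intro p hp
      exact (hQm p hp x a (h3.of_dvd (Nat.dvd_of_mem_primeFactors hp))).2 (ha.2 p hp)
  have hmain : ∑ y ∈ BB, ∑ κ ∈ range H, (if ∀ p ∈ d.primeFactors,
        (p : ℤ) ∣ G ((W * (y + κ) + (b + h (σ p)) : ℕ) : ℤ) then (1 : ℝ) else 0) -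
      BB.card * H * ∏ p ∈ d.primeFactors, ((rt G p : ℝ) / p) = ∑ a ∈ RR, ∑ y ∈ BB, dl H y d a := by
    have e1 : ∏ p ∈ d.primeFactors, ((rt G p : ℝ) / p) = RR.card / d := by
      rw [prod_div_distrib, hcard]
      push_cast
      congr 1
      rw [← Nat.cast_prod, Nat.prod_primeFactors_of_squarefree hd]
    rw [e1]
    have e2 : ∀ y κ, (if ∀ p ∈ d.primeFactors,
        (p : ℤ) ∣ G ((W * (y + κ) + (b + h (σ p)) : ℕ) : ℤ) then (1 : ℝ) else 0) =
        ∑ a ∈ RR, if y + κ ≡ a [MOD d] then 1 else 0 := fun y κ => hind (y + κ)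
    simp_rw [e2]
    unfold dl
    have e3 : ∑ a ∈ RR, ∑ y ∈ BB, ∑ κ ∈ range H, ((if y + κ ≡ a [MOD d] then (1 : ℝ) else 0) - 1 / d) =
        ∑ a ∈ RR, ∑ y ∈ BB, ∑ κ ∈ range H, (if y + κ ≡ a [MOD d] then (1 : ℝ) else 0) -
          RR.card * (BB.card * (H * (1 / d))) := by
      simp_rw [sum_sub_distrib]
      simp only [sum_const, card_range, nsmul_eq_mul]
    rw [e3]
    congr 1
    · calc ∑ y ∈ BB, ∑ κ ∈ range H, ∑ a ∈ RR, (if y + κ ≡ a [MOD d] then (1 : ℝ) else 0) =
          ∑ y ∈ BB, ∑ a ∈ RR, ∑ κ ∈ range H, (if y + κ ≡ a [MOD d] then (1 : ℝ) else 0) :=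
            sum_congr rfl fun y _ => sum_comm
        _ = _ := sum_comm
    · ring
  rw [hmain]
  refine (abs_sum_le_sum_abs _ _).trans ?_
  have hM0 : 0 ≤ M := (abs_nonneg _).trans (hM 0 hd0)
  calc ∑ a ∈ RR, |∑ y ∈ BB, dl H y d a| ≤ ∑ _a ∈ RR, M := by
        refine sum_le_sum fun a ha => ?_
        rw [hRR, mem_filter, mem_range] at ha
        exact hM a ha.1
    _ = (RR.card : ℝ) * M := by rw [sum_const, nsmul_eq_mul]
    _ ≤ (g : ℝ) ^ d.primeFactors.card * M := by
        apply mul_le_mul_of_nonneg_right _ hM0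
        rw [hcard]
        push_cast
        calc ∏ p ∈ d.primeFactors, (rt G p : ℝ) ≤ ∏ _p ∈ d.primeFactors, (g : ℝ) := by
              apply prod_le_prod (fun _ _ => Nat.cast_nonneg _)
              intro p hp
              exact_mod_cast hg p (hpp p hp)
          _ = _ := by rw [prod_const]

/-- the pairs -/
noncomputable def pn (H : ℕ) (BB : Finset ℕ) : Finset ℕ := (BB ×ˢ range H).image (fun x => x.1 * H + x.2)

theorem pn_sum (H : ℕ) (BB : Finset ℕ) (f : ℕ → ℕ → ℝ) :
    ∑ K ∈ pn H BB, f (K / H) (K % H) = ∑ y ∈ BB, ∑ κ ∈ range H, f y κ := by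
  classical
  unfold pn
  rw [sum_image]
  · rw [sum_product]
    refine sum_congr rfl fun y _ => sum_congr rfl fun κ hκ => ?_
    rw [mem_range] at hκ
    have hH : 0 < H := by omega
    have e1 : (y * H + κ) / H = y := by
      rw [add_comm, Nat.add_mul_div_right _ _ hH, Nat.div_eq_of_lt hκ, zero_add]
    have e2 : (y * H + κ) % H = κ := by
      rw [add_comm, Nat.add_mul_mod_self_right, Nat.mod_eq_of_lt hκ]
    rw [e1, e2]
  · rintro ⟨y, κ⟩ h1 ⟨y', κ'⟩ h2 h3
    simp only [coe_product, Set.mem_prod, mem_coe, mem_range] at h1 h2 h3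
    have hH : 0 < H := by omega
    have e1 : ∀ y κ : ℕ, κ < H → (y * H + κ) / H = y := by
      intro y κ hκ
      rw [add_comm, Nat.add_mul_div_right _ _ hH, Nat.div_eq_of_lt hκ, zero_add]
    have e3 : y = y' := by
      rw [← e1 y κ h1.2, ← e1 y' κ' h2.2, h3]
    subst e3
    have : κ = κ' := by omega
    rw [this]

theorem pn_mem (H : ℕ) (BB : Finset ℕ) (K : ℕ) (hK : K ∈ pn H BB) : K / H ∈ BB ∧ K % H < H := by
  classical
  unfold pn at hK
  rw [mem_image] at hK
  obtain ⟨⟨y, κ⟩, h1, rfl⟩ := hK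
  rw [mem_product, mem_range] at h1
  have hH : 0 < H := by omega
  dsimp only at h1 ⊢
  have e1 : (y * H + κ) / H = y := by
    rw [add_comm, Nat.add_mul_div_right _ _ hH, Nat.div_eq_of_lt h1.2, zero_add]
  have e2 : (y * H + κ) % H = κ := by
    rw [add_comm, Nat.add_mul_mod_self_right, Nat.mod_eq_of_lt h1.2]
  rw [e1, e2]
  exact h1

open Classical in
/-- the choice of the class -/
theorem exb2 (G : ℤ → ℤ) (g : ℕ) (hG : Sys g G) (W₀ W A₁ : ℕ) {n : ℕ} (hn : g * n < A₁) (t : Fin n → ℕ) (r₀ : ℕ)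
    (hW₀ : ∀ p : ℕ, p.Prime → p ≤ A₁ → p ∣ W₀) (hW : Squarefree W) :
    ∃ b < W, ∀ p : ℕ, p.Prime → p ∣ W → ∀ i, ¬ (p : ℤ) ∣ G ((b + (W₀ * t i + r₀) : ℕ) : ℤ) := by
  have hW0 : 0 < W := Nat.pos_of_ne_zero hW.ne_zero
  have hpp : ∀ p ∈ W.primeFactors, p.Prime := fun p hp => Nat.prime_of_mem_primeFactors hp
  set Q : ℕ → ℕ → Prop := fun p r => ∀ i, ¬ (p : ℤ) ∣ G ((r + (W₀ * t i + r₀) : ℕ) : ℤ) with hQ
  have h1 := Pool.Agent.Y833.RSZ.card_prod W.primeFactors hpp Q (by
    intro p hp r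
    rw [hQ]
    dsimp only
    refine forall_congr' fun i => ?_
    rw [not_iff_not]
    apply per_mod hG.per (hpp p hp)
    exact (Nat.mod_modEq r p).symm.add_right _)
  rw [Nat.prod_primeFactors_of_squarefree hW] at h1
  have h2 : 0 < ∏ p ∈ W.primeFactors, ((range p).filter (Q p)).card := by
    apply prod_pos
    intro p hp
    rw [card_pos]
    by_contra hcon
    rw [not_nonempty_iff_eq_empty, filter_eq_empty_iff] at hcon
    have hbad : ∀ x ∈ range p, ∃ i, (p : ℤ) ∣ G ((x + (W₀ * t i + r₀) : ℕ) : ℤ) := by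
      intro x hx
      have h3 := hcon hx
      rw [hQ] at h3
      dsimp only at h3
      push Not at h3
      exact h3
    by_cases hpA : p ≤ A₁
    · -- all shifts are congruent
      have hpW : p ∣ W₀ := hW₀ p (hpp p hp) hpA
      have h4 : (range p).filter (fun x : ℕ => (p : ℤ) ∣ G ((1 * (x + r₀) + 0 : ℕ) : ℤ)) = range p := by
        rw [filter_eq_self]
        intro x hx
        obtain ⟨i, hi⟩ := hbad x hx
        refine (per_mod hG.per (hpp p hp) _ _ ?_).1 hi
        have h5 : W₀ * t i ≡ 0 [MOD p] := (Nat.modEq_zero_iff_dvd).2 (hpW.mul_right _)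
        have h6 : x + (W₀ * t i + r₀) = (x + r₀) + W₀ * t i := by ring
        have h7 : 1 * (x + r₀) + 0 = (x + r₀) + 0 := by ring
        rw [h6, h7]
        exact h5.add_left _
      have h5 := Pool.Agent.Y833.RSZ.card_shift (hpp p hp) (hG.per p (hpp p hp)) 1 0 r₀
        (fun h => (hpp p hp).one_lt.ne' (Nat.dvd_one.1 h))
      have h6 := (hG.root p (hpp p hp)).2
      have h7 : ((range p).filter (fun x : ℕ => (p : ℤ) ∣ G ((1 * (x + r₀) + 0 : ℕ) : ℤ))).card = p := by
        rw [h4, card_range]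
      have h8 : rt G p = p := by
        rw [← h5]
        convert h7
      omega
    · -- few classes
      have h4 : range p ⊆ univ.biUnion (fun i : Fin n =>
          (range p).filter (fun x : ℕ => (p : ℤ) ∣ G ((1 * (x + (W₀ * t i + r₀)) + 0 : ℕ) : ℤ))) := by
        intro x hx
        obtain ⟨i, hi⟩ := hbad x hx
        rw [mem_biUnion]
        refine ⟨i, mem_univ i, mem_filter.2 ⟨hx, ?_⟩⟩
        rw [one_mul, add_zero]
        exact hi
      have h5 := (card_le_card h4).trans card_biUnion_le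
      have h6 : ∀ i : Fin n, ((range p).filter (fun x : ℕ =>
          (p : ℤ) ∣ G ((1 * (x + (W₀ * t i + r₀)) + 0 : ℕ) : ℤ))).card ≤ g := by
        intro i
        have h7 := Pool.Agent.Y833.RSZ.card_shift (hpp p hp) (hG.per p (hpp p hp)) 1 0 (W₀ * t i + r₀)
          (fun h => (hpp p hp).one_lt.ne' (Nat.dvd_one.1 h))
        have h8 := (hG.root p (hpp p hp)).1
        refine le_trans (le_of_eq ?_) h8
        rw [← h7]
      rw [card_range] at h5
      have h7 : p ≤ n * g := by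
        refine h5.trans ((sum_le_sum fun i _ => h6 i).trans (le_of_eq ?_))
        rw [sum_const, card_univ, Fintype.card_fin, smul_eq_mul]
      have h8 : n * g = g * n := mul_comm _ _
      omega
  have h3 : 0 < ((range W).filter (fun r => ∀ p ∈ W.primeFactors, Q p r)).card := by
    refine lt_of_lt_of_eq h2 ?_
    refine Eq.trans ?_ (h1.symm.trans ?_)
    · refine prod_congr rfl fun p _ => congrArg Finset.card ?_
      ext r
      simp only [mem_filter]
    · apply congrArg Finset.card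
      ext r
      simp only [mem_filter]
  rw [card_pos] at h3
  obtain ⟨b, hb⟩ := h3
  rw [mem_filter, mem_range] at hb
  exact ⟨b, hb.1, fun p hp hpW => hb.2 p (Nat.mem_primeFactors.2 ⟨hp, hpW, hW0.ne'⟩)⟩

end Pool.Agent.K3h21.AV
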