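import Pool.Agent.K3h21.AV.Win
import Pool.Agent.H398R2.BV1

set_option autoImplicit false
set_option linter.unusedSectionVars false
set_option linter.unusedVariables false

/-! Short windows: squares and the sum of the remainders. -/

namespace Pool.Agent.K3h21.AV

open Finset Filter
open Pool.Agent.Y677.RSZ (rt Sys per_mod)
open Pool.Agent.R498.MT (exW shifts)

/-- the values -/
noncomputable def vl (G : ℤ → ℤ) (W b H : ℕ) {n : ℕ} (h : Fin n → ℕ) (K : ℕ) (i : Fin n) : ℕ :=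
  (G ((W * (K / H + K % H) + (b + h i) : ℕ) : ℤ)).natAbs

open Classical in
/-- few pairs with squares -/
theorem sq_few (G : ℤ → ℤ) (KK q0 : ℕ)
    (hSq : ∀ q : ℕ, q.Prime → q0 ≤ q → ∀ N H : ℕ,
      ((((Icc 1 H).filter (fun j : ℕ => ((q ^ 2 : ℕ) : ℤ) ∣ G ((N + j : ℕ) : ℤ))).card : ℕ) : ℝ) ≤
        KK * (H * (1 / (q : ℝ) ^ 2) + 1)) (W b LL H : ℕ) {n : ℕ} (h : Fin n → ℕ) (BB : Finset ℕ)
    (hW : 0 < W) (hLL : ∀ y ∈ BB, ∀ κ < H, ∀ i, 1 ≤ W * (y + κ) + (b + h i) ∧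
      W * (y + κ) + (b + h i) ≤ LL) (w w' : ℝ) (hw : 2 ≤ w) (hq0 : (q0 : ℝ) ≤ w) (hw' : 0 ≤ w') :
    ((sqb w w' (pn H BB) (vl G W b H h)).card : ℝ) ≤ H * (n * (KK * (LL * (2 / w) + w'))) := by
  set QQ : Finset ℕ := (range ⌈w'⌉₊).filter (fun q => q.Prime ∧ w ≤ q ∧ (q : ℝ) < w') with hQQ
  have hsub : sqb w w' (pn H BB) (vl G W b H h) ⊆ (range H).biUnion (fun κ => univ.biUnion (fun i : Fin n =>
      QQ.biUnion (fun q => (pn H BB).filter (fun K => K % H = κ ∧ q ^ 2 ∣ vl G W b H h K i)))) := by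
    intro K hK
    unfold sqb at hK
    rw [mem_filter] at hK
    obtain ⟨hK1, i, q, hq1, hq2, hq3, hq4⟩ := hK
    rw [mem_biUnion]
    refine ⟨K % H, mem_range.2 (pn_mem H BB K hK1).2, ?_⟩
    rw [mem_biUnion]
    refine ⟨i, mem_univ i, ?_⟩
    rw [mem_biUnion]
    refine ⟨q, ?_, mem_filter.2 ⟨hK1, rfl, hq4⟩⟩
    rw [hQQ, mem_filter, mem_range]
    exact ⟨Nat.lt_ceil.2 hq3, hq1, hq2, hq3⟩
  have hone : ∀ κ ∈ range H, ∀ i : Fin n, ∀ q ∈ QQ,
      ((((pn H BB).filter (fun K => K % H = κ ∧ q ^ 2 ∣ vl G W b H h K i)).card : ℕ) : ℝ) ≤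
        KK * (LL * (1 / (q : ℝ) ^ 2) + 1) := by
    intro κ hκ i q hq
    rw [hQQ, mem_filter] at hq
    obtain ⟨-, h1, h2, h3⟩ := hq
    have h4 : q0 ≤ q := by exact_mod_cast hq0.trans h2
    refine le_trans ?_ (hSq q h1 h4 0 LL)
    have h5 : ((pn H BB).filter (fun K => K % H = κ ∧ q ^ 2 ∣ vl G W b H h K i)).card ≤
        ((Icc 1 LL).filter (fun j : ℕ => ((q ^ 2 : ℕ) : ℤ) ∣ G ((0 + j : ℕ) : ℤ))).card := by
      apply card_le_card_of_injOn (fun K => W * (K / H + κ) + (b + h i))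
      · intro K hK
        rw [mem_coe, mem_filter] at hK
        rw [mem_coe, mem_filter, mem_Icc, zero_add]
        obtain ⟨h6, h7, h8⟩ := hK
        obtain ⟨h9, h10⟩ := pn_mem H BB K h6
        refine ⟨hLL _ h9 κ (mem_range.1 hκ) i, ?_⟩
        unfold vl at h8
        rw [h7] at h8
        exact Int.natCast_dvd.2 h8
      · intro K hK K' hK' h
        rw [mem_coe, mem_filter] at hK hK'
        dsimp only at h
        have h6 : W * (K / H + κ) = W * (K' / H + κ) := by omega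
        have h7 := Nat.eq_of_mul_eq_mul_left hW h6
        have h8 : K / H = K' / H := by omega
        rw [← Nat.div_add_mod K H, ← Nat.div_add_mod K' H, h8, hK.2.1, hK'.2.1]
    exact_mod_cast h5
  calc ((sqb w w' (pn H BB) (vl G W b H h)).card : ℝ) ≤
      ((∑ κ ∈ range H, ∑ i : Fin n, ∑ q ∈ QQ, ((pn H BB).filter (fun K =>
        K % H = κ ∧ q ^ 2 ∣ vl G W b H h K i)).card : ℕ) : ℝ) := by
        exact_mod_cast (card_le_card hsub).trans (card_biUnion_le.trans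
          (sum_le_sum fun κ _ => card_biUnion_le.trans (sum_le_sum fun i _ => card_biUnion_le)))
    _ = ∑ κ ∈ range H, ∑ i : Fin n, ∑ q ∈ QQ, ((((pn H BB).filter (fun K =>
        K % H = κ ∧ q ^ 2 ∣ vl G W b H h K i)).card : ℕ) : ℝ) := by
        push_cast
        rfl
    _ ≤ ∑ _κ ∈ range H, ∑ _i : Fin n, ∑ q ∈ QQ, KK * (LL * (1 / (q : ℝ) ^ 2) + 1) :=
        sum_le_sum fun κ hκ => sum_le_sum fun i _ => sum_le_sum fun q hq => hone κ hκ i q hq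
    _ = H * (n * (KK * (LL * (∑ q ∈ QQ, 1 / (q : ℝ) ^ 2) + QQ.card))) := by
        rw [sum_const, card_range, sum_const, card_univ, Fintype.card_fin, nsmul_eq_mul, nsmul_eq_mul,
          ← mul_sum, sum_add_distrib, ← mul_sum, sum_const, nsmul_eq_mul, mul_one]
    _ ≤ _ := by
        have h6 : ∑ q ∈ QQ, 1 / (q : ℝ) ^ 2 ≤ 2 / w :=
          Pool.Agent.Y882.MG.tail_sq _ _ hw (fun q hq => by
            rw [hQQ, mem_filter] at hq
            exact hq.2.2.1)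
        have h7 : (QQ.card : ℝ) ≤ w' :=
          Pool.Agent.Y882.MG.card_lt _ _ hw' (fun q hq => by
            rw [hQQ, mem_filter] at hq
            exact ⟨hq.2.1.one_le, hq.2.2.2.le⟩)
        gcongr

open Classical in
/-- the sum of the remainders over the moduli -/
theorem rem_few (Z H k g j W Y : ℕ) (θ P : ℝ) (BB : Finset ℕ) (hB : BB ⊆ range Z) (hj : 2 ^ k * g ≤ 2 ^ j)
    (M : ℕ → ℝ) (hM : ∀ d, 1 ≤ d → ∃ a < d, M d = |∑ y ∈ BB, dl H y d a|) (hP : 0 ≤ P)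
    (h1 : (Z : ℝ) * (1 + Real.log ⌊(Y : ℝ) ^ θ⌋₊) ^ (2 * 2 ^ j + 2 ^ (2 * j)) * (2 * P ^ 2) ≤ BB.card * H)
    (h2 : 3 * (⌊(Y : ℝ) ^ θ⌋₊ * (1 + Real.log ⌊(Y : ℝ) ^ θ⌋₊) ^ 2 ^ j) ^ 2 * (2 * P ^ 2) ≤ BB.card) :
    (∑ d ∈ dd W Y θ, (2 ^ k) ^ d.primeFactors.card * ((g : ℝ) ^ d.primeFactors.card * M d)) * P ≤
      BB.card * H := by
  set D : ℕ := ⌊(Y : ℝ) ^ θ⌋₊ with hD
  choose! a ha1 ha2 using hM
  have h3 := badS Z H D j BB hB a
  have h4 : ∑ d ∈ dd W Y θ, (2 ^ k) ^ d.primeFactors.card * ((g : ℝ) ^ d.primeFactors.card * M d) ≤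
      ∑ d ∈ Icc 1 D, ta d ^ j * |∑ y ∈ BB, dl H y d (a d)| := by
    have hsub : dd W Y θ ⊆ Icc 1 D := filter_subset _ _
    refine le_trans (sum_le_sum fun d hd => ?_) (sum_le_sum_of_subset_of_nonneg hsub fun d _ _ =>
      mul_nonneg (pow_nonneg (ta_nonneg d) j) (abs_nonneg _))
    have hd1 := mem_Icc.1 (hsub hd)
    rw [ha2 d hd1.1, ← mul_assoc, ← mul_pow]
    apply mul_le_mul_of_nonneg_right _ (abs_nonneg _)
    have h5 : (2 : ℝ) ^ k * g ≤ 2 ^ j := by exact_mod_cast hj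
    calc ((2 : ℝ) ^ k * g) ^ d.primeFactors.card ≤ (2 ^ j) ^ d.primeFactors.card :=
          pow_le_pow_left₀ (by positivity) h5 _
      _ = (2 ^ d.primeFactors.card) ^ j := by rw [← pow_mul, ← pow_mul, mul_comm]
      _ ≤ ta d ^ j := by
          apply pow_le_pow_left₀ (by positivity)
          unfold ta
          exact_mod_cast Pool.Agent.H398R2.BV.two_pow_omega_le d (by omega)
  have hS0 : 0 ≤ ∑ d ∈ Icc 1 D, ta d ^ j * |∑ y ∈ BB, dl H y d (a d)| :=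
    sum_nonneg fun d _ => mul_nonneg (pow_nonneg (ta_nonneg d) j) (abs_nonneg _)
  refine (mul_le_mul_of_nonneg_right h4 hP).trans ?_
  apply abs_le_of_sq_le_sq' _ (by positivity) |>.2
  rw [mul_pow]
  have hc0 : (0 : ℝ) ≤ BB.card := Nat.cast_nonneg _
  have hH0 : (0 : ℝ) ≤ H := Nat.cast_nonneg _
  calc (∑ d ∈ Icc 1 D, ta d ^ j * |∑ y ∈ BB, dl H y d (a d)|) ^ 2 * P ^ 2 ≤
      (BB.card * (Z * H * (1 + Real.log D) ^ (2 * 2 ^ j + 2 ^ (2 * j)) +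
        3 * (H : ℝ) ^ 2 * (D * (1 + Real.log D) ^ 2 ^ j) ^ 2)) * P ^ 2 :=
        mul_le_mul_of_nonneg_right h3 (sq_nonneg P)
    _ = BB.card * H / 2 * ((Z : ℝ) * (1 + Real.log D) ^ (2 * 2 ^ j + 2 ^ (2 * j)) * (2 * P ^ 2)) +
        BB.card * (H : ℝ) ^ 2 / 2 * (3 * (D * (1 + Real.log D) ^ 2 ^ j) ^ 2 * (2 * P ^ 2)) := by ring
    _ ≤ BB.card * H / 2 * (BB.card * H) + BB.card * (H : ℝ) ^ 2 / 2 * BB.card := by
        apply add_le_add
        · exact mul_le_mul_of_nonneg_left h1 (by positivity)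
        · exact mul_le_mul_of_nonneg_left h2 (by positivity)
    _ = (BB.card * (H : ℝ)) ^ 2 := by ring

end Pool.Agent.K3h21.AV
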