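import Pool.Agent.K3h21.AV.Win2

set_option autoImplicit false
set_option linter.unusedSectionVars false
set_option linter.unusedVariables false

/-! Almost all short windows contain clusters of almost prime values. -/

namespace Pool.Agent.K3h21.AV

open Finset Filter
open Pool.Agent.Y677.RSZ (rt Sys per_mod ev_log)
open Pool.Agent.W23.DC
open Pool.Agent.R498.MT (exW shifts)

open Classical in
/-- the bad windows -/
noncomputable def bdw (G : ℤ → ℤ) (W b H r m n₀ Z : ℕ) (w : ℝ) {n : ℕ} (h : Fin n → ℕ) : Finset ℕ :=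
  (range Z).filter (fun y => n₀ + 1 ≤ y ∧ ¬ ∃ Hs : Finset (Fin n), Hs.card = m ∧ ∃ κ < H, ∀ i ∈ Hs,
    AP r w (G ((W * (y + κ) + (b + h i) : ℕ) : ℤ)).natAbs)

open Classical in
/-- few bad windows -/
theorem few_bad (g k r m A A₁ : ℕ) (τ θ B δ η : ℝ) (hδ : 0 < δ) (W Y₀ : ℕ) (hW : 0 < W)
    (hfin : ∀ Y : ℕ, Y₀ ≤ Y →
      ∀ G : ℤ → ℤ, (∀ p : ℕ, p.Prime → rt G p ≤ g) →
        Mer (pr Y δ (24 / 25 * τ)) (tt Y) (fun p => (rt G p : ℝ) / p) δ (24 / 25 * τ) η →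
      ∀ (N : Finset ℕ) (ω : ℕ → ℝ) (val : ℕ → Fin (2 ^ k) → ℕ) (X₀ : ℝ) (e : ℕ → ℝ),
        (∀ K ∈ N, 0 ≤ ω K) → 0 ≤ X₀ → (∀ d, 0 ≤ e d) →
        (∀ K ∈ N, ∀ i, val K i ≠ 0 ∧ (val K i : ℝ) ≤ (Y : ℝ) ^ B) →
        (∀ K ∈ N, ∀ p : ℕ, p.Prime → p ∣ W → ∀ i, ¬ p ∣ val K i) →
        (∀ K ∈ N, ∀ p : ℕ, p.Prime → ¬ p ∣ W → (p : ℝ) < (Y : ℝ) ^ τ → ∀ i j,
          p ∣ val K i → p ∣ val K j → i = j) →
        (∀ K ∈ N, ∀ p : ℕ, p.Prime → rt G p = 0 → ∀ i, ¬ p ∣ val K i) →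
        (∀ d : ℕ, d ∈ dd W Y θ → ∀ σ : ℕ → Fin (2 ^ k),
          |∑ K ∈ N, ω K * (if ∀ p ∈ d.primeFactors, p ∣ val K (σ p) then 1 else 0) -
            X₀ * ∏ p ∈ d.primeFactors, ((rt G p : ℝ) / p)| ≤ e d) →
        ∑ d ∈ dd W Y θ, (2 ^ k) ^ d.primeFactors.card * e d ≤ X₀ / Real.log Y ^ A →
        ∑ K ∈ sqb ((Y : ℝ) ^ (τ / 4)) ((Y : ℝ) ^ τ) N val, ω K ≤ X₀ / Real.log Y ^ A →
        X₀ / Real.log Y ^ A ≤ ∑ K ∈ gda r m ((Y : ℝ) ^ (τ / 4)) ((Y : ℝ) ^ δ) N val, ω K)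
    (G : ℤ → ℤ) (hG : Sys g G) (n₀ KK q0 : ℕ)
    (hSq : ∀ q : ℕ, q.Prime → q0 ≤ q → ∀ N H : ℕ,
      ((((Icc 1 H).filter (fun j : ℕ => ((q ^ 2 : ℕ) : ℤ) ∣ G ((N + j : ℕ) : ℤ))).card : ℕ) : ℝ) ≤
        KK * (H * (1 / (q : ℝ) ^ 2) + 1))
    (X : ℕ) (hX3 : 3 ≤ X) (hXY : Y₀ ≤ X)
    (hMe : Mer (pr X δ (24 / 25 * τ)) (tt X) (fun p => (rt G p : ℝ) / p) δ (24 / 25 * τ) η)
    (b Z H j : ℕ) (h : Fin (2 ^ k) → ℕ) (hH : 1 ≤ H)
    (hb : ∀ p : ℕ, p.Prime → p ∣ W → ∀ i, ¬ (p : ℤ) ∣ G ((b + h i : ℕ) : ℤ))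
    (hUU : ∀ p : ℕ, p.Prime → ¬ p ∣ W → ∀ x : ℕ, ∀ i j, (p : ℤ) ∣ G ((x + h i : ℕ) : ℤ) →
      (p : ℤ) ∣ G ((x + h j : ℕ) : ℤ) → i = j)
    (hval : ∀ y < Z, n₀ + 1 ≤ y → ∀ κ < H, ∀ i, G ((W * (y + κ) + (b + h i) : ℕ) : ℤ) ≠ 0 ∧
      ((G ((W * (y + κ) + (b + h i) : ℕ) : ℤ)).natAbs : ℝ) ≤ (X : ℝ) ^ B)
    (hLL : ∀ y < Z, ∀ κ < H, ∀ i, W * (y + κ) + (b + h i) ≤ 2 * X)
    (hj : 2 ^ k * g ≤ 2 ^ j) (b0 : ℝ) (hb0 : 0 < b0)
    (h1 : (Z : ℝ) * (1 + Real.log ⌊(X : ℝ) ^ θ⌋₊) ^ (2 * 2 ^ j + 2 ^ (2 * j)) * (2 * (Real.log X ^ A) ^ 2) ≤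
      b0 * H)
    (h2 : 3 * (⌊(X : ℝ) ^ θ⌋₊ * (1 + Real.log ⌊(X : ℝ) ^ θ⌋₊) ^ 2 ^ j) ^ 2 * (2 * (Real.log X ^ A) ^ 2) ≤ b0)
    (h3 : (2 : ℝ) ≤ (X : ℝ) ^ (τ / 4)) (h4 : (q0 : ℝ) ≤ (X : ℝ) ^ (τ / 4))
    (h5 : ((2 ^ k : ℕ) : ℝ) * (KK * ((2 * X : ℕ) * (2 / (X : ℝ) ^ (τ / 4)) + (X : ℝ) ^ τ)) * Real.log X ^ A ≤ b0) :
    ((bdw G W b H r m n₀ Z ((X : ℝ) ^ (τ / 4)) h).card : ℝ) < b0 := by
  set BB := bdw G W b H r m n₀ Z ((X : ℝ) ^ (τ / 4)) h with hBB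
  by_contra hcon
  push Not at hcon
  have hXr : (3 : ℝ) ≤ X := by exact_mod_cast hX3
  have hlog : 0 < Real.log X := Real.log_pos (by linarith)
  have hlA : 0 < Real.log X ^ A := by positivity
  have hHr : (1 : ℝ) ≤ H := by exact_mod_cast hH
  have hBZ : BB ⊆ range Z := filter_subset _ _
  have hBm : ∀ y ∈ BB, y < Z ∧ n₀ + 1 ≤ y := by
    intro y hy
    rw [hBB] at hy
    unfold bdw at hy
    rw [mem_filter, mem_range] at hy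
    exact ⟨hy.1, hy.2.1⟩
  have hBc : (0 : ℝ) < BB.card := lt_of_lt_of_le hb0 hcon
  -- the maximal remainders
  have hmax : ∀ d : ℕ, 1 ≤ d → ∃ a < d, ∀ a' < d, |∑ y ∈ BB, dl H y d a'| ≤ |∑ y ∈ BB, dl H y d a| := by
    intro d hd
    obtain ⟨a, ha1, ha2⟩ := exists_max_image (range d) (fun a => |∑ y ∈ BB, dl H y d a|)
      ⟨0, mem_range.2 hd⟩
    exact ⟨a, mem_range.1 ha1, fun a' ha' => ha2 a' (mem_range.2 ha')⟩
  choose! a ha1 ha2 using hmax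
  set M : ℕ → ℝ := fun d => |∑ y ∈ BB, dl H y d (a d)| with hM
  have hcard : ((pn H BB).card : ℝ) = BB.card * H := by
    have h6 := pn_sum H BB (fun _ _ => (1 : ℝ))
    simp only [sum_const, nsmul_eq_mul, mul_one, card_range] at h6
    exact h6
  have key := hfin X hXY G (fun p hp => (hG.root p hp).1) hMe (pn H BB) (fun _ => 1) (vl G W b H h)
    (BB.card * H) (fun d => (g : ℝ) ^ d.primeFactors.card * M d) (fun _ _ => zero_le_one)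
    (by positivity) (fun d => mul_nonneg (by positivity) (abs_nonneg _))
    (fun K hK i => by
      obtain ⟨b1, b2⟩ := pn_mem H BB K hK
      obtain ⟨b3, b4⟩ := hBm _ b1
      obtain ⟨b5, b6⟩ := hval _ b3 b4 _ b2 i
      exact ⟨Int.natAbs_ne_zero.2 b5, b6⟩)
    (fun K hK p hp hpW i hd => by
      unfold vl at hd
      refine hb p hp hpW i ((per_mod hG.per hp _ _ ?_).1 (Int.natCast_dvd.2 hd))
      have : W * (K / H + K % H) ≡ 0 [MOD p] := (Nat.modEq_zero_iff_dvd).2 (hpW.mul_right _)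
      simpa using this.add_right (b + h i))
    (fun K hK p hp hpW _ i j hi hj => by
      unfold vl at hi hj
      refine hUU p hp hpW (W * (K / H + K % H) + b) i j ?_ ?_
      · rw [add_assoc]
        exact Int.natCast_dvd.2 hi
      · rw [add_assoc]
        exact Int.natCast_dvd.2 hj)
    (fun K hK p hp h0 i hd => by
      unfold vl at hd
      exact Pool.Agent.R498.MT.rt_zero hG.per p hp h0 _ (Int.natCast_dvd.2 hd))
    (fun d hd σ => by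
      have hd' := hd
      unfold dd at hd'
      rw [mem_filter, mem_Icc] at hd'
      have h6 := key_count G hG.per W b h BB H g (fun p hp => (hG.root p hp).1) d hd'.2.1 hd'.2.2 σ (M d)
        (fun a' ha' => ha2 d hd'.1.1 a' ha')
      have h7 : ∑ K ∈ pn H BB, (1 : ℝ) * (if ∀ p ∈ d.primeFactors, p ∣ vl G W b H h K (σ p) then 1 else 0) =
          ∑ y ∈ BB, ∑ κ ∈ range H, (if ∀ p ∈ d.primeFactors,
            (p : ℤ) ∣ G ((W * (y + κ) + (b + h (σ p)) : ℕ) : ℤ) then (1 : ℝ) else 0) := by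
        rw [← pn_sum H BB (fun y κ => (if ∀ p ∈ d.primeFactors,
            (p : ℤ) ∣ G ((W * (y + κ) + (b + h (σ p)) : ℕ) : ℤ) then (1 : ℝ) else 0))]
        refine sum_congr rfl fun K _ => ?_
        rw [one_mul]
        apply if_congr _ rfl rfl
        refine forall₂_congr fun p _ => ?_
        unfold vl
        exact Int.natCast_dvd.symm
      rw [h7]
      exact h6)
    (by
      rw [le_div_iff₀ hlA]
      refine rem_few Z H k g j W X θ (Real.log X ^ A) BB hBZ hj M (fun d hd => ⟨a d, ha1 d hd, rfl⟩) hlA.le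
        (h1.trans ?_) (h2.trans hcon)
      exact mul_le_mul_of_nonneg_right hcon (by positivity))
    (by
      rw [sum_const, nsmul_eq_mul, mul_one, le_div_iff₀ hlA]
      have h6 := sq_few G KK q0 hSq W b (2 * X) H h BB hW (fun y hy κ hκ i => by
        obtain ⟨b3, b4⟩ := hBm _ hy
        refine ⟨?_, hLL y b3 κ hκ i⟩
        have : 0 < W * (y + κ) := Nat.mul_pos hW (by omega)
        omega) ((X : ℝ) ^ (τ / 4)) ((X : ℝ) ^ τ) h3 h4 (by positivity)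
      calc ((sqb ((X : ℝ) ^ (τ / 4)) ((X : ℝ) ^ τ) (pn H BB) (vl G W b H h)).card : ℝ) * Real.log X ^ A ≤
          (H * (((2 ^ k : ℕ) : ℝ) * (KK * ((2 * X : ℕ) * (2 / (X : ℝ) ^ (τ / 4)) + (X : ℝ) ^ τ)))) *
            Real.log X ^ A := mul_le_mul_of_nonneg_right h6 hlA.le
        _ = H * (((2 ^ k : ℕ) : ℝ) * (KK * ((2 * X : ℕ) * (2 / (X : ℝ) ^ (τ / 4)) + (X : ℝ) ^ τ)) *
            Real.log X ^ A) := by ring
        _ ≤ H * b0 := mul_le_mul_of_nonneg_left h5 (by positivity)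
        _ ≤ BB.card * H := by
          rw [mul_comm]
          exact mul_le_mul_of_nonneg_right hcon (by positivity))
  have hpos : 0 < ∑ K ∈ gda r m ((X : ℝ) ^ (τ / 4)) ((X : ℝ) ^ δ) (pn H BB) (vl G W b H h), (1 : ℝ) := by
    refine lt_of_lt_of_le ?_ key
    positivity
  have hne : (gda r m ((X : ℝ) ^ (τ / 4)) ((X : ℝ) ^ δ) (pn H BB) (vl G W b H h)).Nonempty := by
    by_contra hno
    rw [not_nonempty_iff_eq_empty] at hno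
    rw [hno, sum_empty] at hpos
    exact lt_irrefl _ hpos
  obtain ⟨K, hK⟩ := hne
  unfold gda at hK
  rw [mem_filter] at hK
  obtain ⟨hK1, ⟨Hs, hHs, hAP⟩, -⟩ := hK
  obtain ⟨b1, b2⟩ := pn_mem H BB K hK1
  rw [hBB] at b1
  unfold bdw at b1
  rw [mem_filter] at b1
  exact b1.2.2 ⟨Hs, hHs, K % H, b2, fun i hi => hAP i hi⟩

end Pool.Agent.K3h21.AV
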