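import Pool.Agent.K3h21.AV.Win3

set_option autoImplicit false
set_option linter.unusedSectionVars false
set_option linter.unusedVariables false

/-! Almost all short windows contain clusters of almost prime values: the theorem. -/

namespace Pool.Agent.K3h21.AV

open Finset Filter
open Pool.Agent.Y677.RSZ (rt Sys per_mod ev_log)
open Pool.Agent.W23.DC
open Pool.Agent.R498.MT (exW shifts)

theorem numsW (θ τ : ℝ) (hθ : θ < 1 / 2) (hτ : 0 < τ) (W hm n₀ q0 KK CG dg k A B j C1 Y₀ Y₁ : ℕ) (K1 : ℝ) :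
    ∀ᶠ X : ℕ in atTop, 3 ≤ X ∧ Y₀ ≤ X ∧ Y₁ ≤ X ∧ K1 ≤ Real.log X ∧
      (6 * 2 ^ (2 * 2 ^ j) : ℝ) * Real.log X ^ (2 * 2 ^ j + 2 * A + (B + 1)) ≤ (X : ℝ) ^ (1 - 2 * θ) ∧
      (5 * (2 ^ k * KK) : ℝ) * Real.log X ^ (A + (B + 1)) ≤ (X : ℝ) ^ (τ / 4) ∧
      (q0 + 2 : ℝ) ≤ (X : ℝ) ^ (τ / 4) ∧ (CG * 3 ^ dg : ℝ) ≤ (X : ℝ) ^ ((1 : ℝ) / 100) ∧
      (4 * (W + hm + 1) : ℝ) * Real.log X ^ C1 ≤ X ∧
      (2 * (2 + W * (n₀ + 2)) : ℝ) * Real.log X ^ B ≤ (X : ℝ) ^ ((1 : ℝ) / 2) := by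
  have hT := tendsto_natCast_atTop_atTop (R := ℝ)
  have v1 : ∀ᶠ X : ℕ in atTop, K1 ≤ Real.log (X : ℝ) :=
    (Real.tendsto_log_atTop.comp hT).eventually_ge_atTop _
  have v2 : ∀ᶠ X : ℕ in atTop, (q0 + 2 : ℝ) ≤ (X : ℝ) ^ (τ / 4) :=
    ((tendsto_rpow_atTop (by linarith)).comp hT).eventually_ge_atTop _
  have v3 : ∀ᶠ X : ℕ in atTop, (CG * 3 ^ dg : ℝ) ≤ (X : ℝ) ^ ((1 : ℝ) / 100) :=
    ((tendsto_rpow_atTop (by norm_num)).comp hT).eventually_ge_atTop _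
  filter_upwards [eventually_ge_atTop 3, eventually_ge_atTop Y₀, eventually_ge_atTop Y₁, v1,
    ev_log (2 * 2 ^ j + 2 * A + (B + 1)) (6 * 2 ^ (2 * 2 ^ j)) (1 - 2 * θ) (by linarith),
    ev_log (A + (B + 1)) (5 * (2 ^ k * KK)) (τ / 4) (by linarith), v2, v3,
    ev_log C1 (4 * (W + hm + 1)) 1 (by norm_num),
    ev_log B (2 * (2 + W * (n₀ + 2))) (1 / 2) (by norm_num)] with X a1 a2 a3 a4 a5 a6 a7 a8 a9 a10
  rw [Real.rpow_one] at a9
  exact ⟨a1, a2, a3, a4, a5, a6, a7, a8, a9, a10⟩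

open Classical in
/-- **Almost all short windows contain clusters of almost prime values.** -/
theorem win (G : ℤ → ℤ) (g : ℕ) (hG : Sys g G) (n₀ CG dg : ℕ)
    (hGs : ∀ n : ℕ, n₀ ≤ n → G (n : ℤ) ≠ 0 ∧ (G (n : ℤ)).natAbs ≤ CG * (n + 1) ^ dg)
    (hMer : ∀ ε₁ υ η : ℝ, 0 < ε₁ → υ ≤ 1 → 0 < η → ∃ Y0 : ℕ, ∀ Y : ℕ, Y0 ≤ Y →
      Mer (pr Y ε₁ υ) (tt Y) (fun p => (rt G p : ℝ) / p) ε₁ υ η) (KK q0 : ℕ)
    (hSq : ∀ q : ℕ, q.Prime → q0 ≤ q → ∀ N H : ℕ,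
      ((((Icc 1 H).filter (fun j : ℕ => ((q ^ 2 : ℕ) : ℤ) ∣ G ((N + j : ℕ) : ℤ))).card : ℕ) : ℝ) ≤
        KK * (H * (1 / (q : ℝ) ^ 2) + 1))
    (r : ℕ) (τ : ℝ) (hτ0 : 0 < τ) (hτ : τ < 1 / 2)
    (hr : 9 / 8 + ((dg : ℝ) + 1 / 100) / (24 / 25 * τ) ≤ r + 1) (m : ℕ) :
    ∃ K₀ : ℕ, ∀ HH : Finset ℕ, K₀ ≤ HH.card → ∀ B : ℕ, ∃ C : ℕ, ∀ᶠ X : ℕ in atTop,
      ((((range (X + 1)).filter (fun x : ℕ => ¬ ∃ Hs ⊆ HH, Hs.card = m ∧ ∃ n : ℕ, x < n ∧ ∀ h ∈ Hs,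
        ((n + h : ℕ) : ℝ) ≤ x + Real.log x ^ C ∧
          AP r ((x : ℝ) ^ (τ / 4)) (G ((n + h : ℕ) : ℤ)).natAbs)).card : ℕ) : ℝ) ≤
        X / Real.log X ^ B := by
  set θ : ℝ := (τ + 1 / 2) / 2 with hθ
  have hdg0 : (0 : ℝ) ≤ dg := Nat.cast_nonneg _
  obtain ⟨k, A₁, A, δ, hA₁, hδ, hfin⟩ := finG g (dg + 1) r τ θ ((dg : ℝ) + 1 / 100) hτ0
    (by rw [hθ]; linarith) (by linarith) (by push_cast; linarith) hr m
  obtain ⟨W₀, hW₀0, hW₀s, hW₀p, hW₀g⟩ := exW A₁ g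
  refine ⟨W₀ * 2 ^ k, fun HH hHH B => ?_⟩
  obtain ⟨r₀, t, hr₀, ht, htH⟩ := shifts W₀ (2 ^ k) hW₀0 HH hHH
  set h : Fin (2 ^ k) → ℕ := fun i => W₀ * t i + r₀ with hh
  have hinj : Function.Injective h := by
    intro i j hij
    rw [hh] at hij
    dsimp only at hij
    exact ht (Nat.eq_of_mul_eq_mul_left hW₀0 (by omega))
  set hm : ℕ := HH.sup id with hhm
  have hle : ∀ i, h i ≤ hm := fun i => Finset.le_sup (f := id) (htH i)
  obtain ⟨W, hW0, hWs, hWp, hWg⟩ := exW (A₁ + hm ^ g) g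
  obtain ⟨η, hη, Y₀, hfin⟩ := hfin W hW0 (fun p hp hpA => hWp p hp (by omega))
  obtain ⟨Y₁, hMe⟩ := hMer δ (24 / 25 * τ) η hδ (by linarith) hη
  obtain ⟨b, hbW, hb⟩ := exb2 G g hG W₀ W A₁ (by omega) t r₀ hW₀p hWs
  set j : ℕ := 2 ^ k * g with hj
  set E : ℕ := 2 * 2 ^ j + 2 ^ (2 * j) with hE
  set C1 : ℕ := E + 2 * A + (B + 1) + 1 with hC1
  refine ⟨C1 + 1, ?_⟩
  have hUU : ∀ p : ℕ, p.Prime → ¬ p ∣ W → ∀ x : ℕ, ∀ i j, (p : ℤ) ∣ G ((x + h i : ℕ) : ℤ) →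
      (p : ℤ) ∣ G ((x + h j : ℕ) : ℤ) → i = j := by
    intro p hp hpW x
    have key : ∀ i j, t i < t j → (p : ℤ) ∣ G ((x + h i : ℕ) : ℤ) →
        (p : ℤ) ∣ G ((x + h j : ℕ) : ℤ) → False := by
      intro i j hlt hi hj'
      obtain ⟨Δ, hΔ⟩ := hG.coll
      obtain ⟨s, hs⟩ : ∃ s, t j = t i + (s + 1) := ⟨t j - t i - 1, by omega⟩
      have e1 : h j = h i + W₀ * (s + 1) := by
        rw [hh]
        dsimp only
        rw [hs]
        ring
      have e2 : g ≤ W₀ * (s + 1) := hW₀g.trans (Nat.le_mul_of_pos_right _ (by omega))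
      obtain ⟨d1, d2, d3⟩ := hΔ (W₀ * (s + 1)) e2
      have e3 : p ∣ Δ (W₀ * (s + 1)) := by
        apply d3 p hp ((x + h i : ℕ) : ℤ) hi
        have : ((x + h i : ℕ) : ℤ) + ((W₀ * (s + 1) : ℕ) : ℤ) = ((x + h j : ℕ) : ℤ) := by
          rw [e1]
          push_cast
          ring
        rw [this]
        exact hj'
      have e4 : p ≤ hm ^ g := by
        refine (Nat.le_of_dvd (by omega) e3).trans (d2.trans (Nat.pow_le_pow_left ?_ g))
        have := hle j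
        omega
      exact hpW (hWp p hp (by omega))
    intro i j hi hj'
    by_contra hne
    rcases Nat.lt_trichotomy (t i) (t j) with h1 | h1 | h1
    · exact key i j h1 hi hj'
    · exact hne (ht h1)
    · exact key j i h1 hj' hi
  have hnum := numsW θ τ (by rw [hθ]; linarith) hτ0 W hm n₀ q0 KK CG dg k A B j C1 Y₀ Y₁
    (8 * 2 ^ E + 2 * W + 2 ^ (C1 + 1) * (3 * W + hm + 1) + 2)
  filter_upwards [hnum] with X hX
  obtain ⟨a1, a2, a3, a4, a5, a6, a7, a8, a9, a10⟩ := hX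
  have hXr : (3 : ℝ) ≤ X := by exact_mod_cast a1
  have hX0 : (0 : ℝ) < X := by linarith
  have hX1 : (1 : ℝ) ≤ X := by linarith
  set L : ℝ := Real.log X with hL
  have hWr : (1 : ℝ) ≤ W := by exact_mod_cast hW0
  have hhm0 : (0 : ℝ) ≤ hm := Nat.cast_nonneg _
  have c1 : (0 : ℝ) ≤ 8 * 2 ^ E := by positivity
  have c2 : (0 : ℝ) ≤ 2 ^ (C1 + 1) * (3 * W + hm + 1) := by positivity
  have hL1 : 1 ≤ L := by linarith
  have hL8 : 8 * 2 ^ E ≤ L := by linarith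
  have hL2W : 2 * (W : ℝ) ≤ L := by linarith
  have hLC : 2 ^ (C1 + 1) * (3 * W + hm + 1) ≤ L := by linarith
  set H : ℕ := ⌊L ^ C1⌋₊ with hH
  have hH1 : 1 ≤ H := Nat.le_floor (by push_cast; exact one_le_pow₀ hL1)
  have hHr : (1 : ℝ) ≤ H := by exact_mod_cast hH1
  have hHu : (H : ℝ) ≤ L ^ C1 := Nat.floor_le (by positivity)
  have hHl : L ^ C1 / 2 ≤ H := by
    have := Nat.lt_floor_add_one (L ^ C1)
    rw [← hH] at this
    linarith
  set Z : ℕ := X / W + 2 with hZ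
  have hZr : (Z : ℝ) ≤ 2 * X := by
    have h1 : Z ≤ 2 * X := by
      have := Nat.div_le_self X W
      omega
    exact_mod_cast h1
  have hWX : W * (X / W) ≤ X := Nat.mul_div_le X W
  have hbig : 3 * W + W * H + hm + 1 ≤ X := by
    have h1 : ((3 * W + W * H + hm + 1 : ℕ) : ℝ) ≤ X := by
      push_cast
      have h2 : (W : ℝ) * H ≤ W * L ^ C1 := mul_le_mul_of_nonneg_left hHu (by linarith)
      have h3 : 1 ≤ L ^ C1 := one_le_pow₀ hL1
      nlinarith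
    exact_mod_cast h1
  set b0 : ℝ := X / L ^ (B + 1) with hb0
  have hb00 : 0 < b0 := by rw [hb0]; positivity
  have hfl : (⌊(X : ℝ) ^ θ⌋₊ : ℝ) ≤ (X : ℝ) ^ θ := Nat.floor_le (by positivity)
  have hfl1 : (1 : ℝ) ≤ ⌊(X : ℝ) ^ θ⌋₊ := by
    have : 1 ≤ ⌊(X : ℝ) ^ θ⌋₊ := Nat.le_floor (by
      push_cast
      exact Real.one_le_rpow hX1 (by rw [hθ]; linarith))
    exact_mod_cast this
  have hlf : 1 + Real.log ⌊(X : ℝ) ^ θ⌋₊ ≤ 2 * L := by
    have h1 : Real.log ⌊(X : ℝ) ^ θ⌋₊ ≤ θ * L := by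
      rw [hL, ← Real.log_rpow hX0]
      exact Real.log_le_log (by linarith) hfl
    have h2 : θ * L ≤ 1 * L := mul_le_mul_of_nonneg_right (by rw [hθ]; linarith) (by linarith)
    linarith
  have hlf0 : 0 ≤ 1 + Real.log ⌊(X : ℝ) ^ θ⌋₊ := by
    have := Real.log_nonneg hfl1
    linarith
  have harg : ∀ y < Z, ∀ κ < H, ∀ i, W * (y + κ) + (b + h i) + 1 ≤ 2 * X := by
    intro y hy κ hκ i
    have h1 : W * (y + κ) ≤ W * (X / W + 1 + H) := Nat.mul_le_mul_left _ (by omega)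
    have h2 : W * (X / W + 1 + H) = W * (X / W) + W + W * H := by ring
    have h3 := hle i
    omega
  have hfew : ((bdw G W b H r m n₀ Z ((X : ℝ) ^ (τ / 4)) h).card : ℝ) < b0 := by
    apply few_bad g k r m A A₁ τ θ ((dg : ℝ) + 1 / 100) δ η hδ W Y₀ hW0 hfin G hG n₀ KK q0 hSq X a1 a2
      (hMe X a3) b Z H j h hH1 hb hUU ?_ ?_ ?_ b0 hb00 ?_ ?_ ?_ ?_ ?_
    · intro y hy hn κ hκ i
      have h1 := harg y hy κ hκ i
      have h2 : n₀ ≤ W * (y + κ) + (b + h i) := by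
        have : y + κ ≤ W * (y + κ) := Nat.le_mul_of_pos_left _ hW0
        omega
      obtain ⟨d1, d2⟩ := hGs _ h2
      refine ⟨d1, ?_⟩
      have d3 : ((G ((W * (y + κ) + (b + h i) : ℕ) : ℤ)).natAbs : ℝ) ≤
          CG * ((W * (y + κ) + (b + h i) + 1 : ℕ) : ℝ) ^ dg := by exact_mod_cast d2
      have d4 : ((W * (y + κ) + (b + h i) + 1 : ℕ) : ℝ) ≤ 3 * X := by
        have : ((W * (y + κ) + (b + h i) + 1 : ℕ) : ℝ) ≤ ((2 * X : ℕ) : ℝ) := by exact_mod_cast h1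
        push_cast at this ⊢
        linarith
      calc ((G ((W * (y + κ) + (b + h i) : ℕ) : ℤ)).natAbs : ℝ) ≤
          CG * ((W * (y + κ) + (b + h i) + 1 : ℕ) : ℝ) ^ dg := d3
        _ ≤ CG * (3 * X) ^ dg := by
            apply mul_le_mul_of_nonneg_left _ (Nat.cast_nonneg _)
            exact pow_le_pow_left₀ (Nat.cast_nonneg _) d4 _
        _ = (CG * 3 ^ dg) * (X : ℝ) ^ dg := by rw [mul_pow]; ring
        _ ≤ (X : ℝ) ^ ((1 : ℝ) / 100) * (X : ℝ) ^ dg := mul_le_mul_of_nonneg_right a8 (by positivity)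
        _ = (X : ℝ) ^ ((dg : ℝ) + 1 / 100) := by
            rw [Real.rpow_add hX0, Real.rpow_natCast, mul_comm]
    · intro y hy κ hκ i
      have := harg y hy κ hκ i
      omega
    · exact Nat.lt_two_pow_self.le
    · -- h1
      have e1 : (1 + Real.log ⌊(X : ℝ) ^ θ⌋₊) ^ (2 * 2 ^ j + 2 ^ (2 * j)) ≤ 2 ^ E * L ^ E := by
        rw [← hE, ← mul_pow]
        exact pow_le_pow_left₀ hlf0 hlf _
      calc (Z : ℝ) * (1 + Real.log ⌊(X : ℝ) ^ θ⌋₊) ^ (2 * 2 ^ j + 2 ^ (2 * j)) * (2 * (L ^ A) ^ 2) ≤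
          (2 * X) * (2 ^ E * L ^ E) * (2 * (L ^ A) ^ 2) := by
            apply mul_le_mul_of_nonneg_right _ (by positivity)
            exact mul_le_mul hZr e1 (by positivity) (by positivity)
        _ = (8 * 2 ^ E) * (X * (L ^ E * (L ^ A) ^ 2) / 2) := by ring
        _ ≤ L * (X * (L ^ E * (L ^ A) ^ 2) / 2) := mul_le_mul_of_nonneg_right hL8 (by positivity)
        _ = X / L ^ (B + 1) * (L ^ C1 / 2) := by
            rw [hC1]
            field_simp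
            ring
        _ ≤ b0 * H := by
            rw [hb0]
            exact mul_le_mul_of_nonneg_left hHl (by positivity)
    · -- h2
      have e1 : (1 + Real.log ⌊(X : ℝ) ^ θ⌋₊) ^ 2 ^ j ≤ 2 ^ 2 ^ j * L ^ 2 ^ j := by
        rw [← mul_pow]
        exact pow_le_pow_left₀ hlf0 hlf _
      have e2 : (⌊(X : ℝ) ^ θ⌋₊ * (1 + Real.log ⌊(X : ℝ) ^ θ⌋₊) ^ 2 ^ j) ^ 2 ≤
          ((X : ℝ) ^ θ * (2 ^ 2 ^ j * L ^ 2 ^ j)) ^ 2 := by
        apply pow_le_pow_left₀ (by positivity)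
        exact mul_le_mul hfl e1 (by positivity) (by positivity)
      have e3 : (X : ℝ) ^ θ * (X : ℝ) ^ θ * (X : ℝ) ^ (1 - 2 * θ) = X := by
        rw [← Real.rpow_add hX0, ← Real.rpow_add hX0]
        have : θ + θ + (1 - 2 * θ) = 1 := by ring
        rw [this, Real.rpow_one]
      rw [hb0, le_div_iff₀ (by positivity)]
      calc 3 * (⌊(X : ℝ) ^ θ⌋₊ * (1 + Real.log ⌊(X : ℝ) ^ θ⌋₊) ^ 2 ^ j) ^ 2 * (2 * (L ^ A) ^ 2) * L ^ (B + 1) ≤
          3 * ((X : ℝ) ^ θ * (2 ^ 2 ^ j * L ^ 2 ^ j)) ^ 2 * (2 * (L ^ A) ^ 2) * L ^ (B + 1) := by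
            apply mul_le_mul_of_nonneg_right _ (by positivity)
            apply mul_le_mul_of_nonneg_right _ (by positivity)
            exact mul_le_mul_of_nonneg_left e2 (by norm_num)
        _ = ((X : ℝ) ^ θ * (X : ℝ) ^ θ) * ((6 * 2 ^ (2 * 2 ^ j)) * L ^ (2 * 2 ^ j + 2 * A + (B + 1))) := by
            ring
        _ ≤ ((X : ℝ) ^ θ * (X : ℝ) ^ θ) * (X : ℝ) ^ (1 - 2 * θ) :=
            mul_le_mul_of_nonneg_left a5 (by positivity)
        _ = X := e3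
    · linarith [(Nat.cast_nonneg q0 : (0 : ℝ) ≤ q0)]
    · linarith
    · -- h5
      have e1 : (X : ℝ) ^ τ ≤ (X : ℝ) ^ (1 - τ / 4) :=
        Real.rpow_le_rpow_of_exponent_le hX1 (by linarith)
      have e2 : (X : ℝ) / (X : ℝ) ^ (τ / 4) = (X : ℝ) ^ (1 - τ / 4) := by
        rw [Real.rpow_sub hX0, Real.rpow_one]
      have e3 : (X : ℝ) ^ (1 - τ / 4) * (X : ℝ) ^ (τ / 4) = X := by
        rw [← Real.rpow_add hX0]
        have : 1 - τ / 4 + τ / 4 = 1 := by ring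
        rw [this, Real.rpow_one]
      have e4 : ((2 * X : ℕ) : ℝ) * (2 / (X : ℝ) ^ (τ / 4)) = 4 * (X : ℝ) ^ (1 - τ / 4) := by
        rw [← e2]
        push_cast
        ring
      rw [e4, hb0, le_div_iff₀ (by positivity)]
      calc ((2 ^ k : ℕ) : ℝ) * (KK * (4 * (X : ℝ) ^ (1 - τ / 4) + (X : ℝ) ^ τ)) * L ^ A * L ^ (B + 1) ≤
          ((2 ^ k : ℕ) : ℝ) * (KK * (4 * (X : ℝ) ^ (1 - τ / 4) + (X : ℝ) ^ (1 - τ / 4))) * L ^ A * L ^ (B + 1) := by
            gcongr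
        _ = (X : ℝ) ^ (1 - τ / 4) * (5 * (2 ^ k * KK) * L ^ (A + (B + 1))) := by
            push_cast
            ring
        _ ≤ (X : ℝ) ^ (1 - τ / 4) * (X : ℝ) ^ (τ / 4) := mul_le_mul_of_nonneg_left a6 (by positivity)
        _ = X := e3
  -- from windows to points
  set BX : Finset ℕ := (range (X + 1)).filter (fun x : ℕ => ¬ ∃ Hs ⊆ HH, Hs.card = m ∧ ∃ n : ℕ, x < n ∧ ∀ h ∈ Hs,
        ((n + h : ℕ) : ℝ) ≤ x + Real.log x ^ (C1 + 1) ∧
          AP r ((x : ℝ) ^ (τ / 4)) (G ((n + h : ℕ) : ℤ)).natAbs) with hBX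
  set sx : ℕ := ⌊(X : ℝ) ^ ((1 : ℝ) / 2)⌋₊ + 1 + W * (n₀ + 2) with hsx
  have hmain : ∀ x ∈ BX, sx ≤ x → x / W + 1 ∈ bdw G W b H r m n₀ Z ((X : ℝ) ^ (τ / 4)) h := by
    intro x hx hsx'
    rw [hBX, mem_filter, mem_range] at hx
    obtain ⟨hxX, hxbad⟩ := hx
    by_contra hno
    apply hxbad
    have hxW : W * (x / W) ≤ x := Nat.mul_div_le x W
    have hxW2 : x < W * (x / W + 1) := Nat.lt_mul_div_succ x hW0
    have hy1 : n₀ + 1 ≤ x / W + 1 := by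
      have : n₀ + 2 ≤ x / W := (Nat.le_div_iff_mul_le hW0).2 (by
        rw [mul_comm]
        omega)
      omega
    have hy2 : x / W + 1 < Z := by
      have : x / W ≤ X / W := Nat.div_le_div_right (by omega)
      omega
    unfold bdw at hno
    rw [mem_filter, mem_range] at hno
    push Not at hno
    obtain ⟨Hs, hHs, κ, hκ, hAP⟩ := hno hy2 hy1
    have hxr : (X : ℝ) ^ ((1 : ℝ) / 2) ≤ x := by
      have h1 := Nat.lt_floor_add_one ((X : ℝ) ^ ((1 : ℝ) / 2))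
      have h2 : ((⌊(X : ℝ) ^ ((1 : ℝ) / 2)⌋₊ + 1 : ℕ) : ℝ) ≤ x := by
        have : ⌊(X : ℝ) ^ ((1 : ℝ) / 2)⌋₊ + 1 ≤ x := by omega
        exact_mod_cast this
      push_cast at h2
      linarith
    have hx0 : (0 : ℝ) < x := lt_of_lt_of_le (by positivity) hxr
    have hxl : L / 2 ≤ Real.log x := by
      have h1 := Real.log_le_log (by positivity) hxr
      rw [Real.log_rpow hX0] at h1
      linarith
    have hwin : ((W * (H + 2) + hm : ℕ) : ℝ) ≤ Real.log x ^ (C1 + 1) := by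
      have h1 : (L / 2) ^ (C1 + 1) ≤ Real.log x ^ (C1 + 1) :=
        pow_le_pow_left₀ (by positivity) hxl _
      refine le_trans ?_ h1
      rw [div_pow, le_div_iff₀ (by positivity)]
      push_cast
      have h3 : 1 ≤ L ^ C1 := one_le_pow₀ hL1
      have h2 : (W : ℝ) * (H + 2) + hm ≤ (3 * W + hm + 1) * L ^ C1 := by
        have h4 : (W : ℝ) * H ≤ W * L ^ C1 := mul_le_mul_of_nonneg_left hHu (by linarith)
        have h5 : 0 ≤ (2 * (W : ℝ) + hm) * (L ^ C1 - 1) := mul_nonneg (by positivity) (by linarith)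
        nlinarith
      calc ((W : ℝ) * (H + 2) + hm) * 2 ^ (C1 + 1) ≤ ((3 * W + hm + 1) * L ^ C1) * 2 ^ (C1 + 1) :=
            mul_le_mul_of_nonneg_right h2 (by positivity)
        _ = (2 ^ (C1 + 1) * (3 * W + hm + 1)) * L ^ C1 := by ring
        _ ≤ L * L ^ C1 := mul_le_mul_of_nonneg_right hLC (by positivity)
        _ = L ^ (C1 + 1) := by ring
    refine ⟨Hs.image h, ?_, ?_, W * (x / W + 1 + κ) + b, ?_, ?_⟩
    · intro a ha
      rw [mem_image] at ha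
      obtain ⟨i, hi, rfl⟩ := ha
      exact htH i
    · rw [card_image_of_injective _ hinj, hHs]
    · have : W * (x / W + 1) ≤ W * (x / W + 1 + κ) := Nat.mul_le_mul_left _ (by omega)
      omega
    · intro a ha
      rw [mem_image] at ha
      obtain ⟨i, hi, rfl⟩ := ha
      constructor
      · have h1 : W * (x / W + 1 + κ) + b + h i ≤ x + (W * (H + 2) + hm) := by
          have h2 : W * (x / W + 1 + κ) ≤ W * (x / W + 1 + H) := Nat.mul_le_mul_left _ (by omega)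
          have h3 : W * (x / W + 1 + H) = W * (x / W) + W + W * H := by ring
          have h4 : W * (H + 2) = W * H + W + W := by ring
          have h5 := hle i
          omega
        have h6 : ((W * (x / W + 1 + κ) + b + h i : ℕ) : ℝ) ≤ ((x + (W * (H + 2) + hm) : ℕ) : ℝ) := by
          exact_mod_cast h1
        refine h6.trans ?_
        rw [Nat.cast_add]
        linarith
      · obtain ⟨p1, p2⟩ := hAP i hi
        rw [add_assoc]
        refine ⟨p1, fun p hp hpd => le_trans ?_ (p2 p hp hpd)⟩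
        have : (x : ℝ) ≤ X := by
          have : x ≤ X := by omega
          exact_mod_cast this
        exact Real.rpow_le_rpow hx0.le this (by positivity)
  have hcount : BX.card ≤ sx + W * (bdw G W b H r m n₀ Z ((X : ℝ) ^ (τ / 4)) h).card := by
    have hsub : BX ⊆ range sx ∪ BX.filter (fun x => sx ≤ x) := by
      intro x hx
      rw [mem_union, mem_range, mem_filter]
      by_cases h1 : x < sx
      · exact Or.inl h1
      · exact Or.inr ⟨hx, by omega⟩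
    refine (card_le_card hsub).trans ((card_union_le _ _).trans ?_)
    rw [card_range]
    apply Nat.add_le_add_left
    refine card_le_mul_card_image_of_maps_to (f := fun x => x / W + 1) ?_ W ?_
    · intro x hx
      rw [mem_filter] at hx
      exact hmain x hx.1 hx.2
    · intro y hy
      have : (BX.filter (fun x => sx ≤ x)).filter (fun x => x / W + 1 = y) ⊆ Ico (W * (y - 1)) (W * (y - 1) + W) := by
        intro x hx
        rw [mem_filter] at hx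
        rw [mem_Ico]
        have h0 : x / W + 1 = y := hx.2
        have h1 : x / W = y - 1 := by rw [← h0, Nat.add_sub_cancel]
        have h2 := Nat.mul_div_le x W
        have h3 := Nat.lt_mul_div_succ x hW0
        rw [h1] at h2 h3
        rw [Nat.mul_add, mul_one] at h3
        exact ⟨h2, h3⟩
      refine (card_le_card this).trans ?_
      rw [Nat.card_Ico]
      omega
  have hcr : (BX.card : ℝ) ≤ sx + W * b0 := by
    have h1 : (BX.card : ℝ) ≤ ((sx + W * (bdw G W b H r m n₀ Z ((X : ℝ) ^ (τ / 4)) h).card : ℕ) : ℝ) := by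
      exact_mod_cast hcount
    push_cast at h1
    have h2 : (W : ℝ) * (bdw G W b H r m n₀ Z ((X : ℝ) ^ (τ / 4)) h).card ≤ W * b0 :=
      mul_le_mul_of_nonneg_left hfew.le (by linarith)
    linarith
  refine hcr.trans ?_
  have g1 : (sx : ℝ) ≤ X / L ^ B / 2 := by
    have h1 : (⌊(X : ℝ) ^ ((1 : ℝ) / 2)⌋₊ : ℝ) ≤ (X : ℝ) ^ ((1 : ℝ) / 2) := Nat.floor_le (by positivity)
    have h2 : 1 ≤ (X : ℝ) ^ ((1 : ℝ) / 2) := Real.one_le_rpow hX1 (by norm_num)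
    have h3 : (X : ℝ) ^ ((1 : ℝ) / 2) * (X : ℝ) ^ ((1 : ℝ) / 2) = X := by
      rw [← Real.rpow_add hX0]
      norm_num
    have h4 : (sx : ℝ) ≤ (X : ℝ) ^ ((1 : ℝ) / 2) * (2 + W * (n₀ + 2)) := by
      rw [hsx]
      push_cast
      have h5 : (0 : ℝ) ≤ (W * (n₀ + 2) : ℝ) * ((X : ℝ) ^ ((1 : ℝ) / 2) - 1) :=
        mul_nonneg (by positivity) (by linarith)
      nlinarith
    refine h4.trans ?_
    rw [div_div, le_div_iff₀ (by positivity)]
    calc (X : ℝ) ^ ((1 : ℝ) / 2) * (2 + W * (n₀ + 2)) * (L ^ B * 2) =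
        (X : ℝ) ^ ((1 : ℝ) / 2) * (2 * (2 + W * (n₀ + 2)) * L ^ B) := by ring
      _ ≤ (X : ℝ) ^ ((1 : ℝ) / 2) * (X : ℝ) ^ ((1 : ℝ) / 2) := mul_le_mul_of_nonneg_left a10 (by positivity)
      _ = X := h3
  have g2 : (W : ℝ) * b0 ≤ X / L ^ B / 2 := by
    rw [hb0, pow_succ, div_div (X : ℝ), le_div_iff₀ (by positivity)]
    calc (W : ℝ) * (X / (L ^ B * L)) * (L ^ B * 2) = X * (2 * W / L) := by
          field_simp
      _ ≤ X * 1 := by
          apply mul_le_mul_of_nonneg_left _ hX0.le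
          rw [div_le_one (by linarith)]
          exact hL2W
      _ = X := mul_one _
  linarith

end Pool.Agent.K3h21.AV
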