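import Pool.Agent.K3h21.AV.Win4
import Pool.Agent.K3h21.IR.Main

set_option autoImplicit false
set_option linter.unusedSectionVars false
set_option linter.unusedVariables false

/-! Almost all short windows contain clusters of almost prime values of a given irreducible polynomial. -/

namespace Pool.Agent.K3h21.AV

open Finset Filter Polynomial
open Pool.Agent.Y677.RSZ (rt Sys)

/-- an irreducible polynomial of positive degree has no large roots -/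
theorem ne_ev (f : ℤ[X]) (hf : f ≠ 0) : ∃ n₀ : ℕ, ∀ n : ℕ, n₀ ≤ n → f.eval (n : ℤ) ≠ 0 := by
  classical
  refine ⟨(f.roots.toFinset.image Int.toNat).sup id + 1, fun n hn h0 => ?_⟩
  have h1 : (n : ℤ) ∈ f.roots.toFinset := by
    rw [Multiset.mem_toFinset, mem_roots hf]
    exact h0
  have h2 : n ∈ f.roots.toFinset.image Int.toNat := mem_image.2 ⟨(n : ℤ), h1, by simp⟩
  have h3 : n ≤ (f.roots.toFinset.image Int.toNat).sup id := Finset.le_sup (f := id) h2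
  omega

open Classical in
/-- **Almost all short windows contain clusters of almost prime values.** -/
theorem winPoly (f : ℤ[X]) (hf : Irreducible f) (hd : 0 < f.natDegree)
    (hadm : ∀ p : ℕ, p.Prime → ∃ n : ℤ, ¬ (p : ℤ) ∣ f.eval n)
    (r : ℕ) (τ : ℝ) (hτ0 : 0 < τ) (hτ : τ < 1 / 2)
    (hr : 9 / 8 + ((f.natDegree : ℝ) + 1 / 100) / (24 / 25 * τ) ≤ r + 1) (m : ℕ) :
    ∃ K₀ : ℕ, ∀ HH : Finset ℕ, K₀ ≤ HH.card → ∀ B : ℕ, ∃ (C : ℕ) (E : Set ℕ),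
      (∀ᶠ X : ℕ in atTop, ((E ∩ Set.Iic X).ncard : ℝ) ≤ X / Real.log X ^ B) ∧
      ∀ x : ℕ, x ∉ E → ∃ Hs ⊆ HH, Hs.card = m ∧ ∃ n : ℕ, x < n ∧ ∀ h ∈ Hs,
        ((n + h : ℕ) : ℝ) ≤ x + Real.log x ^ C ∧
          AP r ((x : ℝ) ^ (τ / 4)) (f.eval ((n + h : ℕ) : ℤ)).natAbs := by
  obtain ⟨g, hG⟩ := Pool.Agent.Y677.RSZ.poly_all f hf.ne_zero hadm
  obtain ⟨KK, q0, hSq⟩ := Pool.Agent.K3h21.IR.sq_irr f hf hd
  obtain ⟨CG, hCG⟩ := Pool.Agent.K3h21.IR.eval_size f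
  obtain ⟨n₀, hn₀⟩ := ne_ev f hf.ne_zero
  obtain ⟨K₀, h1⟩ := win (fun n => f.eval n) g hG n₀ CG f.natDegree (fun n hn => ⟨hn₀ n hn, hCG n⟩)
    (fun ε₁ υ η hε hυ hη => Pool.Agent.K3h21.IR.mer_irr f hf hd ε₁ υ η hε hυ hη) KK q0 hSq r τ hτ0 hτ hr m
  refine ⟨K₀, fun HH hHH B => ?_⟩
  obtain ⟨C, h2⟩ := h1 HH hHH B
  refine ⟨C, {x : ℕ | ¬ ∃ Hs ⊆ HH, Hs.card = m ∧ ∃ n : ℕ, x < n ∧ ∀ h ∈ Hs,
        ((n + h : ℕ) : ℝ) ≤ x + Real.log x ^ C ∧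
          AP r ((x : ℝ) ^ (τ / 4)) (f.eval ((n + h : ℕ) : ℤ)).natAbs}, ?_, fun x hx => ?_⟩
  · filter_upwards [h2] with X hX
    refine le_trans (le_of_eq ?_) hX
    rw [← Set.ncard_coe_finset]
    congr 2
    ext x
    rw [Set.mem_inter_iff, Set.mem_Iic, Set.mem_setOf_eq, mem_coe, mem_filter, mem_range]
    constructor
    · rintro ⟨h3, h4⟩
      exact ⟨by omega, h3⟩
    · rintro ⟨h3, h4⟩
      exact ⟨h4, by omega⟩
  · rw [Set.mem_setOf_eq, not_not] at hx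
    exact hx

end Pool.Agent.K3h21.AV
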